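import Pool.Agent.H200M.Stm2

/-! # Project MC: job REGM (middle multiplicities and small items are grouped) -/

set_option autoImplicit false

namespace Pool.Agent.Q14.MC

open Finset Pool.Agent Pool.Agent.TH176.Nag Pool.Agent.TH603.Sur Pool.Agent.TH2.NU
open Pool.Agent.TH641.UM Pool.Agent.Y205.FW Pool.Agent.Y205.MD Pool.Agent.H200W Pool.Agent.H200P
open Pool.Agent.H200C Pool.Agent.H200G Pool.Agent.H200M

/-- the numbers of a list of objects -/
def lK : List (ℕ ⊕ (Multiset ℕ × ℝ × ℝ)) → List ℕ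
  | [] => []
  | Sum.inl m :: l => m :: lK l
  | Sum.inr _ :: l => lK l

/-- the items of a list of objects -/
def lL : List (ℕ ⊕ (Multiset ℕ × ℝ × ℝ)) → List (Multiset ℕ × ℝ × ℝ)
  | [] => []
  | Sum.inl _ :: l => lL l
  | Sum.inr x :: l => x :: lL l

/-- the need for emptiness of an object -/
noncomputable def fO : ℕ ⊕ (Multiset ℕ × ℝ × ℝ) → ℝ := Sum.elim (fun m => (m : ℝ) ^ 2) fun x => x.2.2

/-- the space for packing of an object -/
noncomputable def aO (G : ℝ) : ℕ ⊕ (Multiset ℕ × ℝ × ℝ) → ℝ :=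
  Sum.elim (fun m => ((m : ℝ) + 16 * G) ^ 2) fun _ => 0

/-- the need for independence of an object -/
noncomputable def sO : ℕ ⊕ (Multiset ℕ × ℝ × ℝ) → ℝ :=
  Sum.elim (fun m => ((m : ℝ) + 1) ^ 2) fun x => x.2.1

/-- the multiplicities of an object -/
def mO : ℕ ⊕ (Multiset ℕ × ℝ × ℝ) → Multiset ℕ := Sum.elim (fun m => {m}) fun x => x.1

theorem mem_lK {l : List (ℕ ⊕ (Multiset ℕ × ℝ × ℝ))} {m : ℕ} (h : m ∈ lK l) : Sum.inl m ∈ l := by
  induction l with
  | nil => exact absurd h List.not_mem_nil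
  | cons x l ih =>
    cases x with
    | inl m' =>
      rw [lK] at h
      rcases List.mem_cons.1 h with rfl | h
      · exact List.mem_cons_self
      · exact List.mem_cons_of_mem _ (ih h)
    | inr y =>
      rw [lK] at h
      exact List.mem_cons_of_mem _ (ih h)

theorem mem_lL {l : List (ℕ ⊕ (Multiset ℕ × ℝ × ℝ))} {x : Multiset ℕ × ℝ × ℝ} (h : x ∈ lL l) :
    Sum.inr x ∈ l := by
  induction l with
  | nil => exact absurd h List.not_mem_nil
  | cons y l ih =>
    cases y with
    | inl m' =>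
      rw [lL] at h
      exact List.mem_cons_of_mem _ (ih h)
    | inr y =>
      rw [lL] at h
      rcases List.mem_cons.1 h with rfl | h
      · exact List.mem_cons_self
      · exact List.mem_cons_of_mem _ (ih h)

theorem sum_f (l : List (ℕ ⊕ (Multiset ℕ × ℝ × ℝ))) :
    (l.map fO).sum = q0 (lK l : Multiset ℕ) + tE (lL l) := by
  induction l with
  | nil => simp [lK, lL, q0, tE]
  | cons x l ih =>
    rw [List.map_cons, List.sum_cons, ih]
    cases x with
    | inl m =>
      rw [lK, lL]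
      simp only [q0, fO, Sum.elim_inl, Multiset.map_coe, Multiset.sum_coe, List.map_cons,
        List.sum_cons]
      ring
    | inr y =>
      rw [lK, lL]
      simp only [tE, fO, Sum.elim_inr, List.map_cons, List.sum_cons]
      ring

theorem sum_a (G : ℝ) (l : List (ℕ ⊕ (Multiset ℕ × ℝ × ℝ))) :
    (l.map (aO G)).sum = qG G (lK l : Multiset ℕ) := by
  induction l with
  | nil => simp [lK, qG]
  | cons x l ih =>
    rw [List.map_cons, List.sum_cons, ih]
    cases x with
    | inl m =>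
      rw [lK]
      simp only [qG, aO, Sum.elim_inl, Multiset.map_coe, Multiset.sum_coe, List.map_cons,
        List.sum_cons]
    | inr y =>
      rw [lK]
      simp only [aO, Sum.elim_inr, zero_add]

theorem sum_s (l : List (ℕ ⊕ (Multiset ℕ × ℝ × ℝ))) :
    (l.map sO).sum = q1 (lK l : Multiset ℕ) + tS (lL l) := by
  induction l with
  | nil => simp [lK, lL, q1, tS]
  | cons x l ih =>
    rw [List.map_cons, List.sum_cons, ih]
    cases x with
    | inl m =>
      rw [lK, lL]
      simp only [q1, sO, Sum.elim_inl, Multiset.map_coe, Multiset.sum_coe, List.map_cons,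
        List.sum_cons]
      ring
    | inr y =>
      rw [lK, lL]
      simp only [tS, sO, Sum.elim_inr, List.map_cons, List.sum_cons]
      ring

theorem sum_m (l : List (ℕ ⊕ (Multiset ℕ × ℝ × ℝ))) :
    (l.map mO).sum = (lK l : Multiset ℕ) + tM (lL l) := by
  induction l with
  | nil => simp [lK, lL, tM]
  | cons x l ih =>
    rw [List.map_cons, List.sum_cons, ih]
    cases x with
    | inl m =>
      rw [lK, lL, ← Multiset.cons_coe, ← Multiset.singleton_add, add_assoc]
      rfl
    | inr y =>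
      rw [lK, lL]
      simp only [tM, mO, Sum.elim_inr, List.map_cons, List.sum_cons]
      exact add_left_comm _ _ _

theorem lK_append (l1 l2 : List (ℕ ⊕ (Multiset ℕ × ℝ × ℝ))) : lK (l1 ++ l2) = lK l1 ++ lK l2 := by
  induction l1 with
  | nil => rfl
  | cons x l ih =>
    cases x with
    | inl m => rw [List.cons_append, lK, lK, ih, List.cons_append]
    | inr y => rw [List.cons_append, lK, lK, ih]

theorem lL_append (l1 l2 : List (ℕ ⊕ (Multiset ℕ × ℝ × ℝ))) : lL (l1 ++ l2) = lL l1 ++ lL l2 := by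
  induction l1 with
  | nil => rfl
  | cons x l ih =>
    cases x with
    | inl m => rw [List.cons_append, lL, lL, ih]
    | inr y => rw [List.cons_append, lL, lL, ih, List.cons_append]

theorem lK_inl (l : List ℕ) : lK (l.map Sum.inl) = l := by
  induction l with
  | nil => rfl
  | cons x l ih => rw [List.map_cons, lK, ih]

theorem lK_inr (l : List (Multiset ℕ × ℝ × ℝ)) : lK (l.map Sum.inr) = [] := by
  induction l with
  | nil => rfl
  | cons x l ih => rw [List.map_cons, lK, ih]

theorem lL_inl (l : List ℕ) : lL (l.map Sum.inl) = [] := by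
  induction l with
  | nil => rfl
  | cons x l ih => rw [List.map_cons, lL, ih]

theorem lL_inr (l : List (Multiset ℕ × ℝ × ℝ)) : lL (l.map Sum.inr) = l := by
  induction l with
  | nil => rfl
  | cons x l ih => rw [List.map_cons, lL, ih]

theorem sum_flatO {A B : Type} [AddCommMonoid A] (g : B → A) (L : List (List B)) :
    (L.flatten.map g).sum = (L.map fun l => (l.map g).sum).sum := by
  induction L with
  | nil => simp
  | cons l L ih => rw [List.flatten_cons, List.map_append, List.sum_append, ih, List.map_cons,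
      List.sum_cons]

/-- a part of a flattened list, with what is before and after -/
theorem flat_split {B : Type} {P : List (List B)} {l : List B} (h : l ∈ P) :
    ∃ L1 L2 : List B, P.flatten = L1 ++ (l ++ L2) := by
  obtain ⟨P1, P2, rfl⟩ := List.append_of_mem h
  exact ⟨P1.flatten, P2.flatten, by rw [List.flatten_append, List.flatten_cons]⟩

/-- `q1 K ≤ q0 K + qG G K / (16 G)` -/
theorem q1_le {G : ℝ} (hG : 1 ≤ G) (l : List ℕ) :
    q1 (l : Multiset ℕ) ≤ q0 (l : Multiset ℕ) + qG G (l : Multiset ℕ) / (16 * G) := by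
  induction l with
  | nil => simp [q0, q1, qG]
  | cons m l ih =>
    simp only [q0, q1, qG, Multiset.map_coe, Multiset.sum_coe, List.map_cons,
      List.sum_cons] at ih ⊢
    have hm : (0 : ℝ) ≤ m := Nat.cast_nonneg m
    have h1 : ((m : ℝ) + 1) ^ 2 ≤ (m : ℝ) ^ 2 + ((m : ℝ) + 16 * G) ^ 2 / (16 * G) := by
      have h2 : 2 * (m : ℝ) + 1 ≤ ((m : ℝ) + 16 * G) ^ 2 / (16 * G) := by
        rw [le_div_iff₀ (by linarith)]
        nlinarith [sq_nonneg (m : ℝ)]
      nlinarith
    rw [add_div]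
    linarith

theorem q0_nonneg (l : List ℕ) : 0 ≤ q0 (l : Multiset ℕ) := by
  simp only [q0, Multiset.map_coe, Multiset.sum_coe]
  refine List.sum_nonneg fun y hy => ?_
  obtain ⟨x, _, rfl⟩ := List.mem_map.1 hy
  positivity

theorem q1_nonneg (l : List ℕ) : 0 ≤ q1 (l : Multiset ℕ) := by
  simp only [q1, Multiset.map_coe, Multiset.sum_coe]
  refine List.sum_nonneg fun y hy => ?_
  obtain ⟨x, _, rfl⟩ := List.mem_map.1 hy
  positivity

theorem qG_nonneg (G : ℝ) (l : List ℕ) : 0 ≤ qG G (l : Multiset ℕ) := by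
  simp only [qG, Multiset.map_coe, Multiset.sum_coe]
  refine List.sum_nonneg fun y hy => ?_
  obtain ⟨x, _, rfl⟩ := List.mem_map.1 hy
  positivity

theorem tS_le_of {h0 : ℝ} {L : List (Multiset ℕ × ℝ × ℝ)} (h : ∀ x ∈ L, Ir h0 x) :
    0 ≤ tE L ∧ tE L ≤ tS L ∧ tS L ≤ 4 / 3 * tE L := by
  unfold tE tS
  refine ⟨List.sum_nonneg fun y hy => ?_, List.sum_le_sum fun x hx => (h x hx).2.2.2.2.1, ?_⟩
  · obtain ⟨x, hx, rfl⟩ := List.mem_map.1 hy
    exact (h x hx).2.2.1
  · rw [← List.sum_map_mul_left]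
    exact List.sum_le_sum fun x hx => (h x hx).2.2.2.2.2

/-- the item of a part -/
noncomputable def itmO (h G : ℝ) (l : List (ℕ ⊕ (Multiset ℕ × ℝ × ℝ))) : Multiset ℕ × ℝ × ℝ :=
  ((lK l : Multiset ℕ) + tM (lL l), q1 (lK l : Multiset ℕ) + tS (lL l) + 3 * h ^ 2 / G,
    q0 (lK l : Multiset ℕ) + tE (lL l))

/-- **Job REGM.** -/
theorem regM : S_RegM := by
  intro hMerge hCutl hItem h0 h G η m1 K L hh0 hη hη1 hG hh hK hL hq hE
  classical
  set β : ℝ := (m1 : ℝ) + 16 * G with hβ
  have hm1 : (0 : ℝ) ≤ m1 := Nat.cast_nonneg m1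
  have hG32 : 32 ≤ G := by linarith
  have hβ512 : 512 ≤ β := by rw [hβ]; linarith
  have hh1 : 0 < h := by
    by_contra hcon
    push Not at hcon
    have : η * h ≤ 0 := mul_nonpos_of_nonneg_of_nonpos hη.le hcon
    linarith
  have hβh : 1000 * β ≤ h := by
    refine hh.trans ?_
    nlinarith
  have hGβ : 16 * G ≤ β := by rw [hβ]; linarith
  set E : ℝ := q0 K + tE L with hEdef
  have hh2 : 0 < h ^ 2 := by positivity
  have hEpos : 0 < E := by linarith
  -- the ratio
  set θ : ℝ := qG G K / E with hθ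
  have hKl : ((K.toList : List ℕ) : Multiset ℕ) = K := Multiset.coe_toList K
  have hqG0 : 0 ≤ qG G K := by
    rw [← hKl]
    exact qG_nonneg G _
  have hθ0 : 0 ≤ θ := div_nonneg hqG0 hEpos.le
  have hθ1 : θ ≤ 1 - η := by
    rw [hθ, div_le_iff₀ hEpos]
    exact hq
  have hθE : θ * E = qG G K := by
    rw [hθ]
    field_simp
  -- the objects
  set g : ℕ ⊕ (Multiset ℕ × ℝ × ℝ) → ℝ := fun x => aO G x - θ * fO x with hg
  have hgsum : ∀ l : List (ℕ ⊕ (Multiset ℕ × ℝ × ℝ)),
      (l.map g).sum = qG G (lK l : Multiset ℕ) - θ * (q0 (lK l : Multiset ℕ) + tE (lL l)) := by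
    intro l
    rw [← sum_a G l, ← sum_f l, ← List.sum_map_mul_left]
    induction l with
    | nil => simp
    | cons x l ih =>
      simp only [List.map_cons, List.sum_cons] at ih ⊢
      rw [ih, hg]
      ring
  obtain ⟨Q, hQ, hQs⟩ := hMerge g (β ^ 2) (G ^ 2) (K.toList.map Sum.inl) (L.map Sum.inr)
    (by positivity) (by positivity) (by
      intro x hx
      obtain ⟨m, hm, rfl⟩ := List.mem_map.1 hx
      have hm' : m ≤ m1 := hK m (Multiset.mem_toList.1 hm)
      have hm2 : (m : ℝ) ≤ m1 := Nat.cast_le.2 hm'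
      have hm3 : (0 : ℝ) ≤ m := Nat.cast_nonneg m
      have e1 : g (Sum.inl m) = ((m : ℝ) + 16 * G) ^ 2 - θ * (m : ℝ) ^ 2 := rfl
      rw [e1]
      constructor
      · have h1 : θ * (m : ℝ) ^ 2 ≤ 1 * (m : ℝ) ^ 2 :=
          mul_le_mul_of_nonneg_right (by linarith) (by positivity)
        nlinarith
      · have h1 : 0 ≤ θ * (m : ℝ) ^ 2 := by positivity
        have h2 : ((m : ℝ) + 16 * G) ^ 2 ≤ β ^ 2 := by
          rw [hβ]
          exact pow_le_pow_left₀ (by linarith) (by linarith) 2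
        linarith) (by
      intro x hx
      obtain ⟨y, hy, rfl⟩ := List.mem_map.1 hx
      obtain ⟨-, -, i3, i4, i5, i6⟩ := hL y hy
      have e1 : g (Sum.inr y) = 0 - θ * y.2.2 := rfl
      rw [e1]
      constructor
      · have h1 : θ * y.2.2 ≤ 1 * y.2.2 := mul_le_mul_of_nonneg_right (by linarith) i3
        have h2 : 768 * h0 ^ 2 ≤ G ^ 2 := by nlinarith
        linarith
      · have h1 : 0 ≤ θ * y.2.2 := mul_nonneg hθ0 i3
        linarith) (by
      rw [hgsum, hgsum, lK_inl, lL_inl, lK_inr, lL_inr, hKl]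
      have e1 : q0 ((([] : List ℕ)) : Multiset ℕ) = 0 := by simp [q0]
      have e2 : tE ([] : List (Multiset ℕ × ℝ × ℝ)) = 0 := by simp [tE]
      have e3 : qG G ((([] : List ℕ)) : Multiset ℕ) = 0 := by simp [qG]
      rw [e1, e2, e3]
      have e4 : θ * q0 K + θ * tE L = qG G K := by
        rw [← mul_add, ← hEdef, hθE]
      linarith)
  -- the sums over all objects
  have hKP : ∀ x ∈ Q, fO x ≤ β ^ 2 ∧ 0 ≤ fO x := by
    intro x hx
    rcases List.mem_append.1 (hQ.mem_iff.1 hx) with hx | hx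
    · obtain ⟨m, hm, rfl⟩ := List.mem_map.1 hx
      have hm' : m ≤ m1 := hK m (Multiset.mem_toList.1 hm)
      have hm2 : (m : ℝ) ≤ m1 := Nat.cast_le.2 hm'
      have hm3 : (0 : ℝ) ≤ m := Nat.cast_nonneg m
      have e1 : fO (Sum.inl m) = (m : ℝ) ^ 2 := rfl
      rw [e1]
      exact ⟨pow_le_pow_left₀ hm3 (by rw [hβ]; linarith) 2, by positivity⟩
    · obtain ⟨y, hy, rfl⟩ := List.mem_map.1 hx
      obtain ⟨-, -, i3, i4, i5, i6⟩ := hL y hy
      have e1 : fO (Sum.inr y) = y.2.2 := rfl
      rw [e1]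
      refine ⟨i4.trans ?_, i3⟩
      nlinarith
  have hQf : ∀ {A : Type} [AddCommMonoid A] (φ : ℕ ⊕ (Multiset ℕ × ℝ × ℝ) → A),
      (Q.map φ).sum = (((K.toList.map Sum.inl) ++ (L.map Sum.inr)).map φ).sum := by
    intro A _ φ
    exact (hQ.map φ).sum_eq
  have hlK : lK ((K.toList.map Sum.inl) ++ (L.map Sum.inr)) = K.toList := by
    rw [lK_append, lK_inl, lK_inr, List.append_nil]
  have hlL : lL ((K.toList.map Sum.inl) ++ (L.map Sum.inr)) = L := by
    rw [lL_append, lL_inl, lL_inr, List.nil_append]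
  have hFs : (Q.map fO).sum = E := by
    rw [hQf, sum_f, hlK, hlL, hKl]
  have hSs : (Q.map sO).sum = q1 K + tS L := by
    rw [hQf, sum_s, hlK, hlL, hKl]
  have hMs : (Q.map mO).sum = K + tM L := by
    rw [hQf, sum_m, hlK, hlL, hKl]
  obtain ⟨PP, hPP, hPPl⟩ := hCutl fO (2 * h ^ 2) (β ^ 2) Q (by linarith) (by positivity)
    (fun x hx => ⟨(hKP x hx).2, (hKP x hx).1⟩) (by rw [hFs]; exact hE)
  have hmemPP : ∀ l ∈ PP, ∀ x ∈ l, x ∈ Q := by
    intro l hl x hx
    rw [← hPP]
    exact List.mem_flatten.2 ⟨l, hl, hx⟩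
  have hlen : 2 * h ^ 2 * PP.length ≤ E := by
    rw [← hFs, ← hPP, sum_flatO]
    have h4 : ∀ R : List (List (ℕ ⊕ (Multiset ℕ × ℝ × ℝ))),
        (∀ p ∈ R, 2 * h ^ 2 ≤ (p.map fO).sum) →
        2 * h ^ 2 * R.length ≤ (R.map fun l => (l.map fO).sum).sum := by
      intro R
      induction R with
      | nil => intro _; simp
      | cons p R ih =>
        intro hR
        rw [List.map_cons, List.sum_cons, List.length_cons]
        have e1 := hR p List.mem_cons_self
        have e2 := ih fun p hp => hR p (List.mem_cons_of_mem _ hp)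
        push_cast
        linarith
    exact h4 PP fun p hp => (hPPl p hp).1
  refine ⟨PP.map (itmO h G), ?_, ?_, ?_, ?_⟩
  · -- one part
    intro x hx
    obtain ⟨l, hl, rfl⟩ := List.mem_map.1 hx
    obtain ⟨e1, e2⟩ := hPPl l hl
    rw [sum_f] at e1 e2
    obtain ⟨L1, L2, hsp⟩ := flat_split hl
    rw [hPP] at hsp
    have g1 := hQs L1 (l ++ L2) hsp
    have g2 := hQs (L1 ++ l) L2 (by rw [hsp, List.append_assoc])
    rw [List.map_append, List.sum_append] at g2
    have g3 : (l.map g).sum ≤ β ^ 2 + G ^ 2 := by linarith [g1.1, g2.2]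
    rw [hgsum] at g3
    have hKm : ∀ m ∈ (lK l : Multiset ℕ), m ≤ m1 := by
      intro m hm
      have h1 := hmemPP l hl _ (mem_lK (Multiset.mem_coe.1 hm))
      rcases List.mem_append.1 (hQ.mem_iff.1 h1) with h1 | h1
      · obtain ⟨m', hm', he⟩ := List.mem_map.1 h1
        rw [← Sum.inl.inj he]
        exact hK m' (Multiset.mem_toList.1 hm')
      · obtain ⟨y, _, he⟩ := List.mem_map.1 h1
        exact absurd he Sum.inr_ne_inl
    have hLm : ∀ x ∈ lL l, Ir h0 x := by
      intro x hx
      have h1 := hmemPP l hl _ (mem_lL hx)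
      rcases List.mem_append.1 (hQ.mem_iff.1 h1) with h1 | h1
      · obtain ⟨y, _, he⟩ := List.mem_map.1 h1
        exact absurd he Sum.inl_ne_inr
      · obtain ⟨y, hy, he⟩ := List.mem_map.1 h1
        rw [← Sum.inr.inj he]
        exact hL y hy
    obtain ⟨t0, t1, t2⟩ := tS_le_of hLm
    have k0 := q0_nonneg (lK l)
    have k1 := q1_nonneg (lK l)
    have k2 := q1_le (G := G) (by linarith) (lK l)
    set e : ℝ := q0 (lK l : Multiset ℕ) + tE (lL l) with he
    have hθe : θ * e ≤ (1 - η) * e := mul_le_mul_of_nonneg_right hθ1 (by linarith)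
    have hGG : G ^ 2 ≤ β ^ 2 := pow_le_pow_left₀ (by linarith) (by linarith) 2
    have hηe : η * (2 * h ^ 2) ≤ η * e := mul_le_mul_of_nonneg_left e1 hη.le
    have hββ : 1000 * β * β ≤ η * h * β := mul_le_mul_of_nonneg_right hh (by linarith)
    have hβh2 : 1000 * β * h ≤ η * h * h := mul_le_mul_of_nonneg_right hh hh1.le
    have hβh3 : 1000 * (η * h * β) ≤ η * h * h := by
      have h1 : η * h * (1000 * β) ≤ η * h * h :=
        mul_le_mul_of_nonneg_left hβh (by positivity)
      linarith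
    have c1 : qG G (lK l : Multiset ℕ) + 50 * β * h ≤ e := by
      have h1 : qG G (lK l : Multiset ℕ) ≤ (1 - η) * e + 2 * β ^ 2 := by linarith
      have h2 : 2 * β ^ 2 + 50 * β * h ≤ η * (2 * h ^ 2) := by nlinarith
      nlinarith
    have hβsq : β ^ 2 ≤ h ^ 2 / 1000 := by nlinarith
    have hqGe : qG G (lK l : Multiset ℕ) ≤ e := by nlinarith
    have hqGd : qG G (lK l : Multiset ℕ) / (16 * G) ≤ e / 512 := by
      rw [div_le_div_iff₀ (by linarith) (by norm_num)]
      have h1 : qG G (lK l : Multiset ℕ) * 512 ≤ e * 512 := by linarith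
      have h2 : e * 512 ≤ e * (16 * G) := mul_le_mul_of_nonneg_left (by linarith) (by linarith)
      linarith
    have hhG : 3 * h ^ 2 / G ≤ h ^ 2 / 10 := by
      rw [div_le_div_iff₀ (by linarith) (by norm_num)]
      nlinarith
    have hhG0 : 0 ≤ 3 * h ^ 2 / G := by positivity
    have c3 : q1 (lK l : Multiset ℕ) + tS (lL l) + 3 * h ^ 2 / G ≤ 7 * h ^ 2 := by
      have h1 : q1 (lK l : Multiset ℕ) + tS (lL l) ≤ 4 / 3 * e + e / 512 := by
        have : q0 (lK l : Multiset ℕ) + 4 / 3 * tE (lL l) ≤ 4 / 3 * e := by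
          rw [he]
          linarith
        linarith
      linarith
    obtain ⟨u1, u2⟩ := hItem (lK l : Multiset ℕ) (lL l) hh0 hG (by rw [← hβ]; exact hβh) hKm hLm
      (by rw [← hβ]; exact c1) e1 c3
    refine ⟨u1, u2, ?_, ?_, ?_, ?_⟩
    · change 0 ≤ q1 (lK l : Multiset ℕ) + tS (lL l) + 3 * h ^ 2 / G
      linarith
    · change q1 (lK l : Multiset ℕ) + tS (lL l) + 3 * h ^ 2 / G ≤ 1024 * h ^ 2
      linarith
    · change 0 ≤ e
      linarith
    · change e ≤ 1024 * h ^ 2
      linarith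
  · rw [← hMs, ← hPP, sum_flatO]
    unfold tM
    rw [List.map_map]
    congr 1
    refine List.map_congr_left fun l _ => ?_
    rw [sum_m]
    rfl
  · have h1 : tS (PP.map (itmO h G)) = (Q.map sO).sum + 3 * h ^ 2 / G * PP.length := by
      rw [← hPP, sum_flatO]
      unfold tS
      rw [List.map_map]
      have h2 : ∀ R : List (List (ℕ ⊕ (Multiset ℕ × ℝ × ℝ))),
          (R.map ((fun x : Multiset ℕ × ℝ × ℝ => x.2.1) ∘ itmO h G)).sum =
          (R.map fun l => (l.map sO).sum).sum + 3 * h ^ 2 / G * R.length := by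
        intro R
        induction R with
        | nil => simp
        | cons p R ih =>
          rw [List.map_cons, List.sum_cons, ih, List.map_cons, List.sum_cons, List.length_cons,
            sum_s]
          change (q1 (lK p : Multiset ℕ) + tS (lL p) + 3 * h ^ 2 / G) + _ = _
          push_cast
          ring
      exact h2 PP
    rw [h1, hSs]
    have h5 : 3 * h ^ 2 / G * PP.length ≤ 3 / 2 * E / G := by
      have hG0 : (0 : ℝ) < G := by linarith
      rw [div_mul_eq_mul_div, div_le_div_iff_of_pos_right hG0]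
      linarith
    linarith
  · rw [← hFs, ← hPP, sum_flatO]
    unfold tE
    rw [List.map_map]
    congr 1
    refine List.map_congr_left fun l _ => ?_
    rw [sum_f]
    rfl

end Pool.Agent.Q14.MC
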