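import Pool.Agent.H200M.Stm2
import Pool.Agent.Q162.GR.Data
import Pool.Agent.Q14.MC.RegM

/-! # Project MC: job KCM (the corank for a core, middle and graded multiplicities) -/

set_option autoImplicit false

namespace Pool.Agent.Q14.MC

open Finset Pool.Agent Pool.Agent.TH176.Nag Pool.Agent.TH603.Sur Pool.Agent.TH2.NU
open Pool.Agent.TH641.UM Pool.Agent.Y205.FW Pool.Agent.Y205.MD Pool.Agent.H200W Pool.Agent.H200P
open Pool.Agent.H200C Pool.Agent.H200G Pool.Agent.H200M

/-- `∑ (m + 1) ≤ qG G K / (16 G)` for the two differences -/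
theorem cond_diff {G : ℝ} (hG : 1 ≤ G) (K : Multiset ℕ) :
    q1 K - 2 * (TH2.NU.condM K : ℝ) ≤ qG G K / (16 * G) ∧
      2 * (TH2.NU.condM K : ℝ) - q0 K ≤ qG G K / (16 * G) ∧ q0 K ≤ qG G K ∧ 0 ≤ q0 K := by
  induction K using Multiset.induction_on with
  | empty =>
    rw [Q111.WR.condM_zero]
    simp [q0, q1, qG]
  | cons m K ih =>
    obtain ⟨i1, i2, i3, i4⟩ := ih
    have hm : (0 : ℝ) ≤ m := Nat.cast_nonneg m
    have hc : 2 * (TH2.NU.condM (m ::ₘ K) : ℝ) = 2 * (TH2.NU.condM K : ℝ) + (m : ℝ) * (m + 1) := by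
      have h1 : 2 * TH2.NU.condM (m ::ₘ K) = 2 * TH2.NU.condM K + m * (m + 1) := by
        have h2 : TH2.NU.condM (m ::ₘ K) = m * (m + 1) / 2 + TH2.NU.condM K := by
          unfold TH2.NU.condM
          rw [Multiset.map_cons, Multiset.sum_cons, Nat.choose_two_right, Nat.add_sub_cancel,
            mul_comm (m + 1) m]
        rw [h2, mul_add, Nat.mul_div_cancel' (Nat.even_mul_succ_self m).two_dvd]
        ring
      exact_mod_cast h1
    have e1 : q0 (m ::ₘ K) = (m : ℝ) ^ 2 + q0 K := by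
      unfold q0
      rw [Multiset.map_cons, Multiset.sum_cons]
    have e2 : q1 (m ::ₘ K) = ((m : ℝ) + 1) ^ 2 + q1 K := by
      unfold q1
      rw [Multiset.map_cons, Multiset.sum_cons]
    have e3 : qG G (m ::ₘ K) = ((m : ℝ) + 16 * G) ^ 2 + qG G K := by
      unfold qG
      rw [Multiset.map_cons, Multiset.sum_cons]
    have h2 : (m : ℝ) + 1 ≤ ((m : ℝ) + 16 * G) ^ 2 / (16 * G) := by
      rw [le_div_iff₀ (by linarith)]
      nlinarith [sq_nonneg (m : ℝ)]
    rw [hc, e1, e2, e3, add_div]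
    refine ⟨by nlinarith, by nlinarith, ?_, by positivity⟩
    have h3 : (m : ℝ) ^ 2 ≤ ((m : ℝ) + 16 * G) ^ 2 := pow_le_pow_left₀ hm (by linarith) 2
    linarith

/-- **Job KCM.** -/
theorem kCM : S_KCM := by
  intro hRegI hRegM hUnits hLeaf hNum hAcc hColor hColNum d m1 κ h G η K0 K J w hJ hwk hWin hη hη1
    hG hh hK hqG hbig
  have hw : ∀ k ∈ J, Grp k (w k) := fun k hk => (hwk k hk).1
  obtain ⟨V, N, R, hV⟩ := Q162.GR.colors hColor J w hw
  have hwsum : ∑ k ∈ J, lf (V k) (fun v => 256 * N k v) (fun v => v) (R k) = ∑ k ∈ J, w k :=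
    Finset.sum_congr rfl fun k hk => (hV k hk).2.1
  set e0 : ℝ := et κ with he0
  have he0256 : 256 ≤ e0 := by
    rw [he0]
    unfold et
    have h1 : (1 : ℝ) ≤ 2 ^ κ := one_le_pow₀ (by norm_num)
    linarith
  have hetk : ∀ k ∈ J, et k ≤ e0 := by
    intro k hk
    rw [he0]
    unfold et
    have h1 : (2 : ℝ) ^ k ≤ 2 ^ κ := pow_le_pow_right₀ (by norm_num) (hwk k hk).2
    linarith
  have hG4 : 4096 * e0 ≤ η * G := by
    refine le_trans (le_of_eq ?_) hG
    rw [he0]
    unfold et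
    ring
  have hG0 : 0 < G := by
    by_contra hcon
    push Not at hcon
    have : η * G ≤ 0 := mul_nonpos_of_nonneg_of_nonpos hη.le hcon
    linarith
  have hG1 : 4096 * e0 ≤ G := by
    refine hG4.trans ?_
    nlinarith
  have hm1 : (0 : ℝ) ≤ m1 := Nat.cast_nonneg m1
  have hh0 : 0 < h := by
    by_contra hcon
    push Not at hcon
    have : η * h ≤ 0 := mul_nonpos_of_nonneg_of_nonpos hη.le hcon
    linarith
  have hηh : η * h ≤ h := by nlinarith
  have hhG : 16000 * G ≤ η * h := by linarith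
  have hhG1 : 16000 * G ≤ h := hhG.trans hηh
  obtain ⟨cd1, cd2, cd3, cd4⟩ := cond_diff (G := G) (by linarith) K
  -- the windows
  have hWin' : ∀ f : ℕ, ∃ Λ : ℝ, d ≤ f → 0 ≤ Λ ∧ Λ + 2 * (f + 2) ≤ XX K0 f / (64 * h) ∧
      GoodSK K0 h (1024 * h ^ 2) (↑(HX 0 0 0 f) : Set (ℤ × ℤ)) (XX K0 f - Λ) ∧
      GoodEK K0 h (1024 * h ^ 2) (↑(HX 0 0 0 f) : Set (ℤ × ℤ)) (XX K0 f + Λ) := by
    intro f
    by_cases hf : d ≤ f
    · obtain ⟨Λ, hΛ⟩ := hWin f hf
      exact ⟨Λ, fun _ => hΛ⟩
    · exact ⟨0, fun h => absurd h hf⟩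
  choose Λ hΛ using hWin'
  have hXadd : ∀ f, XX (K0 + K) f = XX K0 f - 2 * (TH2.NU.condM K : ℝ) := by
    intro f
    have h1 : TH2.NU.condM (K0 + K) = TH2.NU.condM K0 + TH2.NU.condM K := by
      unfold TH2.NU.condM
      rw [Multiset.map_add, Multiset.sum_add]
    unfold XX
    rw [h1]
    push_cast
    ring
  have key := hAcc (S := HX 0 0 0 d) Q162.GR.HX_nonneg J V N
    ((HX 0 0 0 d).card - TH2.NU.condM (K0 + K + ∑ k ∈ J, w k))
    (K0 + K + ∑ k ∈ J, ((R k).map fun x => Multiset.replicate x.1 x.2).sum) (by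
    intro a g0 g1 hl
    obtain ⟨L, hIt, hM, hE1, hs1, he1, hes, hs2, hsq, hW1, hcd, hgain⟩ :=
      Q162.GR.data hUnits hColNum (fun k hk => (hV k hk).1) hl
    rw [add_left_comm, ← Q162.GR.leaf_eq]
    set F := ∑ k ∈ J, lf (V k) (N k) (a k) (R k) with hF
    have hFM : ∑ k ∈ J, tM (L k) = F := Finset.sum_congr rfl fun k hk => hM k hk
    set W := ∑ k ∈ J, WW (V k) (N k) with hW
    have hWR : (W : ℝ) = ∑ k ∈ J, (WW (V k) (N k) : ℝ) := by
      rw [hW]
      push_cast
      rfl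
    have hW0 : (0 : ℝ) ≤ W := Nat.cast_nonneg W
    set T : ℝ := ∑ k ∈ J, tE (L k) with hT
    set E : ℝ := q0 K + T with hEdef
    have hTw : 4 / 5 * ∑ k ∈ J, ((w k).map fun v : ℕ => (v : ℝ) ^ 2).sum ≤ T := by
      have h1 : 99 / 100 * ∑ k ∈ J, ((w k).map fun v : ℕ => (v : ℝ) ^ 2).sum ≤
          ∑ k ∈ J, ∑ v ∈ V k, (256 * N k v : ℝ) * (v : ℝ) ^ 2 := by
        rw [Finset.mul_sum]
        exact Finset.sum_le_sum fun k hk => (hV k hk).2.2
      have h2 : 0 ≤ ∑ k ∈ J, ((w k).map fun v : ℕ => (v : ℝ) ^ 2).sum := by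
        refine Finset.sum_nonneg fun k _ => Multiset.sum_nonneg fun y hy => ?_
        obtain ⟨x, _, rfl⟩ := Multiset.mem_map.1 hy
        positivity
      linarith
    have hE2 : 2 * h ^ 2 ≤ E := by rw [hEdef]; linarith
    have hqE : qG G K ≤ (1 - η) * E := by
      refine hqG.trans (mul_le_mul_of_nonneg_left ?_ (by linarith))
      rw [hEdef]
      linarith
    have hTE : η * E ≤ T := by
      have h1 : q0 K ≤ (1 - η) * E := cd3.trans hqE
      have h2 : T = E - q0 K := by rw [hEdef]; ring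
      rw [h2]
      linarith
    have hEpos : 0 < E := by
      have : 0 < h ^ 2 := by positivity
      linarith
    have hT0 : 0 ≤ T := le_trans (by positivity) hTE
    have hsW : ∑ k ∈ J, tS (L k) ≤ e0 * W / 100 := by
      refine hs2.trans ?_
      rw [hWR, Finset.mul_sum, Finset.sum_div]
      refine Finset.sum_le_sum fun k hk => ?_
      have h1 := hetk k hk
      have h2 : (0 : ℝ) ≤ (WW (V k) (N k) : ℝ) := Nat.cast_nonneg _
      have h3 : et k * (WW (V k) (N k) : ℝ) ≤ e0 * (WW (V k) (N k) : ℝ) :=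
        mul_le_mul_of_nonneg_right h1 h2
      linarith
    have hTW : T ≤ e0 * W / 100 := hes.trans hsW
    -- the items of height h0
    set h0 : ℝ := 64 * e0 with hh0d
    have hh01 : 1 ≤ h0 := by rw [hh0d]; linarith
    have hT2 : 2 * h0 ^ 2 ≤ T := by
      refine le_trans ?_ hTE
      have h1 : h0 ≤ G := by rw [hh0d]; linarith
      have h2 : h0 ≤ η * h := by linarith
      have h3 : h0 ≤ h := by linarith
      have h4 : h0 ^ 2 ≤ η * h * h := by nlinarith
      have h5 : η * (2 * h ^ 2) ≤ η * E := mul_le_mul_of_nonneg_left hE2 hη.le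
      nlinarith
    obtain ⟨L0, hI0, hM0, hS0, hE0⟩ := hRegI J L h0 hh01 hIt hE1 (fun k hk => by
      have := hetk k hk
      rw [hh0d]
      linarith) hT2
    rw [hFM] at hM0
    rw [← hT] at hS0 hE0
    obtain ⟨L', hIw, hM', hS', hE'⟩ := hRegM (h0 := h0) (h := h) (G := G) (η := η) (m1 := m1) K L0
      hh01 hη hη1 (by rw [hh0d]; linarith) hh hK hI0 (by rw [hE0]; exact hqE)
      (by rw [hE0]; exact hE2)
    rw [hM0] at hM'
    rw [hE0] at hS' hE'
    rw [← hEdef] at hS' hE'
    set s := tS L' with hs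
    set e := tE L' with he
    set C : ℝ := (TH2.NU.condM K : ℝ) with hC
    -- the numbers
    have hTh : 3 / 4 * T / h0 ≤ W / 8000 := by
      rw [div_le_iff₀ (by linarith), hh0d]
      nlinarith
    have hEG : E / G ≤ W / 400000 := by
      rw [div_le_div_iff₀ hG0 (by norm_num)]
      have h1 : η * E ≤ e0 * W / 100 := hTE.trans hTW
      have h2 : η * (E * 400000) ≤ η * (W * G) := by
        have h3 : e0 * W / 100 * 400000 ≤ W * (η * G) := by
          have h4 : W * (4096 * e0) ≤ W * (η * G) := mul_le_mul_of_nonneg_left hG4 hW0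
          nlinarith
        nlinarith
      exact le_of_mul_le_mul_left h2 hη
    have hqE1 : qG G K ≤ E := by
      refine hqE.trans ?_
      nlinarith
    have hqd : qG G K / (16 * G) ≤ W / 6400000 := by
      have h1 : qG G K / (16 * G) ≤ E / (16 * G) := by
        gcongr
      have h2 : E / (16 * G) = E / G / 16 := by
        rw [div_div, mul_comm]
      rw [h2] at h1
      linarith
    have hs3 : s ≤ q1 K + ∑ k ∈ J, tS (L k) + W / 8000 + W / 200000 := by
      have h1 : 3 / 2 * E / G = 3 / 2 * (E / G) := by ring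
      rw [h1] at hS'
      linarith
    have hs4 : s / (32 * h) ≤ W / 1000 := by
      rw [div_le_iff₀ (by positivity)]
      have h1 : q1 K ≤ q0 K + 2 * (qG G K / (16 * G)) := by linarith
      have h2 : s ≤ E + e0 * W / 100 + W := by
        have : q0 K ≤ E := by linarith
        linarith
      have h3 : E ≤ W * G / 400000 := by
        rw [div_le_iff₀ hG0] at hEG
        linarith
      have h4 : W * G ≤ W * h := mul_le_mul_of_nonneg_left (by linarith) hW0
      have h5 : W * (4096 * e0) ≤ W * h := mul_le_mul_of_nonneg_left (by linarith) hW0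
      have h6 : W * 1000 ≤ W * h := mul_le_mul_of_nonneg_left (by linarith) hW0
      nlinarith
    have hX : ∀ f, d ≤ f → 0 ≤ XX K0 f ∧ Λ f ≤ XX K0 f / 2 ∧
        128 * h * ((f : ℝ) + 2) ≤ XX K0 f := by
      intro f hf
      obtain ⟨l1, l2, -, -⟩ := hΛ f hf
      have h0 : (0 : ℝ) ≤ f := Nat.cast_nonneg f
      rw [le_div_iff₀ (by positivity)] at l2
      have h3 : 0 ≤ Λ f * (64 * h) := by positivity
      have h4 : 0 ≤ 2 * ((f : ℝ) + 2) * (64 * h) := by positivity
      have h5 : Λ f ≤ Λ f * (32 * h) := by nlinarith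
      refine ⟨by nlinarith, by nlinarith, by nlinarith⟩
    have hTri : Tri3 d (K0 + K) F (s - 2 * C) (e - 2 * C) (s / (32 * h)) := by
      refine hLeaf (K0 + K) F (s - 2 * C) (e - 2 * C) (s / (32 * h)) Λ
        (fun f hf => (hΛ f hf).1) ?_ ?_ ?_ ?_
      · intro f hf hfs
        rw [hXadd] at hfs
        have h1 := (hΛ f hf).2.2.1.2 (L'.map fun x => (x.1, x.2.1)) (by
          intro y hy
          obtain ⟨x, hx, rfl⟩ := List.mem_map.1 hy
          obtain ⟨i1, i2, i3, i4, i5, i6⟩ := hIw x hx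
          exact ⟨i1, i3, i4⟩) (by
          rw [List.map_map]
          have h2 : (L'.map (Prod.snd ∘ fun x : Multiset ℕ × ℝ × ℝ => (x.1, x.2.1))).sum = s := rfl
          rw [h2]
          linarith)
        rw [List.map_map] at h1
        have h2 : (L'.map (Prod.fst ∘ fun x : Multiset ℕ × ℝ × ℝ => (x.1, x.2.1))).sum = K + F :=
          hM'
        rw [h2, ← add_assoc] at h1
        exact h1
      · intro hfe
        rw [hXadd] at hfe
        have h1 := (hΛ d le_rfl).2.2.2 (L'.map fun x => (x.1, x.2.2)) (by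
          intro y hy
          obtain ⟨x, hx, rfl⟩ := List.mem_map.1 hy
          obtain ⟨i1, i2, i3, i4, i5, i6⟩ := hIw x hx
          exact ⟨i2, i5, i6⟩) (by
          rw [List.map_map]
          have h2 : (L'.map (Prod.snd ∘ fun x : Multiset ℕ × ℝ × ℝ => (x.1, x.2.2))).sum = e := rfl
          rw [h2]
          linarith)
        rw [List.map_map] at h1
        have h2 : (L'.map (Prod.fst ∘ fun x : Multiset ℕ × ℝ × ℝ => (x.1, x.2.2))).sum = K + F :=
          hM'
        rw [h2, ← add_assoc] at h1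
        exact h1
      · intro f hf hfs
        rw [hXadd] at hfs
        obtain ⟨x1, x2, x3⟩ := hX f hf
        refine (hΛ f hf).2.1.trans ?_
        rw [div_le_div_iff₀ (by positivity) (by positivity)]
        nlinarith
      · obtain ⟨n, hn⟩ := exists_nat_ge s
        refine ⟨d + 1 + n, by omega, ?_⟩
        rw [hXadd]
        obtain ⟨x1, x2, x3⟩ := hX (d + 1 + n) (by omega)
        have h1 : (n : ℝ) ≤ ((d + 1 + n : ℕ) : ℝ) := by
          push_cast
          have h2 : (0 : ℝ) ≤ d := Nat.cast_nonneg d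
          linarith
        have h3 : (0 : ℝ) ≤ ((d + 1 + n : ℕ) : ℝ) := Nat.cast_nonneg _
        have h4 : ((d + 1 + n : ℕ) : ℝ) ≤ 64 * h * (((d + 1 + n : ℕ) : ℝ) + 2) := by nlinarith
        linarith
    have hfin := hNum (d := d) (K0 + K) F (∑ k ∈ J, w k) (∑ k ∈ J, ∑ v ∈ V k, g0 k v)
      (∑ k ∈ J, ∑ v ∈ V k, g1 k v) W (s - 2 * C) (e - 2 * C) (s / (32 * h))
      (by rw [← hwsum]; exact hcd) hgain hTri
      (by linarith) (by
        have h1 : e = q0 K + T := hE'
        linarith)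
    exact hfin)
  have h1 : ∑ k ∈ J, ∑ v ∈ V k, Multiset.replicate (256 * N k v) v +
      (K0 + K + ∑ k ∈ J, ((R k).map fun x => Multiset.replicate x.1 x.2).sum) =
      K0 + K + ∑ k ∈ J, w k := by
    rw [add_left_comm, ← hwsum]
    congr 1
    exact (Q162.GR.leaf_eq J V (fun k v => 256 * N k v) (fun _ v => v) R).symm
  rw [h1] at key
  exact key

end Pool.Agent.Q14.MC
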