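import Pool.Agent.H200M.Stm3

/-! # Project MC: job NEF3 (real classes with three arbitrary coefficients) -/

set_option autoImplicit false

namespace Pool.Agent.Q14.MC

open Finset Pool.Agent Pool.Agent.H200P Pool.Agent.H200W Pool.Agent.H932R3 Pool.Agent.W609.CR
open Pool.Agent.H200M

theorem mem_compl_image {n : ℕ} {p : Fin 3 → Fin n} {i : Fin n} :
    i ∈ univ \ univ.image p ↔ ∀ j, p j ≠ i := by
  rw [Finset.mem_sdiff, Finset.mem_image]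
  constructor
  · rintro ⟨-, h⟩ j hj
    exact h ⟨j, Finset.mem_univ j, hj⟩
  · intro h
    refine ⟨Finset.mem_univ i, ?_⟩
    rintro ⟨j, -, hj⟩
    exact h j hj

/-- the rounded class satisfies the hypotheses of the main theorem -/
theorem round3 {ε γ γ' : ℝ} (hε : 0 < ε) (hγ : 0 < γ) (hγγ : γ ≤ γ')
    (hmain : ∀ {n d : ℕ} {μ : ℝ} (w : Fin n → ℕ)
      (p : Fin 3 → Fin n), Function.Injective p → w (p 2) ≤ w (p 1) → w (p 1) ≤ w (p 0) →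
      w (p 0) + w (p 1) + w (p 2) ≤ d →
      (∀ i, (∀ j, p j ≠ i) → (w i : ℝ) ≤ γ' * ((d : ℝ) - w (p 0))) →
      Few w (univ \ univ.image p) μ (γ' * XA w (univ.image p) d) →
      (∑ i ∈ (univ \ univ.image p).filter (fun i => γ' * μ < (w i : ℝ)), (w i : ℝ) ^ 2 ≤
          (1 - ε / 2) * XA w (univ.image p) d ∨
        ε / 2 * XA w (univ.image p) d ≤
          ∑ i ∈ (univ \ univ.image p).filter (fun i => (w i : ℝ) ≤ γ' * μ), (w i : ℝ) ^ 2) →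
      GenExp d w)
    {n : ℕ} (c M : ℝ) (x : Fin n → ℝ) (p : Fin 3 → Fin n) (hp : Function.Injective p)
    (hx : ∀ i, 0 ≤ x i) (h21 : x (p 2) ≤ x (p 1)) (h10 : x (p 1) ≤ x (p 0))
    (hsum : x (p 0) + x (p 1) + x (p 2) ≤ c) (hc : 0 < c) (hM : 0 ≤ M)
    (hxγ : ∀ i, (∀ j, p j ≠ i) → x i ≤ γ * (c - x (p 0)))
    (hfew : (∀ i, (∀ j, p j ≠ i) → x i ≠ 0 → x i ≤ M →
      2 ^ 29 ≤ (univ.filter fun k => (∀ j, p j ≠ k) ∧ x k = x i).card) ∨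
      0 ≤ M ∧ ((((univ.filter fun i => (∀ j, p j ≠ i) ∧ x i ≤ M).image x).card : ℝ) + 1) * M ^ 2 ≤
      γ * (c ^ 2 - ∑ j, x (p j) ^ 2))
    (hlow : ε * (c ^ 2 - ∑ j, x (p j) ^ 2) ≤
      ∑ i ∈ univ.filter (fun i => (∀ j, p j ≠ i) ∧ x i ≤ γ * M), x i ^ 2)
    (N : ℕ) (hN : 1 ≤ N) (h1 : ∀ i, M < x i → 1 ≤ N * (x i - M))
    (h2 : 2 * ∑ i, x i + ε / 2 * (7 * c + 6) ≤ ε / 2 * (c ^ 2 - ∑ j, x (p j) ^ 2) * N)
    (k : ℕ) (hk : 1 ≤ k) :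
    GenExp (k * ⌈(N : ℝ) * c⌉₊) (fun i => k * ⌊(N : ℝ) * x i⌋₊) := by
  have hN0 : (1 : ℝ) ≤ N := by exact_mod_cast hN
  have hk0 : (1 : ℝ) ≤ k := by exact_mod_cast hk
  have hNp : (0 : ℝ) < N := by linarith
  have hkp : (0 : ℝ) < k := by linarith
  have hd : (N : ℝ) * c ≤ ⌈(N : ℝ) * c⌉₊ := Nat.le_ceil _
  have hd' : ((⌈(N : ℝ) * c⌉₊ : ℕ) : ℝ) ≤ N * c + 1 := (Nat.ceil_lt_add_one (by positivity)).le
  have hv : ∀ i, ((⌊(N : ℝ) * x i⌋₊ : ℕ) : ℝ) ≤ N * x i := fun i =>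
    Nat.floor_le (mul_nonneg hNp.le (hx i))
  have hv' : ∀ i, (N : ℝ) * x i < ((⌊(N : ℝ) * x i⌋₊ : ℕ) : ℝ) + 1 := fun i =>
    Nat.lt_floor_add_one _
  have hv0 : ∀ i, (0 : ℝ) ≤ ((⌊(N : ℝ) * x i⌋₊ : ℕ) : ℝ) := fun i => Nat.cast_nonneg _
  have hvsq : ∀ i, (N : ℝ) ^ 2 * x i ^ 2 - 2 * N * x i ≤ ((⌊(N : ℝ) * x i⌋₊ : ℕ) : ℝ) ^ 2 := by
    intro i
    have f1 := hv' i
    have f2 : 0 ≤ (N : ℝ) * x i := mul_nonneg hNp.le (hx i)
    rcases le_or_gt 1 ((N : ℝ) * x i) with f3 | f3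
    · have f4 : ((N : ℝ) * x i - 1) ^ 2 ≤ ((⌊(N : ℝ) * x i⌋₊ : ℕ) : ℝ) ^ 2 :=
        pow_le_pow_left₀ (by linarith) (by linarith) 2
      nlinarith
    · have f4 : (0 : ℝ) ≤ ((⌊(N : ℝ) * x i⌋₊ : ℕ) : ℝ) ^ 2 := by positivity
      nlinarith
  have hkd : (k : ℝ) * (N * c) ≤ ((k * ⌈(N : ℝ) * c⌉₊ : ℕ) : ℝ) := by
    push_cast
    exact mul_le_mul_of_nonneg_left hd hkp.le
  have hmono : ∀ i j, x i ≤ x j → ⌊(N : ℝ) * x i⌋₊ ≤ ⌊(N : ℝ) * x j⌋₊ := fun i j hij =>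
    Nat.floor_le_floor (mul_le_mul_of_nonneg_left hij hNp.le)
  -- the volume
  obtain ⟨D, hD⟩ : ∃ D : ℝ, D = c ^ 2 - ∑ j, x (p j) ^ 2 := ⟨_, rfl⟩
  rw [← hD] at hfew hlow h2
  have hDe : D = c ^ 2 - (x (p 0) ^ 2 + x (p 1) ^ 2 + x (p 2) ^ 2) := by
    rw [hD, Fin.sum_univ_three]
  obtain ⟨a, ha⟩ : ∃ a : ℝ, a = ((⌈(N : ℝ) * c⌉₊ : ℕ) : ℝ) := ⟨_, rfl⟩
  obtain ⟨b0, hb0⟩ : ∃ b : ℝ, b = ((⌊(N : ℝ) * x (p 0)⌋₊ : ℕ) : ℝ) := ⟨_, rfl⟩
  obtain ⟨b1, hb1⟩ : ∃ b : ℝ, b = ((⌊(N : ℝ) * x (p 1)⌋₊ : ℕ) : ℝ) := ⟨_, rfl⟩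
  obtain ⟨b2, hb2⟩ : ∃ b : ℝ, b = ((⌊(N : ℝ) * x (p 2)⌋₊ : ℕ) : ℝ) := ⟨_, rfl⟩
  obtain ⟨X, hX⟩ : ∃ X : ℝ, X = XA (fun i => k * ⌊(N : ℝ) * x i⌋₊) (univ.image p)
    (k * ⌈(N : ℝ) * c⌉₊) := ⟨_, rfl⟩
  have hXe : X = (k * a + 1) * (k * a + 2) - (k * b0 * (k * b0 + 1) + k * b1 * (k * b1 + 1) +
      k * b2 * (k * b2 + 1)) := by
    rw [hX, XA, Finset.sum_image (fun i _ j _ h => hp h), Fin.sum_univ_three, ha, hb0, hb1, hb2]
    push_cast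
    ring
  have q0 := hv (p 0)
  have q1 := hv (p 1)
  have q2 := hv (p 2)
  have r0 := hvsq (p 0)
  have r1 := hvsq (p 1)
  have r2 := hvsq (p 2)
  have z0 := hv0 (p 0)
  have z1 := hv0 (p 1)
  have z2 := hv0 (p 2)
  rw [← hb0] at q0 r0 z0
  rw [← hb1] at q1 r1 z1
  rw [← hb2] at q2 r2 z2
  rw [← ha] at hd hd'
  have ha0 : 0 ≤ a := le_trans (by positivity) hd
  have hbs : b0 + b1 + b2 ≤ a := by
    have : (N : ℝ) * (x (p 0) + x (p 1) + x (p 2)) ≤ N * c := mul_le_mul_of_nonneg_left hsum hNp.le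
    linarith
  have hsq0 : b0 ^ 2 ≤ (N * x (p 0)) ^ 2 := pow_le_pow_left₀ z0 q0 2
  have hsq1 : b1 ^ 2 ≤ (N * x (p 1)) ^ 2 := pow_le_pow_left₀ z1 q1 2
  have hsq2 : b2 ^ 2 ≤ (N * x (p 2)) ^ 2 := pow_le_pow_left₀ z2 q2 2
  have hsqa : (N * c) ^ 2 ≤ a ^ 2 := pow_le_pow_left₀ (by positivity) hd 2
  have hsqa' : a ^ 2 ≤ (N * c + 1) ^ 2 := pow_le_pow_left₀ ha0 hd' 2
  have hXge : (k : ℝ) ^ 2 * ((N : ℝ) ^ 2 * D) ≤ X := by
    have g1 : (N : ℝ) ^ 2 * D ≤ a ^ 2 - (b0 ^ 2 + b1 ^ 2 + b2 ^ 2) := by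
      rw [hDe]
      nlinarith
    have g2 := mul_le_mul_of_nonneg_left g1 (by positivity : (0 : ℝ) ≤ (k : ℝ) ^ 2)
    have g3 : (k : ℝ) * (b0 + b1 + b2) ≤ k * a := mul_le_mul_of_nonneg_left hbs hkp.le
    have g4 : 0 ≤ (k : ℝ) * a := by positivity
    refine g2.trans ?_
    rw [hXe]
    nlinarith
  have hXle : X ≤ (k : ℝ) ^ 2 * ((N : ℝ) ^ 2 * D + 7 * (N * c) + 6) := by
    have g1 : a ^ 2 - (b0 ^ 2 + b1 ^ 2 + b2 ^ 2) ≤ (N : ℝ) ^ 2 * D + 4 * (N * c) + 1 := by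
      have g0 : (N : ℝ) * (x (p 0) + x (p 1) + x (p 2)) ≤ N * c :=
        mul_le_mul_of_nonneg_left hsum hNp.le
      rw [hDe]
      nlinarith
    have g2 := mul_le_mul_of_nonneg_left g1 (by positivity : (0 : ℝ) ≤ (k : ℝ) ^ 2)
    have g5 : (k : ℝ) * a ≤ (k : ℝ) ^ 2 * (N * c + 1) := by
      have : (k : ℝ) * a ≤ k * (N * c + 1) := mul_le_mul_of_nonneg_left hd' hkp.le
      refine this.trans ?_
      have h3 : (0 : ℝ) ≤ N * c + 1 := by positivity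
      have h4 : (k : ℝ) ≤ (k : ℝ) ^ 2 := by nlinarith
      exact mul_le_mul_of_nonneg_right h4 h3
    have g6 : (1 : ℝ) ≤ (k : ℝ) ^ 2 := by nlinarith
    have g7 : 0 ≤ (k : ℝ) * b0 := by positivity
    have g8 : 0 ≤ (k : ℝ) * b1 := by positivity
    have g9 : 0 ≤ (k : ℝ) * b2 := by positivity
    have g10 : X = (k : ℝ) ^ 2 * (a ^ 2 - (b0 ^ 2 + b1 ^ 2 + b2 ^ 2)) + 3 * (k * a) + 2 -
        (k * b0 + k * b1 + k * b2) := by
      rw [hXe]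
      ring
    rw [g10]
    nlinarith
  have hlin : ∀ i, (∀ j, p j ≠ i) → ((k * ⌊(N : ℝ) * x i⌋₊ : ℕ) : ℝ) ≤ k * (N * M) → x i ≤ M := by
    intro i _ hi
    by_contra hcon
    push Not at hcon
    have e1 := h1 i hcon
    push_cast at hi
    have e3 : ((⌊(N : ℝ) * x i⌋₊ : ℕ) : ℝ) ≤ N * M := le_of_mul_le_mul_left hi hkp
    have e4 := hv' i
    nlinarith
  have hγ' : 0 < γ' := lt_of_lt_of_le hγ hγγ
  have hDnn : 0 ≤ D := by
    by_contra hcon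
    push Not at hcon
    have f1 : 0 ≤ ∑ i, x i := Finset.sum_nonneg fun i _ => hx i
    have f2 : 0 < ε / 2 * (7 * c + 6) := by positivity
    have f3 : ε / 2 * D * N ≤ 0 := by
      have : 0 ≤ ε / 2 * (-D) * N := by
        have : 0 < -D := by linarith
        positivity
      linarith
    linarith
  apply hmain (μ := k * (N * M)) _ p hp
  · exact Nat.mul_le_mul_left k (hmono _ _ h21)
  · exact Nat.mul_le_mul_left k (hmono _ _ h10)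
  · have g1 : b0 + b1 + b2 ≤ a := hbs
    rw [ha, hb0, hb1, hb2] at g1
    have g2 : ⌊(N : ℝ) * x (p 0)⌋₊ + ⌊(N : ℝ) * x (p 1)⌋₊ + ⌊(N : ℝ) * x (p 2)⌋₊ ≤
        ⌈(N : ℝ) * c⌉₊ := by exact_mod_cast g1
    calc k * ⌊(N : ℝ) * x (p 0)⌋₊ + k * ⌊(N : ℝ) * x (p 1)⌋₊ + k * ⌊(N : ℝ) * x (p 2)⌋₊
        = k * (⌊(N : ℝ) * x (p 0)⌋₊ + ⌊(N : ℝ) * x (p 1)⌋₊ + ⌊(N : ℝ) * x (p 2)⌋₊) := by ring
      _ ≤ _ := Nat.mul_le_mul_left k g2
  · intro i hi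
    push_cast
    rw [← ha, ← hb0]
    have e0 := hxγ i hi
    have e1 : (k : ℝ) * (⌊(N : ℝ) * x i⌋₊ : ℕ) ≤ k * (N * (γ * (c - x (p 0)))) := by
      apply mul_le_mul_of_nonneg_left _ hkp.le
      exact (hv i).trans (mul_le_mul_of_nonneg_left e0 hNp.le)
    have e2 : (k : ℝ) * (N * (c - x (p 0))) ≤ k * a - k * b0 := by
      have : (N : ℝ) * (c - x (p 0)) ≤ a - b0 := by linarith
      have := mul_le_mul_of_nonneg_left this hkp.le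
      linarith
    have e3 : 0 ≤ (k : ℝ) * (N * (c - x (p 0))) := by
      have : 0 ≤ c - x (p 0) := by linarith [hx (p 1), hx (p 2)]
      positivity
    calc (k : ℝ) * (⌊(N : ℝ) * x i⌋₊ : ℕ) ≤ k * (N * (γ * (c - x (p 0)))) := e1
      _ = γ * ((k : ℝ) * (N * (c - x (p 0)))) := by ring
      _ ≤ γ' * ((k : ℝ) * (N * (c - x (p 0)))) := mul_le_mul_of_nonneg_right hγγ e3
      _ ≤ γ' * (k * a - k * b0) := mul_le_mul_of_nonneg_left e2 hγ'.le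
  · rw [← hX]
    rcases hfew with hfew | ⟨-, hfew⟩
    · left
      intro i hi hi0 hiM
      rw [mem_compl_image] at hi
      have hxM := hlin i hi hiM
      have hx0 : x i ≠ 0 := by
        intro h0
        apply hi0
        change k * ⌊(N : ℝ) * x i⌋₊ = 0
        rw [h0, mul_zero, Nat.floor_zero, mul_zero]
      refine (hfew i hi hx0 hxM).trans (Finset.card_le_card ?_)
      intro j hj
      rw [Finset.mem_filter] at hj ⊢
      refine ⟨mem_compl_image.2 hj.2.1, ?_⟩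
      change k * ⌊(N : ℝ) * x j⌋₊ = k * ⌊(N : ℝ) * x i⌋₊
      rw [hj.2.2]
    · right
      refine ⟨by positivity, ?_⟩
      have hcard : (((univ \ univ.image p).filter fun i =>
          (((k * ⌊(N : ℝ) * x i⌋₊ : ℕ) : ℝ) ≤ k * (N * M))).image
            (fun i => k * ⌊(N : ℝ) * x i⌋₊)).card ≤
          ((univ.filter fun i => (∀ j, p j ≠ i) ∧ x i ≤ M).image x).card := by
        have hsub : ((univ \ univ.image p).filter fun i =>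
          (((k * ⌊(N : ℝ) * x i⌋₊ : ℕ) : ℝ) ≤ k * (N * M))).image
            (fun i => k * ⌊(N : ℝ) * x i⌋₊) ⊆
            ((univ.filter fun i => (∀ j, p j ≠ i) ∧ x i ≤ M).image x).image
              (fun t => k * ⌊(N : ℝ) * t⌋₊) := by
          intro y hy
          rw [Finset.mem_image] at hy
          obtain ⟨i, hi, rfl⟩ := hy
          rw [Finset.mem_filter, mem_compl_image] at hi
          rw [Finset.mem_image]
          refine ⟨x i, ?_, rfl⟩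
          rw [Finset.mem_image]
          refine ⟨i, ?_, rfl⟩
          rw [Finset.mem_filter]
          exact ⟨Finset.mem_univ _, hi.1, hlin i hi.1 hi.2⟩
        exact (Finset.card_le_card hsub).trans Finset.card_image_le
      have hcard' : (((((univ \ univ.image p).filter fun i =>
          (((k * ⌊(N : ℝ) * x i⌋₊ : ℕ) : ℝ) ≤ k * (N * M))).image
            (fun i => k * ⌊(N : ℝ) * x i⌋₊)).card : ℕ) : ℝ) ≤
          ((((univ.filter fun i => (∀ j, p j ≠ i) ∧ x i ≤ M).image x).card : ℕ) : ℝ) :=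
        Nat.cast_le.2 hcard
      have e1 : ∀ t : ℝ, (t + 1) * ((k : ℝ) * (N * M)) ^ 2 = (k : ℝ) ^ 2 * N ^ 2 *
          ((t + 1) * M ^ 2) := fun t => by ring
      refine le_trans (mul_le_mul_of_nonneg_right (add_le_add_left hcard' 1) (by positivity)) ?_
      rw [e1]
      refine (mul_le_mul_of_nonneg_left hfew (by positivity)).trans ?_
      calc (k : ℝ) ^ 2 * N ^ 2 * (γ * D) = γ * ((k : ℝ) ^ 2 * ((N : ℝ) ^ 2 * D)) := by ring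
        _ ≤ γ' * ((k : ℝ) ^ 2 * ((N : ℝ) ^ 2 * D)) :=
          mul_le_mul_of_nonneg_right hγγ (by positivity)
        _ ≤ γ' * X := mul_le_mul_of_nonneg_left hXge hγ'.le
  · right
    rw [← hX]
    have e1 : ∑ i ∈ univ.filter (fun i => (∀ j, p j ≠ i) ∧ x i ≤ γ * M),
        (((k * ⌊(N : ℝ) * x i⌋₊ : ℕ) : ℝ)) ^ 2 ≤
        ∑ i ∈ (univ \ univ.image p).filter
          (fun i => ((k * ⌊(N : ℝ) * x i⌋₊ : ℕ) : ℝ) ≤ γ' * (k * (N * M))),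
          (((k * ⌊(N : ℝ) * x i⌋₊ : ℕ) : ℝ)) ^ 2 := by
      apply Finset.sum_le_sum_of_subset_of_nonneg
      · intro i hi
        rw [Finset.mem_filter] at hi ⊢
        refine ⟨mem_compl_image.2 hi.2.1, ?_⟩
        push_cast
        have e2 : (k : ℝ) * (⌊(N : ℝ) * x i⌋₊ : ℕ) ≤ k * (N * (γ * M)) := by
          apply mul_le_mul_of_nonneg_left _ hkp.le
          exact (hv i).trans (mul_le_mul_of_nonneg_left hi.2.2 hNp.le)
        calc (k : ℝ) * (⌊(N : ℝ) * x i⌋₊ : ℕ) ≤ k * (N * (γ * M)) := e2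
          _ = γ * (k * (N * M)) := by ring
          _ ≤ γ' * (k * (N * M)) := mul_le_mul_of_nonneg_right hγγ (by positivity)
      · intro i _ _
        positivity
    refine le_trans ?_ e1
    have e4 : ∑ i ∈ univ.filter (fun i => (∀ j, p j ≠ i) ∧ x i ≤ γ * M),
        ((N : ℝ) ^ 2 * x i ^ 2 - 2 * N * x i) ≤
        ∑ i ∈ univ.filter (fun i => (∀ j, p j ≠ i) ∧ x i ≤ γ * M),
          ((⌊(N : ℝ) * x i⌋₊ : ℕ) : ℝ) ^ 2 :=
      Finset.sum_le_sum fun i _ => hvsq i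
    rw [Finset.sum_sub_distrib, ← Finset.mul_sum, ← Finset.mul_sum] at e4
    have e5 : ∑ i ∈ univ.filter (fun i => (∀ j, p j ≠ i) ∧ x i ≤ γ * M), x i ≤ ∑ i, x i :=
      Finset.sum_le_sum_of_subset_of_nonneg (Finset.filter_subset _ _) fun i _ _ => hx i
    have e6 : ∑ i ∈ univ.filter (fun i => (∀ j, p j ≠ i) ∧ x i ≤ γ * M),
        (((k * ⌊(N : ℝ) * x i⌋₊ : ℕ) : ℝ)) ^ 2 =
        (k : ℝ) ^ 2 * ∑ i ∈ univ.filter (fun i => (∀ j, p j ≠ i) ∧ x i ≤ γ * M),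
          ((⌊(N : ℝ) * x i⌋₊ : ℕ) : ℝ) ^ 2 := by
      rw [Finset.mul_sum]
      apply Finset.sum_congr rfl
      intro i _
      push_cast
      ring
    rw [e6]
    have e8 : ε / 2 * ((N : ℝ) ^ 2 * D + 7 * (N * c) + 6) ≤
        ∑ i ∈ univ.filter (fun i => (∀ j, p j ≠ i) ∧ x i ≤ γ * M),
          ((⌊(N : ℝ) * x i⌋₊ : ℕ) : ℝ) ^ 2 := by
      refine le_trans ?_ e4
      have f3 : (N : ℝ) ^ 2 * (ε * D) ≤
          (N : ℝ) ^ 2 * ∑ i ∈ univ.filter (fun i => (∀ j, p j ≠ i) ∧ x i ≤ γ * M), x i ^ 2 :=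
        mul_le_mul_of_nonneg_left hlow (by positivity)
      have f4 : 2 * (N : ℝ) * ∑ i ∈ univ.filter (fun i => (∀ j, p j ≠ i) ∧ x i ≤ γ * M), x i ≤
          2 * (N : ℝ) * ∑ i, x i := mul_le_mul_of_nonneg_left e5 (by positivity)
      have f5 := mul_le_mul_of_nonneg_left h2 hNp.le
      have f6 : ε / 2 * 6 * 1 ≤ ε / 2 * 6 * N := mul_le_mul_of_nonneg_left hN0 (by positivity)
      nlinarith
    have e9 := mul_le_mul_of_nonneg_left e8 (by positivity : (0 : ℝ) ≤ (k : ℝ) ^ 2)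
    refine le_trans ?_ e9
    calc ε / 2 * X ≤ ε / 2 * ((k : ℝ) ^ 2 * ((N : ℝ) ^ 2 * D + 7 * (N * c) + 6)) :=
          mul_le_mul_of_nonneg_left hXle (by positivity)
      _ = (k : ℝ) ^ 2 * (ε / 2 * ((N : ℝ) ^ 2 * D + 7 * (N * c) + 6)) := by ring

/-- **Job NEF3.** -/
theorem nef3 : S_Nef3 := by
  intro hM3 hNE ε hε
  obtain ⟨γ, hγ, hmain⟩ := hM3 (ε / 2) (by positivity)
  refine ⟨γ, hγ, ?_⟩
  intro n P hP c M x p hp hx h21 h10 hsum hc0 hxγ hfew hlow hsq G e u hG hGh hvan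
  have hc : 0 < c := lt_of_le_of_lt (hx (p 0)) hc0
  have hDpos : 0 < c ^ 2 - ∑ j, x (p j) ^ 2 := by
    rw [Fin.sum_univ_three]
    have f0 := hx (p 0)
    have f1 := hx (p 1)
    have f2 := hx (p 2)
    have g1 : x (p 1) ^ 2 ≤ x (p 0) * x (p 1) := by nlinarith
    have g2 : x (p 2) ^ 2 ≤ x (p 0) * x (p 2) := by nlinarith
    have g3 : x (p 0) * (x (p 0) + x (p 1) + x (p 2)) ≤ x (p 0) * c :=
      mul_le_mul_of_nonneg_left hsum f0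
    have g4 : x (p 0) * c < c * c := mul_lt_mul_of_pos_right hc0 hc
    nlinarith
  have hM : 0 ≤ M := by
    by_contra hcon
    push Not at hcon
    have h1 : univ.filter (fun i => (∀ j, p j ≠ i) ∧ x i ≤ γ * M) = ∅ := by
      rw [Finset.filter_eq_empty_iff]
      rintro i - ⟨-, hi⟩
      have : γ * M < 0 := mul_neg_of_pos_of_neg hγ hcon
      linarith [hx i]
    rw [h1, Finset.sum_empty] at hlow
    have : 0 < ε * (c ^ 2 - ∑ j, x (p j) ^ 2) := by positivity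
    linarith
  obtain ⟨N1, hN1⟩ : ∃ N1 : ℕ, ∀ N : ℕ, N1 ≤ N → ∀ i, M < x i → 1 ≤ (N : ℝ) * (x i - M) := by
    have h1 : ∀ i, ∃ N1 : ℕ, ∀ N : ℕ, N1 ≤ N → M < x i → 1 ≤ (N : ℝ) * (x i - M) := by
      intro i
      by_cases h : M < x i
      · obtain ⟨N1, hN1⟩ := exists_nat_ge (1 / (x i - M))
        refine ⟨N1, fun N hN _ => ?_⟩
        have h2 : (N1 : ℝ) ≤ N := by exact_mod_cast hN
        have h3 : 0 < x i - M := by linarith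
        rw [div_le_iff₀ h3] at hN1
        have := mul_le_mul_of_nonneg_right h2 h3.le
        linarith
      · exact ⟨0, fun N _ h' => absurd h' h⟩
    choose f hf using h1
    refine ⟨univ.sup f, fun N hN i => hf i N ((Finset.le_sup (Finset.mem_univ i)).trans hN)⟩
  obtain ⟨N2, hN2⟩ := exists_nat_ge ((2 * ∑ i, x i + ε / 2 * (7 * c + 6)) /
    (ε / 2 * (c ^ 2 - ∑ j, x (p j) ^ 2)))
  have hpos : 0 < ε / 2 * (c ^ 2 - ∑ j, x (p j) ^ 2) := by positivity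
  rw [div_le_iff₀ hpos] at hN2
  have key : ∀ N : ℕ, N1 ≤ N → N2 ≤ N → 1 ≤ N →
      (N : ℝ) * (∑ i, x i * (u i : ℝ) - c * e) ≤ e + ∑ i, (u i : ℝ) := by
    intro N h1 h2 h3
    have h2' : (N2 : ℝ) ≤ N := by exact_mod_cast h2
    have hNp : (0 : ℝ) < N := by exact_mod_cast h3
    have hd : (N : ℝ) * c ≤ ⌈(N : ℝ) * c⌉₊ := Nat.le_ceil _
    have hd' : ((⌈(N : ℝ) * c⌉₊ : ℕ) : ℝ) ≤ N * c + 1 := (Nat.ceil_lt_add_one (by positivity)).le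
    have hv : ∀ i, ((⌊(N : ℝ) * x i⌋₊ : ℕ) : ℝ) ≤ N * x i := fun i =>
      Nat.floor_le (mul_nonneg hNp.le (hx i))
    have hv' : ∀ i, (N : ℝ) * x i < ((⌊(N : ℝ) * x i⌋₊ : ℕ) : ℝ) + 1 := fun i =>
      Nat.lt_floor_add_one _
    have hsq' : ∑ i, ⌊(N : ℝ) * x i⌋₊ ^ 2 ≤ ⌈(N : ℝ) * c⌉₊ ^ 2 := by
      have : ((∑ i, ⌊(N : ℝ) * x i⌋₊ ^ 2 : ℕ) : ℝ) ≤ ((⌈(N : ℝ) * c⌉₊ ^ 2 : ℕ) : ℝ) := by
        push_cast
        have g1 : ∑ i, ((⌊(N : ℝ) * x i⌋₊ : ℕ) : ℝ) ^ 2 ≤ ∑ i, (N * x i) ^ 2 :=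
          Finset.sum_le_sum fun i _ => pow_le_pow_left₀ (Nat.cast_nonneg _) (hv i) 2
        have g2 : ∑ i, ((N : ℝ) * x i) ^ 2 = (N : ℝ) ^ 2 * ∑ i, x i ^ 2 := by
          rw [Finset.mul_sum]
          exact Finset.sum_congr rfl fun i _ => by ring
        have g3 : (N : ℝ) ^ 2 * ∑ i, x i ^ 2 ≤ (N : ℝ) ^ 2 * c ^ 2 :=
          mul_le_mul_of_nonneg_left hsq (by positivity)
        have g4 : ((N : ℝ) * c) ^ 2 ≤ ((⌈(N : ℝ) * c⌉₊ : ℕ) : ℝ) ^ 2 :=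
          pow_le_pow_left₀ (by positivity) hd 2
        nlinarith
      exact_mod_cast this
    have hres := hNE (P := P) (k0 := 1) hsq' (fun k hk =>
      round3 hε hγ le_rfl hmain c M x p hp hx h21 h10 hsum hc hM hxγ hfew hlow N h3 (hN1 N h1) (by
        have := mul_le_mul_of_nonneg_left h2' hpos.le
        linarith) k hk hP) G e u hG hGh hvan
    have hres' : ∑ i, ((⌊(N : ℝ) * x i⌋₊ : ℕ) : ℝ) * (u i : ℝ) ≤
        ((⌈(N : ℝ) * c⌉₊ : ℕ) : ℝ) * e := by exact_mod_cast hres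
    have g1 : ∑ i, ((N : ℝ) * x i - 1) * (u i : ℝ) ≤
        ∑ i, ((⌊(N : ℝ) * x i⌋₊ : ℕ) : ℝ) * (u i : ℝ) :=
      Finset.sum_le_sum fun i _ => mul_le_mul_of_nonneg_right (by linarith [hv' i])
        (Nat.cast_nonneg _)
    have g2 : ∑ i, ((N : ℝ) * x i - 1) * (u i : ℝ) =
        N * ∑ i, x i * (u i : ℝ) - ∑ i, (u i : ℝ) := by
      rw [Finset.mul_sum, ← Finset.sum_sub_distrib]
      exact Finset.sum_congr rfl fun i _ => by ring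
    have g3 : ((⌈(N : ℝ) * c⌉₊ : ℕ) : ℝ) * e ≤ (N * c + 1) * e :=
      mul_le_mul_of_nonneg_right hd' (Nat.cast_nonneg _)
    nlinarith
  by_contra hcon
  push Not at hcon
  have hδ : 0 < ∑ i, x i * (u i : ℝ) - c * e := by linarith
  obtain ⟨N3, hN3⟩ := exists_nat_gt ((e + ∑ i, (u i : ℝ)) / (∑ i, x i * (u i : ℝ) - c * e))
  rw [div_lt_iff₀ hδ] at hN3
  obtain ⟨N, hN⟩ : ∃ N : ℕ, N = max (max N1 N2) (max N3 1) := ⟨_, rfl⟩
  have h1 := key N (by rw [hN]; exact (le_max_left _ _).trans (le_max_left _ _))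
    (by rw [hN]; exact (le_max_right _ _).trans (le_max_left _ _))
    (by rw [hN]; exact (le_max_right _ _).trans (le_max_right _ _))
  have h2 : (N3 : ℝ) ≤ N := by
    have : N3 ≤ N := by rw [hN]; exact (le_max_left _ _).trans (le_max_right _ _)
    exact_mod_cast this
  have h3 := mul_le_mul_of_nonneg_right h2 hδ.le
  linarith

end Pool.Agent.Q14.MC
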