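import Mathlib

/-! # Project MC: job SCALE, the numbers -/

set_option autoImplicit false

namespace Pool.Agent.Q14.MC

open Finset

theorem num_one {ε C V g x K : ℝ} (hε : 0 < ε) (hε1 : ε ≤ 1) (hC1 : 1 ≤ C) (hV1 : 1 ≤ V)
    (hg : 0 ≤ g) (hGV : g ≤ C * V) (hx : V < x) (hK : 96 * C ≤ K * ε) :
    (x + g) ^ 2 - x ^ 2 ≤ (1 + C) ^ 2 * x ^ 2 ∧
      (K * V < x → (x + g) ^ 2 - x ^ 2 ≤ ε / 32 * x ^ 2) := by
  have hx0 : 0 ≤ x := by linarith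
  have hCV0 : 0 ≤ C * V := by positivity
  have e0 : (x + g) ^ 2 - x ^ 2 ≤ 2 * (C * V) * x + (C * V) ^ 2 := by
    have h1 : (x + g) ^ 2 ≤ (x + C * V) ^ 2 := pow_le_pow_left₀ (by linarith) (by linarith) 2
    have h2 : (x + C * V) ^ 2 = x ^ 2 + 2 * (C * V) * x + (C * V) ^ 2 := by ring
    linarith
  constructor
  · have h1 : C * V ≤ C * x := mul_le_mul_of_nonneg_left hx.le (by linarith)
    have h2 : (C * V) ^ 2 ≤ (C * x) ^ 2 := pow_le_pow_left₀ hCV0 h1 2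
    have h3 : C * V * x ≤ C * x * x := mul_le_mul_of_nonneg_right h1 hx0
    have h4 : (1 + C) ^ 2 * x ^ 2 = x ^ 2 + 2 * (C * x * x) + (C * x) ^ 2 := by ring
    have h5 : 0 ≤ x ^ 2 := by positivity
    rw [h4]
    linarith
  · intro h1
    have h2 : C * V ≤ ε / 96 * x := by
      have h3 : 96 * C * V ≤ K * ε * V := mul_le_mul_of_nonneg_right hK (by positivity)
      have h4 : (K * V) * ε ≤ x * ε := mul_le_mul_of_nonneg_right h1.le hε.le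
      linarith
    have h3 : C * V * x ≤ ε / 96 * x * x := mul_le_mul_of_nonneg_right h2 hx0
    have h4 : (C * V) ^ 2 ≤ (ε / 96 * x) ^ 2 := pow_le_pow_left₀ hCV0 h2 2
    have h5 : (ε / 96 * x) ^ 2 ≤ ε / 96 * x ^ 2 := by
      have h6 : (ε / 96) ^ 2 ≤ ε / 96 := by nlinarith
      have h7 := mul_le_mul_of_nonneg_right h6 (sq_nonneg x)
      rw [mul_pow]
      exact h7
    have h8 : ε / 32 * x ^ 2 = 2 * (ε / 96 * x * x) + ε / 96 * x ^ 2 := by ring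
    rw [h8]
    linarith

theorem num_room {η r c C P T V g m1 h : ℝ} (hη0 : 0 < η) (hT0 : 0 ≤ T) (hC1 : 1 ≤ C)
    (hP1 : 1 ≤ P) (hcT : 1 ≤ c * T) (hηr : η ≤ r) (b3 : c * (2 ^ 33 * (C * P)) ≤ η ^ 2)
    (hGV : g ≤ C * V) (hVT : V ≤ P * (c * T)) (hm1T : m1 ≤ c * T) (hh2 : r * T / 2 ≤ h) :
    1000 * (m1 + g) ≤ η * h := by
  have h1 : g ≤ C * (P * (c * T)) := hGV.trans (mul_le_mul_of_nonneg_left hVT (by linarith))
  have hCP : 1 ≤ C * P := by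
    have : 1 * 1 ≤ C * P := mul_le_mul hC1 hP1 zero_le_one (by linarith)
    linarith
  have h2 : c * T ≤ C * (P * (c * T)) := by
    have : 1 * (c * T) ≤ C * P * (c * T) := mul_le_mul_of_nonneg_right hCP (by linarith)
    linarith
  have h3 : c * (2 ^ 33 * (C * P)) * T ≤ η ^ 2 * T := mul_le_mul_of_nonneg_right b3 hT0
  have h4 : C * (P * (c * T)) * 2 ^ 33 ≤ η * (η * T) := by
    have h41 : c * (2 ^ 33 * (C * P)) * T = C * (P * (c * T)) * 2 ^ 33 := by ring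
    have h42 : η ^ 2 * T = η * (η * T) := by ring
    rw [h41, h42] at h3
    exact h3
  have h5 : η * (η * T) ≤ η * (r * T) :=
    mul_le_mul_of_nonneg_left (mul_le_mul_of_nonneg_right hηr hT0) hη0.le
  have h6 : η * (r * T / 2) ≤ η * h := mul_le_mul_of_nonneg_left hh2 hη0.le
  have h7 : 0 ≤ C * (P * (c * T)) := by linarith
  linarith

theorem num_last1 {ε η c X V μ s : ℝ} (hη : ε = 64 * η) (hη0 : 0 < η) (hηη : η ^ 2 ≤ η)
    (hc : 0 < c) (hX0 : 0 ≤ X) (b1 : c * 2 ^ 33 ≤ η ^ 2) (hV0 : 0 ≤ V) (hVμ : V ≤ μ)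
    (hs : 0 ≤ s) (hF : (s + 1) * μ ^ 2 ≤ c * X) :
    2 ^ 31 * ((s + 1) * V ^ 2) ≤ ε / 2 * X := by
  have h2 : V ^ 2 ≤ μ ^ 2 := pow_le_pow_left₀ hV0 hVμ 2
  have h4 := mul_le_mul_of_nonneg_left h2 (by linarith : (0 : ℝ) ≤ s + 1)
  have h5 : c * X * 2 ^ 33 ≤ η ^ 2 * X := by
    have := mul_le_mul_of_nonneg_right b1 hX0
    linarith
  have h6 : η ^ 2 * X ≤ η * X := mul_le_mul_of_nonneg_right hηη hX0
  have h7 : ε / 2 * X = 32 * (η * X) := by rw [hη]; ring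
  have h8 : 0 ≤ η * X := by positivity
  have h9 : 0 ≤ c * X := by positivity
  rw [h7]
  linarith

theorem num_last2 {ε η c X V P T : ℝ} (hη : ε = 64 * η) (hη0 : 0 < η) (hηη : η ^ 2 ≤ η)
    (hη1 : η ≤ 1) (hc : 0 < c) (hX0 : 0 ≤ X) (hX : T ^ 2 ≤ X) (b1 : c * 2 ^ 33 ≤ η ^ 2)
    (b2 : c * (2 ^ 33 * P ^ 3) ≤ η ^ 2) (hV1 : 1 ≤ V) (hVP : V ≤ P) (hcT : 1 ≤ c * T) :
    2 ^ 31 * ((V + 1 + 1) * V ^ 2) ≤ ε / 2 * X := by
  have hP0 : 0 ≤ P := by linarith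
  have h1 : (V + 1 + 1) * V ^ 2 ≤ 3 * P ^ 3 := by
    have h4 : V + 1 + 1 ≤ 3 * V := by linarith
    have h5 := mul_le_mul_of_nonneg_right h4 (by positivity : 0 ≤ V ^ 2)
    have h6 : V ^ 3 ≤ P ^ 3 := pow_le_pow_left₀ (by linarith) hVP 3
    have h7 : 3 * V * V ^ 2 = 3 * V ^ 3 := by ring
    linarith
  have h7 : (1 : ℝ) ≤ (c * T) ^ 2 := one_le_pow₀ hcT
  have h8 : (c * T) ^ 2 ≤ c * X := by
    have h9 : c ^ 2 * T ^ 2 ≤ c ^ 2 * X := mul_le_mul_of_nonneg_left hX (by positivity)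
    have h10 : c ≤ 1 := by linarith
    have h11 : c ^ 2 * X ≤ c * X := by
      refine mul_le_mul_of_nonneg_right ?_ hX0
      nlinarith
    rw [mul_pow]
    exact h9.trans h11
  have h12 : P ^ 3 * 1 ≤ P ^ 3 * (c * X) :=
    mul_le_mul_of_nonneg_left (h7.trans h8) (by positivity)
  have h13 : c * (2 ^ 33 * P ^ 3) * X ≤ η ^ 2 * X := mul_le_mul_of_nonneg_right b2 hX0
  have h14 : η ^ 2 * X ≤ η * X := mul_le_mul_of_nonneg_right hηη hX0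
  have h15 : ε / 2 * X = 32 * (η * X) := by rw [hη]; ring
  have h16 : 0 ≤ η * X := by positivity
  rw [h15]
  have h17 : c * (2 ^ 33 * P ^ 3) * X = 2 ^ 33 * (P ^ 3 * (c * X)) := by ring
  rw [h17] at h13
  linarith

/-- the sum over the middle part -/
theorem sum_mid {n m K0 J : ℕ} {ε C V g X : ℝ} {w : Fin n → ℕ} {S : Finset (Fin n)} (hε : 0 < ε)
    (hε1 : ε ≤ 1) (hC1 : 1 ≤ C) (hV : V = (m : ℝ)) (hV1 : 1 ≤ V) (hg : 1 ≤ g) (hGV : g ≤ C * V)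
    (hK : 96 * C ≤ K0 * ε) (hJ : 32 * (1 + C) ^ 2 ≤ J * ε) (hJ1 : 1 ≤ J) (hX0 : 0 ≤ X)
    (hband : ∑ i ∈ S.filter (fun i => m < w i ∧ w i ≤ K0 * m), (w i : ℝ) ^ 2 ≤ X / J)
    (hB : ∑ i ∈ S.filter (fun i => m < w i), (w i : ℝ) ^ 2 ≤ (1 - ε) * X) :
    ∑ i ∈ S.filter (fun i => m < w i), (((w i : ℝ) + g) ^ 2 - (w i : ℝ) ^ 2) ≤ ε / 16 * X ∧
      ∑ i ∈ S.filter (fun i => m < w i), (w i : ℝ) * (w i + 1) ≤ (1 - ε) * X + ε / 16 * X := by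
  obtain ⟨B, hBe⟩ : ∃ B : Finset (Fin n), B = S.filter fun i => m < w i := ⟨_, rfl⟩
  obtain ⟨Bd, hBd⟩ : ∃ Bd : Finset (Fin n), Bd = S.filter
    fun i => m < w i ∧ w i ≤ K0 * m := ⟨_, rfl⟩
  rw [← hBd] at hband
  rw [← hBe] at hB ⊢
  have hBdB : Bd ⊆ B := by
    intro i hi
    rw [hBd, Finset.mem_filter] at hi
    rw [hBe, Finset.mem_filter]
    exact ⟨hi.1, hi.2.1⟩
  have hone : ∀ i ∈ B, ((w i : ℝ) + g) ^ 2 - (w i : ℝ) ^ 2 ≤
      ε / 32 * (w i : ℝ) ^ 2 + (if i ∈ Bd then (1 + C) ^ 2 * (w i : ℝ) ^ 2 else 0) := by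
    intro i hi
    rw [hBe, Finset.mem_filter] at hi
    have hwi : V < w i := by
      rw [hV]
      exact_mod_cast hi.2
    obtain ⟨n1, n2⟩ := num_one (x := (w i : ℝ)) hε hε1 hC1 hV1 (by linarith) hGV hwi hK
    by_cases hb : i ∈ Bd
    · rw [if_pos hb]
      have h4 : 0 ≤ ε / 32 * (w i : ℝ) ^ 2 := by positivity
      linarith
    · rw [if_neg hb, add_zero]
      refine n2 ?_
      have h0 : K0 * m < w i := by
        by_contra hcon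
        push Not at hcon
        apply hb
        rw [hBd, Finset.mem_filter]
        exact ⟨hi.1, hi.2, hcon⟩
      rw [hV]
      exact_mod_cast h0
  have hJ0 : (0 : ℝ) < J := by exact_mod_cast hJ1
  have hBG : ∑ i ∈ B, (((w i : ℝ) + g) ^ 2 - (w i : ℝ) ^ 2) ≤ ε / 16 * X := by
    have h1 := Finset.sum_le_sum hone
    rw [Finset.sum_add_distrib, ← Finset.mul_sum, Finset.sum_ite_mem,
      Finset.inter_eq_right.mpr hBdB, ← Finset.mul_sum] at h1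
    have h2 : ε / 32 * ∑ i ∈ B, (w i : ℝ) ^ 2 ≤ ε / 32 * X := by
      refine mul_le_mul_of_nonneg_left (hB.trans ?_) (by positivity)
      have : 0 ≤ ε * X := by positivity
      linarith
    have h3 : (1 + C) ^ 2 * ∑ i ∈ Bd, (w i : ℝ) ^ 2 ≤ (1 + C) ^ 2 * (X / J) :=
      mul_le_mul_of_nonneg_left hband (by positivity)
    have h4 : (1 + C) ^ 2 * (X / J) ≤ ε / 32 * X := by
      have h5 : (1 + C) ^ 2 / J ≤ ε / 32 := by
        rw [div_le_iff₀ hJ0]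
        linarith
      have h6 := mul_le_mul_of_nonneg_right h5 hX0
      have h7 : (1 + C) ^ 2 * (X / J) = (1 + C) ^ 2 / J * X := by ring
      rw [h7]
      exact h6
    linarith
  refine ⟨hBG, ?_⟩
  have h1 : ∑ i ∈ B, (w i : ℝ) * (w i + 1) ≤
      ∑ i ∈ B, (w i : ℝ) ^ 2 + ∑ i ∈ B, (((w i : ℝ) + g) ^ 2 - (w i : ℝ) ^ 2) := by
    rw [← Finset.sum_add_distrib]
    refine Finset.sum_le_sum fun i _ => ?_
    have h2 : (0 : ℝ) ≤ w i := Nat.cast_nonneg _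
    nlinarith
  linarith

end Pool.Agent.Q14.MC
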