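import Pool.Agent.Q14.MC.ScaleA
import Pool.Agent.Q14.MC.ScaleN

/-! # Project MC: job SCALE -/

set_option autoImplicit false

namespace Pool.Agent.Q14.MC

open Finset Pool.Agent Pool.Agent.TH176.Nag Pool.Agent.TH603.Sur Pool.Agent.TH2.NU
open Pool.Agent.TH641.UM Pool.Agent.Y205.FW Pool.Agent.Y205.MD Pool.Agent.H200W Pool.Agent.H200P
open Pool.Agent.H200C Pool.Agent.H200G Pool.Agent.H932R3 Pool.Agent.W609.CR Pool.Agent.H200M

theorem exists_band {n : ℕ} (w : Fin n → ℕ) (ν : ℕ → ℕ) (hν : Monotone ν) (J : ℕ) (hJ : 1 ≤ J)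
    (S : Finset (Fin n)) (X : ℝ)
    (hX : ∑ i ∈ S.filter (fun i => ν 0 < w i), (w i : ℝ) ^ 2 ≤ X) :
    ∃ j < J, ∑ i ∈ S.filter (fun i => ν j < w i ∧ w i ≤ ν (j + 1)), (w i : ℝ) ^ 2 ≤ X / J := by
  by_contra hcon
  push Not at hcon
  have hJ0 : (0 : ℝ) < J := by exact_mod_cast hJ
  have h1 : ∑ j ∈ range J, X / J <
      ∑ j ∈ range J, ∑ i ∈ S.filter (fun i => ν j < w i ∧ w i ≤ ν (j + 1)), (w i : ℝ) ^ 2 := by
    apply Finset.sum_lt_sum_of_nonempty
    · exact ⟨0, Finset.mem_range.mpr (by omega)⟩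
    · intro j hj
      exact hcon j (Finset.mem_range.mp hj)
  rw [Finset.sum_const, Finset.card_range, nsmul_eq_mul, mul_div_cancel₀ _ hJ0.ne'] at h1
  have hdis : ∀ a ∈ range J, ∀ b ∈ range J, a ≠ b →
      Disjoint (S.filter (fun i => ν a < w i ∧ w i ≤ ν (a + 1)))
        (S.filter (fun i => ν b < w i ∧ w i ≤ ν (b + 1))) := by
    intro a _ b _ hab
    rw [Finset.disjoint_left]
    intro i hi hi'
    rw [Finset.mem_filter] at hi hi'
    rcases Nat.lt_or_gt_of_ne hab with h | h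
    · have := hν (by omega : a + 1 ≤ b)
      omega
    · have := hν (by omega : b + 1 ≤ a)
      omega
  rw [← Finset.sum_biUnion hdis] at h1
  have h2 : ∑ i ∈ (range J).biUnion (fun j => S.filter (fun i => ν j < w i ∧ w i ≤ ν (j + 1))),
      (w i : ℝ) ^ 2 ≤ ∑ i ∈ S.filter (fun i => ν 0 < w i), (w i : ℝ) ^ 2 := by
    apply Finset.sum_le_sum_of_subset_of_nonneg
    · intro i hi
      rw [Finset.mem_biUnion] at hi
      obtain ⟨j, _, hj⟩ := hi
      rw [Finset.mem_filter] at hj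
      rw [Finset.mem_filter]
      exact ⟨hj.1, lt_of_le_of_lt (hν (Nat.zero_le j)) hj.2.1⟩
    · intro i _ _
      positivity
  linarith

/-- the case `μ < c T` -/
theorem scale2 (hM : ExpM) (hU : UnGr) (hRep : RepUn) (hH : Hered) {ε η c C : ℝ} {K0 J : ℕ}
    (hε : 0 < ε) (hε1 : ε ≤ 1) (hη : ε = 64 * η) (hC : C * η = 2 ^ 55) (hC1 : 1 ≤ C)
    (hK0 : 96 * C ≤ K0 * ε) (hJ : 32 * (1 + C) ^ 2 ≤ J * ε) (hK1 : 1 ≤ K0) (hJ1 : 1 ≤ J)
    (hc : 0 < c) (b1 : c * 2 ^ 33 ≤ η ^ 2) (b2 : c * (2 ^ 33 * ((K0 : ℝ) ^ J) ^ 3) ≤ η ^ 2)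
    (b3 : c * (2 ^ 33 * (C * (K0 : ℝ) ^ J)) ≤ η ^ 2)
    {n d T : ℕ} {μ : ℝ} {w : Fin n → ℕ} {A : Finset (Fin n)}
    (hW : ∀ t : ℕ, 1 ≤ t → t ≤ T → WinAb (256 * t) (A.val.map w) d)
    (hX : (T : ℝ) ^ 2 ≤ XA w A d) (hw : ∀ i ∉ A, (w i : ℝ) ≤ c * T) (hcT : 1 ≤ c * T)
    (hμ : μ < c * T) (hF : Few w (univ \ A) μ (c * XA w A d))
    (hsum : ∑ i ∈ (univ \ A).filter (fun i => c * μ < (w i : ℝ)), (w i : ℝ) ^ 2 ≤
      (1 - ε) * XA w A d) : GenExp d w := by
  have hη0 : 0 < η := by linarith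
  have hη1 : η ≤ 1 / 64 := by linarith
  have hT0 : (0 : ℝ) ≤ T := Nat.cast_nonneg T
  obtain ⟨X, hXd⟩ : ∃ X : ℝ, X = XA w A d := ⟨_, rfl⟩
  rw [← hXd] at hX hF hsum
  have hXe : X = ((d : ℝ) + 1) * (d + 2) - ∑ i ∈ A, (w i : ℝ) * (w i + 1) := hXd
  have hX0 : 0 ≤ X := le_trans (by positivity) hX
  obtain ⟨P, hP⟩ : ∃ P : ℝ, P = (K0 : ℝ) ^ J := ⟨_, rfl⟩
  rw [← hP] at b2 b3
  have hK1r : (1 : ℝ) ≤ K0 := by exact_mod_cast hK1
  have hP1 : 1 ≤ P := by
    rw [hP]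
    exact one_le_pow₀ hK1r
  have hP3 : P ≤ P ^ 3 := le_self_pow₀ hP1 (by norm_num)
  have hηη : η ^ 2 ≤ η := by nlinarith
  have b4 : c * (2 ^ 33 * P) ≤ η ^ 2 := by
    refine le_trans (mul_le_mul_of_nonneg_left ?_ hc.le) b2
    linarith
  -- the scales
  obtain ⟨ν0, hν0⟩ : ∃ ν0 : ℕ, ν0 = max 1 ⌈c * μ⌉₊ := ⟨_, rfl⟩
  obtain ⟨ν, hν⟩ : ∃ ν : ℕ → ℕ, ν = fun j => K0 ^ j * ν0 := ⟨_, rfl⟩
  have hν01 : 1 ≤ ν0 := by
    rw [hν0]
    exact le_max_left _ _
  have hνz : ν 0 = ν0 := by rw [hν]; simp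
  have hνc : c * μ ≤ ν0 := by
    have h1 : c * μ ≤ (⌈c * μ⌉₊ : ℝ) := Nat.le_ceil _
    have h2 : ((⌈c * μ⌉₊ : ℕ) : ℝ) ≤ (ν0 : ℝ) := by
      rw [hν0]
      exact_mod_cast le_max_right _ _
    linarith
  have hνm : Monotone ν := by
    intro i j hij
    rw [hν]
    exact Nat.mul_le_mul_right _ (Nat.pow_le_pow_right (by omega) hij)
  have hsum1 : ∑ i ∈ (univ \ A).filter (fun i => c * μ < (w i : ℝ)), (w i : ℝ) ^ 2 ≤ X := by
    refine hsum.trans ?_
    have : 0 ≤ ε * X := by positivity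
    linarith
  have hsub0 : ∀ k, ν0 ≤ k → (univ \ A).filter (fun i => k < w i) ⊆
      (univ \ A).filter (fun i => c * μ < (w i : ℝ)) := by
    intro k hk i hi
    rw [Finset.mem_filter] at hi ⊢
    refine ⟨hi.1, ?_⟩
    have h1 : (ν0 : ℝ) < w i := by exact_mod_cast lt_of_le_of_lt hk hi.2
    linarith
  obtain ⟨j, hjJ, hband⟩ := exists_band w ν hνm J hJ1 (univ \ A) X (by
    refine le_trans ?_ hsum1
    exact Finset.sum_le_sum_of_subset_of_nonneg (hsub0 (ν 0) hνz.ge) fun i _ _ => by positivity)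
  have hν1 : 1 ≤ ν j := by
    have : ν 0 ≤ ν j := hνm (Nat.zero_le _)
    omega
  have hν0j : ν0 ≤ ν j := by
    have : ν 0 ≤ ν j := hνm (Nat.zero_le _)
    omega
  have hνs : ν (j + 1) = K0 * ν j := by
    rw [hν]
    simp only
    ring
  have hνP : ((ν j : ℕ) : ℝ) ≤ P * ν0 := by
    have h1 : (K0 : ℝ) ^ j ≤ P := by
      rw [hP]
      exact pow_le_pow_right₀ hK1r hjJ.le
    rw [hν]
    push_cast
    exact mul_le_mul_of_nonneg_right h1 (by positivity)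
  obtain ⟨m, hm⟩ : ∃ m, m = ν j := ⟨_, rfl⟩
  rw [← hm] at hband hν1 hν0j hνs hνP
  rw [hνs] at hband
  obtain ⟨V, hV⟩ : ∃ V : ℝ, V = (m : ℝ) := ⟨_, rfl⟩
  rw [← hV] at hνP
  have hV1 : 1 ≤ V := by
    rw [hV]
    exact_mod_cast hν1
  have hdich : V ≤ P ∨ V ≤ μ := by
    by_cases h : c * μ ≤ 1
    · left
      have h1 : ν0 = 1 := by
        rw [hν0]
        apply max_eq_left
        rw [Nat.ceil_le]
        exact_mod_cast h
      rw [h1] at hνP
      simpa using hνP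
    · right
      push Not at h
      have hμ0 : 0 ≤ μ := by
        by_contra hcon
        push Not at hcon
        have : c * μ < 0 := mul_neg_of_pos_of_neg hc hcon
        linarith
      have h1 : (ν0 : ℝ) ≤ 2 * (c * μ) := by
        have h2 : ((⌈c * μ⌉₊ : ℕ) : ℝ) < c * μ + 1 := Nat.ceil_lt_add_one (by positivity)
        rw [hν0, Nat.cast_max]
        apply max_le
        · push_cast; linarith
        · linarith
      have h3 : P * (ν0 : ℝ) ≤ P * (2 * (c * μ)) := mul_le_mul_of_nonneg_left h1 (by linarith)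
      have h4 : 2 * (c * P) ≤ 1 := by
        have h5 : c * (2 ^ 33 * P) = 2 ^ 33 * (c * P) := by ring
        rw [h5] at b4
        linarith
      have h5 : 2 * (c * P) * μ ≤ 1 * μ := mul_le_mul_of_nonneg_right h4 hμ0
      have h6 : P * (2 * (c * μ)) = 2 * (c * P) * μ := by ring
      linarith
  have hVT : V ≤ P * (c * T) := by
    have h1 : c * T ≤ P * (c * T) := by nlinarith
    rcases hdich with h | h
    · have h2 : P * 1 ≤ P * (c * T) := mul_le_mul_of_nonneg_left hcT (by linarith)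
      linarith
    · linarith
  -- the parameters
  obtain ⟨κ, hκ⟩ : ∃ κ, κ = Nat.size m := ⟨_, rfl⟩
  obtain ⟨hκ1, hκ2⟩ := size_bds hν1
  rw [← hκ] at hκ1 hκ2
  obtain ⟨G, hG⟩ : ∃ G : ℝ, G = 2 ^ 50 * 2 ^ κ / η := ⟨_, rfl⟩
  have hGη : η * G = 2 ^ 50 * 2 ^ κ := by
    rw [hG]
    field_simp
  have h2κ : (1 : ℝ) ≤ 2 ^ κ := one_le_pow₀ (by norm_num)
  have h2κV : (2 : ℝ) ^ κ ≤ 2 * V := by
    rw [hV]
    exact_mod_cast hκ2
  have hG1 : 1 ≤ G := by
    have h1 : η * 1 ≤ η * G := by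
      rw [hGη]
      linarith
    exact le_of_mul_le_mul_left h1 hη0
  have hGV : 16 * G ≤ C * V := by
    have h1 : η * (16 * G) ≤ η * (C * V) := by
      have e1 : η * (16 * G) = 16 * (η * G) := by ring
      have e2 : η * (C * V) = (C * η) * V := by ring
      rw [e1, e2, hGη, hC]
      linarith
    exact le_of_mul_le_mul_left h1 hη0
  obtain ⟨g, hg⟩ : ∃ g : ℝ, g = 16 * G := ⟨_, rfl⟩
  have hg16 : 16 ≤ g := by linarith
  rw [← hg] at hGV
  obtain ⟨r, hr⟩ : ∃ r : ℝ, r = Real.sqrt η := ⟨_, rfl⟩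
  have hr0 : 0 < r := by
    rw [hr]
    exact Real.sqrt_pos.2 hη0
  have hrr : r ^ 2 = η := by
    rw [hr]
    exact Real.sq_sqrt hη0.le
  have hr1 : r ≤ 1 := by nlinarith
  have hηr : η ≤ r := by nlinarith
  have hηT : 2 ^ 33 ≤ η * T := by
    have h1 : c * 2 ^ 33 * T ≤ η * T := mul_le_mul_of_nonneg_right (b1.trans hηη) hT0
    nlinarith
  have hrT : 2 ^ 33 ≤ r * T := hηT.trans (mul_le_mul_of_nonneg_right hηr hT0)
  obtain ⟨t, ht⟩ : ∃ t : ℕ, t = ⌊r * T / 256⌋₊ := ⟨_, rfl⟩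
  have ht1 : (t : ℝ) ≤ r * T / 256 := by
    rw [ht]
    exact Nat.floor_le (by positivity)
  have ht2 : r * T / 256 < t + 1 := by
    rw [ht]
    exact Nat.lt_floor_add_one _
  have htone : 1 ≤ t := by
    rw [ht]
    refine Nat.le_floor ?_
    push_cast
    linarith
  have htT : t ≤ T := by
    have h1 : (t : ℝ) ≤ T := by
      refine ht1.trans ?_
      have : r * T ≤ 1 * T := mul_le_mul_of_nonneg_right hr1 hT0
      linarith
    exact_mod_cast h1
  obtain ⟨h, hh⟩ : ∃ h : ℝ, h = 256 * t := ⟨_, rfl⟩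
  have hh1 : h ≤ r * T := by rw [hh]; linarith
  have hh2 : r * T / 2 ≤ h := by rw [hh]; linarith
  have hhX : h ^ 2 ≤ η * X := by
    have h1 : h ^ 2 ≤ (r * T) ^ 2 := pow_le_pow_left₀ (by rw [hh]; positivity) hh1 2
    have h2 : (r * (T : ℝ)) ^ 2 = η * (T : ℝ) ^ 2 := by rw [mul_pow, hrr]
    rw [h2] at h1
    exact h1.trans (mul_le_mul_of_nonneg_left hX hη0.le)
  obtain ⟨m1, hm1⟩ : ∃ m1 : ℕ, m1 = ⌊c * T⌋₊ := ⟨_, rfl⟩
  have hm1T : (m1 : ℝ) ≤ c * T := by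
    rw [hm1]
    exact Nat.floor_le (by positivity)
  have hroom : 1000 * ((m1 : ℝ) + g) ≤ η * h :=
    num_room hη0 hT0 hC1 hP1 hcT hηr b3 hGV hVT hm1T hh2
  -- the middle part
  obtain ⟨B, hB⟩ : ∃ B : Finset (Fin n), B = (univ \ A).filter fun i => m < w i := ⟨_, rfl⟩
  have hB0 : ∑ i ∈ (univ \ A).filter (fun i => m < w i), (w i : ℝ) ^ 2 ≤ (1 - ε) * X := by
    refine le_trans ?_ hsum
    exact Finset.sum_le_sum_of_subset_of_nonneg (hsub0 m hν0j) fun i _ _ => by positivity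
  obtain ⟨hBG, hBw⟩ := sum_mid hε hε1 hC1 hV hV1 (by linarith : (1 : ℝ) ≤ g) hGV hK0 hJ hJ1 hX0
    hband hB0
  rw [← hB] at hBG hBw
  have hmain : ∑ i ∈ B, (w i : ℝ) * (w i + 1) +
      4 * ∑ i ∈ B, (((w i : ℝ) + g) ^ 2 - (w i : ℝ) ^ 2) + 16 * η * X ≤ X := by
    have h1 : 0 ≤ ε * X := by positivity
    have h2 : 16 * η * X = ε / 4 * X := by rw [hη]; ring
    rw [h2]
    linarith
  have hdisj : Disjoint A B := by
    rw [Finset.disjoint_left]
    intro i hi hi'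
    rw [hB, Finset.mem_filter, Finset.mem_sdiff] at hi'
    exact hi'.1.2 hi
  have hWh : WinAb h (A.val.map w) d := by
    rw [hh]
    exact hW t htone htT
  have hBm1 : ∀ i ∈ B, w i ≤ m1 := by
    intro i hi
    rw [hB, Finset.mem_filter, Finset.mem_sdiff] at hi
    rw [hm1]
    exact Nat.le_floor (hw i hi.1.2)
  -- the engine
  have hE : ∀ {r : ℕ} (v : Fin r → ℕ) (e : Fin n ↪ Fin r), (∀ i, v (e i) = w i) →
      Gr v (univ \ (A ∪ B).map e) κ → GenExp d v := by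
    intro r v e hv hGr Kf _ _ Pf hPf
    have e1 : (A.map e).val.map v = A.val.map w := by
      rw [Finset.map_val, Multiset.map_map]
      exact Multiset.map_congr rfl fun i _ => hv i
    have e2 : XA v (A.map e) d = X := by
      rw [hXd]
      unfold XA
      rw [Finset.sum_map]
      simp only [hv]
    rw [Finset.map_union] at hGr
    refine hM (h := h) (G := G) (η := η) (m1 := m1) (κ := κ) (A := A.map e) (B := B.map e)
      ((Finset.disjoint_map e).2 hdisj) (by rw [e1]; exact hWh) hGr ?_ hη0 (by linarith) hGη.ge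
      (by rw [← hg]; exact hroom) (by rw [e2]; exact hhX) ?_ hPf
    · intro i hi
      rw [Finset.mem_map] at hi
      obtain ⟨i', hi', rfl⟩ := hi
      rw [hv]
      exact hBm1 i' hi'
    · rw [e2, Finset.sum_map, Finset.sum_map, ← hg]
      simp only [hv]
      exact hmain
  have hwC : ∀ i ∉ A ∪ B, w i ≤ m := by
    intro i hi
    rw [Finset.mem_union, not_or] at hi
    by_contra hcon
    push Not at hcon
    apply hi.2
    rw [hB, Finset.mem_filter, Finset.mem_sdiff]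
    exact ⟨⟨Finset.mem_univ _, hi.1⟩, hcon⟩
  -- adding points
  have hadd : ∀ s : ℕ, ((univ \ (A ∪ B)).image w).card ≤ s →
      2 ^ 31 * (((s : ℝ) + 1) * V ^ 2) ≤ ε / 2 * X → GenExp d w := by
    intro s hs hsX Kf _ _ Pf hPf
    rw [hκ] at hE
    refine add_points hH (C := A ∪ B) (ν := m) (s := s) hE hν1 hwC hs ?_ hPf
    have h1 : (((∑ i ∈ A ∪ B, w i * (w i + 1) + 2 ^ 31 * (s + 1) * m ^ 2 : ℕ)) : ℝ) ≤
        (((d + 1) * (d + 2) : ℕ) : ℝ) := by
      rw [Finset.sum_union hdisj]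
      push_cast
      rw [← hV]
      have h2 : 0 ≤ ε * X := by positivity
      linarith
    exact_mod_cast h1
  intro Kf _ _ Pf hPf
  by_cases hVμ : V ≤ μ
  · rcases hF with hF | ⟨-, hF⟩
    · refine hE w (Function.Embedding.refl _) (fun _ => rfl) ?_ hPf
      rw [Finset.map_refl]
      refine hU (hRep fun i hi h0 => ?_) fun i hi => ?_
      · have hiC := (Finset.mem_sdiff.1 hi).2
        have hiA : i ∈ univ \ A := by
          rw [Finset.mem_sdiff]
          exact ⟨Finset.mem_univ _, fun h => hiC (Finset.mem_union_left _ h)⟩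
        have hwm := hwC i hiC
        have hwV : (w i : ℝ) ≤ V := by
          rw [hV]
          exact_mod_cast hwm
        refine (hF i hiA h0 (hwV.trans hVμ)).trans (Finset.card_le_card ?_)
        intro k hk
        rw [Finset.mem_filter, Finset.mem_sdiff] at hk ⊢
        refine ⟨⟨Finset.mem_univ _, fun hkC => ?_⟩, hk.2⟩
        rcases Finset.mem_union.1 hkC with h | h
        · exact hk.1.2 h
        · rw [hB, Finset.mem_filter] at h
          have := h.2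
          have := hk.2
          omega
      · exact lt_of_le_of_lt (hwC i (Finset.mem_sdiff.1 hi).2) hκ1
    · refine hadd (((univ \ A).filter fun i => (w i : ℝ) ≤ μ).image w).card ?_ ?_ hPf
      · refine Finset.card_le_card (Finset.image_subset_image ?_)
        intro i hi
        have hiC := (Finset.mem_sdiff.1 hi).2
        rw [Finset.mem_filter, Finset.mem_sdiff]
        refine ⟨⟨Finset.mem_univ _, fun h => hiC (Finset.mem_union_left _ h)⟩, ?_⟩
        have hwV : (w i : ℝ) ≤ V := by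
          rw [hV]
          exact_mod_cast hwC i hiC
        exact hwV.trans hVμ
      · exact num_last1 hη hη0 hηη hc hX0 b1 (by linarith) hVμ (Nat.cast_nonneg _) hF
  · have hVP : V ≤ P := by
      rcases hdich with h | h
      · exact h
      · exact absurd h hVμ
    refine hadd (m + 1) ?_ ?_ hPf
    · have h1 : (univ \ (A ∪ B)).image w ⊆ range (m + 1) := by
        intro x hx
        rw [Finset.mem_image] at hx
        obtain ⟨i, hi, rfl⟩ := hx
        rw [Finset.mem_range]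
        have := hwC i (Finset.mem_sdiff.1 hi).2
        omega
      have h2 := Finset.card_le_card h1
      rwa [Finset.card_range] at h2
    · push_cast
      rw [← hV]
      exact num_last2 hη hη0 hηη (by linarith) hc hX0 hX b1 b2 hV1 hVP hcT

/-- **Job SCALE.** -/
theorem scaleM : S_ScaleM := by
  intro hM hAb hU hRep hR hH ε0 hε0
  obtain ⟨ε, hε⟩ : ∃ ε : ℝ, ε = min ε0 1 := ⟨_, rfl⟩
  have hεp : 0 < ε := by
    rw [hε]
    exact lt_min hε0 one_pos
  have hε1 : ε ≤ 1 := by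
    rw [hε]
    exact min_le_right _ _
  have hεε : ε ≤ ε0 := by
    rw [hε]
    exact min_le_left _ _
  obtain ⟨η, hη⟩ : ∃ η : ℝ, η = ε / 64 := ⟨_, rfl⟩
  have hη0 : 0 < η := by rw [hη]; positivity
  have hηe : ε = 64 * η := by rw [hη]; ring
  obtain ⟨C, hC⟩ : ∃ C : ℝ, C = 2 ^ 55 / η := ⟨_, rfl⟩
  have hCη : C * η = 2 ^ 55 := by
    rw [hC]
    field_simp
  have hC1 : 1 ≤ C := by
    have h1 : 1 * η ≤ C * η := by
      rw [hCη]
      linarith
    exact le_of_mul_le_mul_right h1 hη0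
  obtain ⟨K0, hK0⟩ := exists_nat_ge (96 * C / ε)
  obtain ⟨J, hJ⟩ := exists_nat_ge (32 * (1 + C) ^ 2 / ε)
  rw [div_le_iff₀ hεp] at hK0 hJ
  have hK1 : 1 ≤ K0 := by
    by_contra h
    have h1 : K0 = 0 := by omega
    rw [h1, Nat.cast_zero, zero_mul] at hK0
    linarith
  have hJ1 : 1 ≤ J := by
    by_contra h
    have h1 : J = 0 := by omega
    rw [h1, Nat.cast_zero, zero_mul] at hJ
    have : 0 < 32 * (1 + C) ^ 2 := by positivity
    linarith
  obtain ⟨P, hP⟩ : ∃ P : ℝ, P = (K0 : ℝ) ^ J := ⟨_, rfl⟩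
  have hK1r : (1 : ℝ) ≤ K0 := by exact_mod_cast hK1
  have hP1 : 1 ≤ P := by
    rw [hP]
    exact one_le_pow₀ hK1r
  have hP3 : P ≤ P ^ 3 := le_self_pow₀ hP1 (by norm_num)
  have hP31 : 1 ≤ P ^ 3 := one_le_pow₀ hP1
  obtain ⟨c, hc⟩ : ∃ c : ℝ, c = η ^ 2 / (2 ^ 33 * (C * P ^ 3)) := ⟨_, rfl⟩
  have hD0 : 0 < 2 ^ 33 * (C * P ^ 3) := by positivity
  have hc0 : 0 < c := by rw [hc]; positivity
  have hcD : c * (2 ^ 33 * (C * P ^ 3)) = η ^ 2 := by
    rw [hc]
    field_simp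
  have hmul : ∀ Y : ℝ, Y ≤ 2 ^ 33 * (C * P ^ 3) → c * Y ≤ η ^ 2 := by
    intro Y hY
    rw [← hcD]
    exact mul_le_mul_of_nonneg_left hY hc0.le
  have hCP : 1 ≤ C * P ^ 3 := by nlinarith
  have hCP3 : P ^ 3 ≤ C * P ^ 3 := by nlinarith
  have hCPP : C * P ≤ C * P ^ 3 := mul_le_mul_of_nonneg_left hP3 (by linarith)
  have b1 : c * 2 ^ 33 ≤ η ^ 2 := hmul _ (by linarith)
  have b2 : c * (2 ^ 33 * P ^ 3) ≤ η ^ 2 := hmul _ (by linarith)
  have b3 : c * (2 ^ 33 * (C * P)) ≤ η ^ 2 := hmul _ (by linarith)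
  refine ⟨c, hc0, ?_⟩
  intro n d T μ w A hT hW hX hw hF hsum
  have hX0 : 0 ≤ XA w A d := le_trans (by positivity) hX
  intro Kf _ _ Pf hPf
  by_cases hall : ∀ i ∉ A, w i = 0
  · exact scale0 hR hT hW hall hPf
  push Not at hall
  obtain ⟨i0, hi0, hi1⟩ := hall
  have hcT : 1 ≤ c * T := by
    have h1 : (1 : ℝ) ≤ w i0 := by exact_mod_cast Nat.pos_of_ne_zero hi1
    exact h1.trans (hw i0 hi0)
  rcases le_or_gt (c * T) μ with hμ | hμ
  · refine scale1 hAb hU hRep hH ?_ hW hX0 hw hcT hμ hF hPf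
    have hη1 : η ≤ 1 := by linarith
    nlinarith
  · refine scale2 hM hU hRep hH hεp hε1 hηe hCη hC1 hK0 hJ hK1 hJ1 hc0 b1
      (by rw [← hP]; exact b2) (by rw [← hP]; exact b3) hW hX hw hcT hμ hF ?_ hPf
    refine hsum.trans (mul_le_mul_of_nonneg_right ?_ hX0)
    linarith

end Pool.Agent.Q14.MC
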