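import Pool.Agent.Q286.MC.Defs
import Pool.Agent.TH986.LK_B

/-! JOB BADW of the project MC (helper286, MP_f9aece_nt), by helper14: the exceptional shifts under the tilt. -/

set_option autoImplicit false
set_option linter.all false

namespace Pool.Agent.Q14.MC.BadW

open Filter Topology Set MeasureTheory ZU
open Pool.Agent.W184.NZ
open Pool.Agent.TH806
open Pool.Agent.TH806.LK (NC KK Cfg AZ VV zz)
open Pool.Agent.TH986.LK_B (NC_cont' zz_cont zz_le len_le VV_nonneg)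
open Pool.Agent.H306R2.SM (om cl Yf)
open Pool.Agent.H262R4.TM (Rng Ck)
open Pool.Agent.Q286.UZ (GG GG_cont Bad AA2 AA2_nonneg bad_area)
open Pool.Agent.Q286.SB (EM_c DN_bd zD pow_absorb pow_log_absorb)
open Pool.Agent.Q286.MC (P_DIRAZ P_BADW)

noncomputable section

/-! ### pointwise bounds -/

lemma NC_le (K : ℕ) (a z : ℂ) : ‖NC K a z‖ ≤ (1 + ‖a‖ * ‖z‖) ^ K := by
  unfold Pool.Agent.TH806.LK.NC
  rw [add_comm (1:ℝ), add_pow]
  refine (norm_sum_le _ _).trans (Finset.sum_le_sum fun k hk => ?_)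
  rw [Finset.mem_range] at hk
  rw [norm_mul, norm_div, norm_pow, norm_pow, Complex.norm_natCast, one_pow, mul_one, mul_pow]
  have h1 : (1:ℝ) ≤ (k.factorial : ℝ) := by exact_mod_cast Nat.factorial_pos k
  have h2 : (1:ℝ) ≤ ((K.choose k : ℕ) : ℝ) := by exact_mod_cast Nat.choose_pos (by omega)
  have h3 : ‖a‖ ^ k / (k.factorial : ℝ) ≤ ‖a‖ ^ k := div_le_self (by positivity) h1
  calc ‖a‖ ^ k / (k.factorial : ℝ) * ‖z‖ ^ k ≤ ‖a‖ ^ k * ‖z‖ ^ k :=
        mul_le_mul_of_nonneg_right h3 (by positivity)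
    _ = ‖a‖ ^ k * ‖z‖ ^ k * 1 := (mul_one _).symm
    _ ≤ ‖a‖ ^ k * ‖z‖ ^ k * ((K.choose k : ℕ) : ℝ) := mul_le_mul_of_nonneg_left h2 (by positivity)

lemma card_le_bb {c e y : ℝ} {P₀ J : ℕ} {I : ℕ → Finset ℕ} (hC : Cfg c e P₀ y J I) {i : ℕ} :
    ((I i).card : ℝ) ≤ bb y i := by
  have hb : 0 ≤ bb y i := (Real.exp_pos _).le
  have h1 : I i ⊆ Finset.Icc 1 ⌊bb y i⌋₊ := by
    intro p hp
    have := hC.rg.pr i p hp
    rw [Finset.mem_Icc]
    exact ⟨this.1.pos, Nat.le_floor this.2.2⟩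
  have h2 := Finset.card_le_card h1
  rw [Nat.card_Icc, Nat.add_sub_cancel] at h2
  calc ((I i).card : ℝ) ≤ (⌊bb y i⌋₊ : ℝ) := by exact_mod_cast h2
    _ ≤ bb y i := Nat.floor_le hb

lemma bern {x : ℝ} (hx : 2 ≤ x) (n : ℕ) : 1 + n * x ≤ x ^ (n + 1) := by
  have h1 := one_add_mul_le_pow (show (-2:ℝ) ≤ x - 1 by linarith) n
  have h2 : 1 + (x - 1) = x := by ring
  rw [h2] at h1
  have hn : (0:ℝ) ≤ n := Nat.cast_nonneg n
  rw [pow_succ]
  nlinarith [mul_nonneg hn (show 0 ≤ x - 2 by linarith), mul_le_mul_of_nonneg_right h1 (show 0 ≤ x by linarith)]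

/-- pointwise size of the product of the truncated exponentials -/
lemma AZ_le {c e y : ℝ} {P₀ J n Rs : ℕ} {I : ℕ → Finset ℕ} (hC : Cfg c e P₀ y J I) {k : ℝ} (hk : |k| ≤ n)
    (t : ℝ) : ‖AZ n Rs J k (zz I t)‖ ≤ Real.exp (80 * ((n:ℝ) + 1) * (n * ((Rs:ℝ) + 1) * Real.log y)) := by
  have hI : ∀ i, ∀ p ∈ I i, p.Prime := fun i p hp => (hC.rg.pr i p hp).1
  unfold Pool.Agent.TH806.LK.AZ
  rw [norm_prod]
  have h1 : ∀ i ∈ Finset.range J, ‖NC (KK n Rs i) k (zz I t i)‖ ≤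
      Real.exp (((n:ℝ) + 1) * ((KK n Rs i : ℕ) * Real.log (bb y i))) := by
    intro i hi
    rw [Finset.mem_range] at hi
    have hb10 := hC.rg.b10 i hi
    have hb0 : 0 < bb y i := by linarith
    refine (NC_le _ _ _).trans ?_
    have e1 : ‖((k : ℝ) : ℂ)‖ * ‖zz I t i‖ ≤ n * bb y i := by
      rw [Complex.norm_real, Real.norm_eq_abs]
      exact mul_le_mul hk ((zz_le hI i t).trans (card_le_bb hC)) (norm_nonneg _) (Nat.cast_nonneg n)
    have e2 : 1 + ‖((k : ℝ) : ℂ)‖ * ‖zz I t i‖ ≤ bb y i ^ (n + 1) :=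
      le_trans (by linarith) (bern (show 2 ≤ bb y i by linarith) n)
    calc (1 + ‖((k : ℝ) : ℂ)‖ * ‖zz I t i‖) ^ KK n Rs i ≤ (bb y i ^ (n + 1)) ^ KK n Rs i :=
          pow_le_pow_left₀ (by positivity) e2 _
      _ = Real.exp (((n:ℝ) + 1) * ((KK n Rs i : ℕ) * Real.log (bb y i))) := by
          rw [← pow_mul, ← Real.rpow_natCast, Real.rpow_def_of_pos hb0]
          congr 1
          push_cast
          ring
  refine (Finset.prod_le_prod (fun i _ => norm_nonneg _) h1).trans ?_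
  rw [← Real.exp_sum]
  refine Real.exp_le_exp.mpr ?_
  rw [← Finset.mul_sum]
  have h2 := len_le (show 1 ≤ y by linarith [hC.y1]) n Rs J
  have h3 : ∑ i ∈ Finset.range J, ((3 * KK n Rs i : ℕ) : ℝ) * Real.log (bb y i) =
      3 * ∑ i ∈ Finset.range J, ((KK n Rs i : ℕ) : ℝ) * Real.log (bb y i) := by
    rw [Finset.mul_sum]
    refine Finset.sum_congr rfl fun i _ => ?_
    push_cast
    ring
  rw [h3] at h2
  have hn : (0:ℝ) ≤ (n:ℝ) + 1 := by positivity
  calc ((n:ℝ) + 1) * ∑ i ∈ Finset.range J, ((KK n Rs i : ℕ) : ℝ) * Real.log (bb y i) ≤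
        ((n:ℝ) + 1) * (80 * (n * ((Rs:ℝ) + 1) * Real.log y)) :=
        mul_le_mul_of_nonneg_left (by linarith) hn
    _ = _ := by ring

lemma AZ_cont {I : ℕ → Finset ℕ} (hI : ∀ i, ∀ p ∈ I i, p.Prime) (n Rs J : ℕ) (k : ℝ) :
    Continuous fun t => AZ n Rs J k (zz I t) := by
  unfold Pool.Agent.TH806.LK.AZ
  exact continuous_finsetProd _ fun i _ => NC_cont' _ continuous_const (zz_cont hI i)

lemma om_le {κ : ℕ} {δ t : ℝ} (hδ : 0 < δ) (ht : 0 ≤ t) : om κ δ t ≤ δ := by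
  have h1 := Real.pow_div_factorial_le_exp (δ * t) (by positivity) κ
  have h2 : om κ δ t = δ * ((δ * t) ^ κ / (κ.factorial : ℝ) * Real.exp (-(δ * t))) := by
    unfold Pool.Agent.H306R2.SM.om
    rw [mul_pow]
    ring
  rw [h2]
  calc δ * ((δ * t) ^ κ / (κ.factorial : ℝ) * Real.exp (-(δ * t))) ≤
        δ * (Real.exp (δ * t) * Real.exp (-(δ * t))) := by gcongr
    _ = δ := by rw [← Real.exp_add, add_neg_cancel, Real.exp_zero, mul_one]

lemma om_tail_int : ∀ᶠ T : ℝ in atTop, ∀ κ : ℕ, Rng T κ →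
    ∫ t in Ioi (8 * T), om κ (κ / T) t ≤ 2 * T ^ (-10 : ℝ) := by
  filter_upwards [om_tail 0, eventually_gt_atTop (1:ℝ), Real.tendsto_log_atTop.eventually_ge_atTop 1]
    with T h hT hL κ hκ
  have hT0 : 0 < T := by linarith
  have hκ0 : (0:ℝ) < κ := lt_of_lt_of_le (by positivity) hκ.1
  have hδ : 0 < (κ:ℝ) / T := by positivity
  have i0 := om_int0 κ hδ
  have i1 := om_int0 κ (show 0 < (κ:ℝ) / T / 4 by positivity)
  have i2 := om_int0 κ (show 0 < 4 * ((κ:ℝ) / T) by positivity)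
  have hs : Ioi (8 * T) ⊆ Ioi (0:ℝ) := Ioi_subset_Ioi (by positivity)
  have j : IntegrableOn (fun t => T ^ (-10 : ℝ) * (om κ (κ / T / 4) t + om κ (4 * (κ / T)) t)) (Ioi 0) :=
    ((i1.add i2).const_mul (T ^ (-10 : ℝ)))
  calc ∫ t in Ioi (8 * T), om κ (κ / T) t ≤
        ∫ t in Ioi (8 * T), T ^ (-10 : ℝ) * (om κ (κ / T / 4) t + om κ (4 * (κ / T)) t) := by
        refine setIntegral_mono_on (i0.mono_set hs) (j.mono_set hs) measurableSet_Ioi fun t ht => ?_
        have ht' : 8 * T < t := ht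
        have := h κ hκ t (by linarith) (by
          rw [mem_Ioc]
          intro h9
          linarith [h9.2])
        rwa [pow_zero, mul_one] at this
    _ ≤ ∫ t in Ioi (0:ℝ), T ^ (-10 : ℝ) * (om κ (κ / T / 4) t + om κ (4 * (κ / T)) t) := by
        refine setIntegral_mono_set j ?_ hs.eventuallyLE
        refine (ae_restrict_iff' measurableSet_Ioi).mpr (Eventually.of_forall fun t ht => ?_)
        have ht0 : (0:ℝ) ≤ t := le_of_lt ht
        have a1 := om_nn κ (show 0 < (κ:ℝ) / T / 4 by positivity) ht0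
        have a2 := om_nn κ (show 0 < 4 * ((κ:ℝ) / T) by positivity) ht0
        simp only [Pi.zero_apply]
        positivity
    _ = 2 * T ^ (-10 : ℝ) := by
        rw [integral_const_mul, integral_add i1 i2, om_mass κ (by positivity), om_mass κ (by positivity)]
        ring

/-! ### the two parts of the exceptional set -/

lemma vpart {a b B : ℝ} (hab : a ≤ b) (hB : 0 < B) {G : ℂ → ℂ} (hG : Continuous G) {w : ℝ → ℝ}
    (hw : Continuous w) (hw0 : ∀ t, 0 ≤ t → 0 ≤ w t) (hwi : IntegrableOn w (Ioi 0)) {W c : ℝ} (hc : 0 < c)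
    (hW : ∀ s ∈ rect a b B, ∀ T, 0 ≤ T → ∫ t in (0:ℝ)..T, w t * ‖G (s + t * Complex.I)‖ ^ 2 ≤ W) :
    ∫ t in Ioi (0:ℝ) ∩ {t | c ≤ ∫ z in rect a b B, ‖G (z + t * Complex.I)‖ ^ 2}, w t ≤
      (b - a) * (2 * B) * W / c := by
  have vc := (ZU.J_e1b.fubini_bound a b B hab hB G hG.continuousOn w hw 0 le_rfl W
    (fun s hs => hW s hs 0 le_rfl)).1
  set V : ℝ → ℝ := fun t => ∫ z in rect a b B, ‖G (z + t * Complex.I)‖ ^ 2 with hV
  have V0 : ∀ t, 0 ≤ V t := fun t => integral_nonneg fun z => by positivity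
  have mE : MeasurableSet {t | c ≤ V t} := (isClosed_le continuous_const vc).measurableSet
  rw [← setIntegral_indicator mE]
  have hlim := intervalIntegral_tendsto_integral_Ioi 0 (hwi.indicator mE) (tendsto_id (α := ℝ) (x := atTop))
  refine le_of_tendsto hlim ((eventually_ge_atTop (0:ℝ)).mono fun T hT => ?_)
  have hT' : (0:ℝ) ≤ T := hT
  have h1 := (ZU.J_e1b.fubini_bound a b B hab hB G hG.continuousOn w hw T hT' W
    (fun s hs => hW s hs T hT')).2
  rw [le_div_iff₀ hc]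
  have hind : IntervalIntegrable (indicator {t | c ≤ V t} w) volume 0 T := by
    rw [intervalIntegrable_iff_integrableOn_Ioc_of_le hT']
    exact ((hw.continuousOn.integrableOn_compact isCompact_Icc).mono_set Ioc_subset_Icc_self).indicator mE
  calc (∫ t in (0:ℝ)..T, indicator {t | c ≤ V t} w t) * c =
        ∫ t in (0:ℝ)..T, indicator {t | c ≤ V t} w t * c := by
        rw [intervalIntegral.integral_mul_const]
    _ ≤ ∫ t in (0:ℝ)..T, w t * V t := by
        refine intervalIntegral.integral_mono_on hT' (hind.mul_const c)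
          ((hw.mul vc).intervalIntegrable _ _) fun t ht => ?_
        have hwt := hw0 t ht.1
        by_cases h : t ∈ {t | c ≤ V t}
        · rw [indicator_of_mem h]
          exact mul_le_mul_of_nonneg_left h hwt
        · rw [indicator_of_notMem h, zero_mul]
          exact mul_nonneg hwt (V0 t)
    _ ≤ _ := h1

lemma upart {w : ℝ → ℝ} (hwi : IntegrableOn w (Ioi 0)) {E : Set ℝ} (mE : MeasurableSet E) {R q v r : ℝ}
    (hR : 0 ≤ R) (hq : 0 ≤ q) (h1 : ∀ t ∈ Ioc 0 R, 0 ≤ w t ∧ w t ≤ q)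
    (h2 : volume (E ∩ Icc 0 R) ≤ ENNReal.ofReal v) (hv : 0 ≤ v) (h4 : ∀ t ∈ Ioi R, 0 ≤ w t)
    (h3 : ∫ t in Ioi R, w t ≤ r) : ∫ t in Ioi (0:ℝ) ∩ E, w t ≤ q * v + r := by
  have hs : Ioi (0:ℝ) ∩ E = (Ioc 0 R ∩ E) ∪ (Ioi R ∩ E) := by
    rw [← union_inter_distrib_right, Ioc_union_Ioi_eq_Ioi hR]
  have hd : Disjoint (Ioc 0 R ∩ E) (Ioi R ∩ E) := by
    rw [Set.disjoint_left]
    intro t h5 h6
    exact absurd h5.1.2 (not_le.mpr h6.1)
  have i1 : IntegrableOn w (Ioc 0 R ∩ E) := hwi.mono_set (fun t ht => ht.1.1)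
  have i2 : IntegrableOn w (Ioi R ∩ E) := hwi.mono_set (fun t ht => lt_of_le_of_lt hR ht.1)
  rw [hs, setIntegral_union hd (measurableSet_Ioi.inter mE) i1 i2]
  refine add_le_add ?_ ?_
  · have hsub : Ioc 0 R ∩ E ⊆ E ∩ Icc 0 R := fun t ht => ⟨ht.2, ht.1.1.le, ht.1.2⟩
    have hvol : volume (Ioc 0 R ∩ E) ≤ ENNReal.ofReal v := (measure_mono hsub).trans h2
    have hfin : volume (Ioc 0 R ∩ E) < ⊤ := hvol.trans_lt ENNReal.ofReal_lt_top
    have h5 := norm_setIntegral_le_of_norm_le_const (μ := volume) (s := Ioc 0 R ∩ E) (f := w) (C := q) hfin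
      (fun t ht => by
        rw [Real.norm_eq_abs, abs_of_nonneg (h1 t ht.1).1]
        exact (h1 t ht.1).2)
    refine (le_abs_self _).trans (h5.trans ?_)
    refine mul_le_mul_of_nonneg_left ?_ hq
    rw [Measure.real]
    exact ENNReal.toReal_le_of_le_ofReal hv hvol
  · refine le_trans ?_ h3
    refine setIntegral_mono_set (hwi.mono_set (Ioi_subset_Ioi hR)) ?_ (inter_subset_left).eventuallyLE
    exact (ae_restrict_iff' measurableSet_Ioi).mpr (Eventually.of_forall fun t ht => h4 t ht)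

/-! ### the splitting of the short product -/

lemma split (M N : ℕ) (hN1 : 1 ≤ N) (s : ℂ) (hs0 : 0 ≤ s.re) : ∃ c1 c2 : ℕ → ℂ,
    (∀ n, ‖c1 n‖ ≤ 1) ∧ (∀ n, ‖c2 n‖ ≤ 1) ∧ (∀ n ≤ M, c1 n = 0) ∧ (∀ n ≤ N, c2 n = 0) ∧
    ∀ t : ℝ, ‖DN N (s + t * Complex.I) * EM M (fun _ => 1) (s + t * Complex.I) - 1‖ ^ 2 ≤
      2 * ‖∑ n ∈ Finset.Icc 1 N, c1 n * (n : ℂ) ^ (-(s + t * Complex.I))‖ ^ 2 +
      2 * ((2:ℝ) ^ (pr M).card) ^ 2 *
        ‖∑ n ∈ Finset.Icc 1 (N * ∏ p ∈ pr M, p), c2 n * (n : ℂ) ^ (-(s + t * Complex.I))‖ ^ 2 := by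
  set P : ℕ := ∏ p ∈ pr M, p with hP
  set D : ℝ := 2 ^ (pr M).card with hD
  have hD1 : 1 ≤ D := one_le_pow₀ (by norm_num)
  have hD0 : 0 < D := by positivity
  have hDc : (D : ℂ) ≠ 0 := by
    rw [Ne, Complex.ofReal_eq_zero]
    exact hD0.ne'
  have hres : ∀ t : ℝ, (s + t * Complex.I).re = s.re := fun t => by simp
  set c1 : ℕ → ℂ := fun n => if n ∈ ZU.J_c3a.S1 M N then 1 else 0 with hc1
  set c2 : ℕ → ℂ := fun n => if N + 1 ≤ n then ZU.J_c3a.cf M N n / (D : ℂ) else 0 with hc2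
  refine ⟨c1, c2, ?_, ?_, ?_, ?_, ?_⟩
  · intro n
    simp only [hc1]
    split_ifs <;> simp
  · intro n
    simp only [hc2]
    split_ifs
    · rw [norm_div, Complex.norm_real, Real.norm_eq_abs, abs_of_pos hD0, div_le_one hD0]
      exact ZU.J_c3a.cf_norm M N n
    · simp
  · intro n hn
    simp only [hc1]
    rw [if_neg]
    intro h
    have := ZU.J_c3a.S1_gt h
    omega
  · intro n hn
    simp only [hc2]
    rw [if_neg (by omega)]
  · intro t
    have e1 : ∑ m ∈ ZU.J_c3a.S1 M N, (m : ℂ) ^ (-(s + t * Complex.I)) =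
        ∑ n ∈ Finset.Icc 1 N, c1 n * (n : ℂ) ^ (-(s + t * Complex.I)) := by
      simp only [hc1, ite_mul, one_mul, zero_mul]
      rw [← Finset.sum_filter]
      refine Finset.sum_congr ?_ fun _ _ => rfl
      ext n
      rw [Finset.mem_filter]
      constructor
      · intro hn
        refine ⟨?_, hn⟩
        unfold ZU.J_c3a.S1 at hn
        have := Finset.mem_Icc.1 (Finset.mem_filter.1 hn).1
        rw [Finset.mem_Icc]
        omega
      · exact fun hn => hn.2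
    have e2 : ∑ m ∈ Finset.Icc (N + 1) (N * P), ZU.J_c3a.cf M N m * (m : ℂ) ^ (-(s + t * Complex.I)) =
        (D : ℂ) * ∑ n ∈ Finset.Icc 1 (N * P), c2 n * (n : ℂ) ^ (-(s + t * Complex.I)) := by
      rw [Finset.mul_sum]
      have e3 : ∀ n ∈ Finset.Icc 1 (N * P), (D : ℂ) * (c2 n * (n : ℂ) ^ (-(s + t * Complex.I))) =
          if N + 1 ≤ n then ZU.J_c3a.cf M N n * (n : ℂ) ^ (-(s + t * Complex.I)) else 0 := by
        intro n _
        simp only [hc2]
        split_ifs with h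
        · field_simp
        · simp
      rw [Finset.sum_congr rfl e3, ← Finset.sum_filter]
      refine Finset.sum_congr ?_ fun _ _ => rfl
      ext n
      rw [Finset.mem_filter, Finset.mem_Icc, Finset.mem_Icc]
      constructor
      · intro h
        exact ⟨⟨by omega, h.2⟩, h.1⟩
      · intro h
        exact ⟨h.2, h.1.2⟩
    have e4 := ZU.J_c3a.split_eq M N hN1 (s + t * Complex.I)
    rw [← hP, e1, e2] at e4
    rw [e4]
    set x := ∑ n ∈ Finset.Icc 1 N, c1 n * (n : ℂ) ^ (-(s + t * Complex.I))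
    set y := ∑ n ∈ Finset.Icc 1 (N * P), c2 n * (n : ℂ) ^ (-(s + t * Complex.I))
    have e5 : ‖x + (D : ℂ) * y‖ ≤ ‖x‖ + D * ‖y‖ := by
      refine (norm_add_le _ _).trans ?_
      rw [norm_mul, Complex.norm_real, Real.norm_eq_abs, abs_of_pos hD0]
    calc ‖x + (D : ℂ) * y‖ ^ 2 ≤ (‖x‖ + D * ‖y‖) ^ 2 := pow_le_pow_left₀ (norm_nonneg _) e5 2
      _ ≤ 2 * ‖x‖ ^ 2 + 2 * D ^ 2 * ‖y‖ ^ 2 := by nlinarith [sq_nonneg (‖x‖ - D * ‖y‖)]

lemma dir_cont (K : ℕ) (c : ℕ → ℂ) (s : ℂ) : Continuous fun t : ℝ =>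
    ‖∑ n ∈ Finset.Icc 1 K, c n * (n : ℂ) ^ (-(s + t * Complex.I))‖ ^ 2 := by
  refine Continuous.pow (Continuous.norm ?_) 2
  refine continuous_finsetSum _ fun n hn => ?_
  rw [Finset.mem_Icc] at hn
  refine continuous_const.mul (Continuous.const_cpow (by fun_prop) (Or.inl ?_))
  exact_mod_cast (by omega : n ≠ 0)

lemma dir_bd (K : ℕ) (c : ℕ → ℂ) (hc : ∀ n, ‖c n‖ ≤ 1) (s : ℂ) (hs0 : 0 ≤ s.re) (t : ℝ) :
    ‖∑ n ∈ Finset.Icc 1 K, c n * (n : ℂ) ^ (-(s + t * Complex.I))‖ ^ 2 ≤ (K : ℝ) ^ 2 := by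
  have hres : (s + t * Complex.I).re = s.re := by simp
  refine pow_le_pow_left₀ (norm_nonneg _) ?_ 2
  calc ‖∑ n ∈ Finset.Icc 1 K, c n * (n : ℂ) ^ (-(s + t * Complex.I))‖ ≤ ∑ n ∈ Finset.Icc 1 K, (1 : ℝ) := by
        refine norm_sum_le_of_le _ fun n hn => ?_
        rw [Finset.mem_Icc] at hn
        rw [norm_mul, Complex.norm_natCast_cpow_of_pos hn.1]
        have e1 : (n : ℝ) ^ (-(s + t * Complex.I)).re ≤ 1 := by
          refine Real.rpow_le_one_of_one_le_of_nonpos (by exact_mod_cast hn.1) ?_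
          rw [Complex.neg_re, hres]
          linarith
        calc ‖c n‖ * (n : ℝ) ^ (-(s + t * Complex.I)).re ≤ 1 * 1 :=
              mul_le_mul (hc n) e1 (by positivity) zero_le_one
          _ = 1 := one_mul 1
    _ = K := by simp

lemma union_le {w : ℝ → ℝ} (hwi : IntegrableOn w (Ioi 0)) (hw0 : ∀ t, 0 ≤ t → 0 ≤ w t) {E F : Set ℝ}
    (mE : MeasurableSet E) (mF : MeasurableSet F) :
    ∫ t in Ioi (0:ℝ) ∩ (E ∪ F), w t ≤ (∫ t in Ioi (0:ℝ) ∩ E, w t) + ∫ t in Ioi (0:ℝ) ∩ F, w t := by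
  have hs : Ioi (0:ℝ) ∩ (E ∪ F) = (Ioi (0:ℝ) ∩ E) ∪ ((Ioi (0:ℝ) ∩ F) \ E) := by
    ext t
    simp only [mem_inter_iff, mem_union, mem_diff]
    tauto
  have hd : Disjoint (Ioi (0:ℝ) ∩ E) ((Ioi (0:ℝ) ∩ F) \ E) := by
    rw [Set.disjoint_left]
    intro t h5 h6
    exact h6.2 h5.2
  have i1 : IntegrableOn w (Ioi (0:ℝ) ∩ E) := hwi.mono_set inter_subset_left
  have i2 : IntegrableOn w (Ioi (0:ℝ) ∩ F) := hwi.mono_set inter_subset_left
  rw [hs, setIntegral_union hd ((measurableSet_Ioi.inter mF).diff mE) i1 (i2.mono_set sdiff_subset)]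
  refine add_le_add le_rfl (setIntegral_mono_set i2 ?_ (HasSubset.Subset.eventuallyLE sdiff_subset))
  refine (ae_restrict_iff' (measurableSet_Ioi.inter mF)).mpr (Eventually.of_forall fun t ht => ?_)
  exact hw0 t (le_of_lt ht.1)

theorem badw (h : P_DIRAZ) : P_BADW := by
  intro n a b B θ hn h1 h2 h3 hB hθ
  set a' : ℝ := (1 / 2 + a) / 2 with ha'
  set b' : ℝ := (b + 1) / 2 with hb'
  have h0' : 1 / 2 < a' := by rw [ha']; linarith
  have h1' : a' < a := by rw [ha']; linarith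
  have h3' : b < b' := by rw [hb']; linarith
  have h4' : b' < 1 := by rw [hb']; linarith
  have hab' : a' ≤ b' := by linarith
  have hba : 0 < b' - a' := by linarith
  obtain ⟨Ca, hCa, hCs⟩ := bad_area h1' h2 h3' h4' hB (show B < B + 1 by linarith)
  have hB' : 0 < B + 1 := by linarith
  obtain ⟨ρ₀, hρ₀, hz⟩ := zD h0' h4' hB'
  obtain ⟨P₀, C, δ, η, hC, hδ, hη, hdir⟩ := h n a' hn h0'
  set ρ : ℝ := min ρ₀ 1 with hρ
  have hρ0 : 0 < ρ := lt_min hρ₀ one_pos
  have hρ1 : ρ ≤ 1 := min_le_right _ _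
  have hρρ : ρ ≤ ρ₀ := min_le_left _ _
  set K : ℝ := (b' - a') * (2 * (B + 1)) with hK
  have hK0 : 0 < K := by positivity
  set cv : ℝ := θ ^ 2 / (4 * Ca) with hcv
  have hcv0 : 0 < cv := by positivity
  have hn0 : (0:ℝ) ≤ n := Nat.cast_nonneg n
  refine ⟨P₀, K * (2 * C + 1) / cv + 1, δ, min η (ρ / (640 * ((n:ℝ) + 1))), by positivity, hδ,
    lt_min hη (by positivity), fun M hM Rs hRs => ?_⟩
  have hM0 : (0:ℝ) < M := by exact_mod_cast hM
  set m : ℝ := (M : ℝ) ^ (-δ) with hm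
  have hm0 : 0 < m := by positivity
  set P : ℕ := ∏ p ∈ pr M, p with hP
  set D : ℝ := 2 ^ (pr M).card with hD
  have hD1 : 1 ≤ D := one_le_pow₀ (by norm_num)
  have hD0 : 0 < D := by positivity
  set cu : ℝ := θ ^ 2 / (4 * Ca * D ^ 2) with hcu
  have hcu0 : 0 < cu := by positivity
  have h8 : Tendsto (fun T : ℝ => 8 * T) atTop atTop := tendsto_id.const_mul_atTop (by norm_num)
  have hz8 := h8.eventually hz
  have hNP : ∀ᶠ T : ℝ in atTop, ((P : ℝ) * 2) * T ^ (1 / 20 : ℝ) ≤ T ^ (1 / 10 : ℝ) :=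
    pow_absorb ((P : ℝ) * 2) (by norm_num)
  have hsmall : ∀ᶠ T : ℝ in atTop,
      2 * D ^ 2 * C * ((⌊(8 * T) ^ (1 / 20 : ℝ)⌋₊ : ℝ) ^ (-δ)) ≤ m / 2 := by
    have h2 : Tendsto (fun T : ℝ => (⌊(8 * T) ^ (1 / 20 : ℝ)⌋₊ : ℝ)) atTop atTop :=
      tendsto_natCast_atTop_atTop.comp (tendsto_nat_floor_atTop.comp
        ((tendsto_rpow_atTop (by norm_num)).comp h8))
    have h3 := ((tendsto_rpow_neg_atTop hδ).comp h2).const_mul (2 * D ^ 2 * C)
    rw [mul_zero] at h3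
    exact h3.eventually_le_const (by positivity)
  have ht8 : ∀ᶠ T : ℝ in atTop, (2 * (2 + 2 * D ^ 2) / m) * T ^ (-(1 / 8) : ℝ) ≤ T ^ (0:ℝ) :=
    pow_absorb _ (by norm_num)
  have hu1 : ∀ᶠ T : ℝ in atTop,
      (2 * (32 * (K / cu)) / m) * T ^ (-(3 / 4 * ρ)) * Real.log T ^ 2 ≤ T ^ (0:ℝ) :=
    pow_log_absorb _ 2 (by linarith)
  have hu2 : ∀ᶠ T : ℝ in atTop, (2 * 2 / m) * T ^ (-9 : ℝ) ≤ T ^ (0:ℝ) := pow_absorb _ (by norm_num)
  filter_upwards [hdir Rs hRs, hz8, hNP, hsmall, ht8, hu1, hu2, om_tail_int, eventually_gt_atTop (1:ℝ),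
    Real.tendsto_log_atTop.eventually_ge_atTop 1] with T hdir hz hNP hsmall ht8 hu1 hu2 htail hT1 hL1
  rw [Real.rpow_zero] at ht8 hu1 hu2
  have hT0 : 0 < T := by linarith
  have h8T : 0 ≤ 8 * T := by linarith
  set N := ⌊(8 * T) ^ (1 / 20 : ℝ)⌋₊ with hN
  have h8T1 : 1 ≤ (8 * T) ^ (1 / 20 : ℝ) := Real.one_le_rpow (by linarith) (by norm_num)
  have hN1 : 1 ≤ N := (Nat.one_le_floor_iff _).2 h8T1
  have hNT : (N : ℝ) ≤ 2 * T ^ (1 / 20 : ℝ) := by
    refine (Nat.floor_le (by positivity)).trans ?_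
    rw [Real.mul_rpow (by norm_num) hT0.le]
    refine mul_le_mul_of_nonneg_right ?_ (by positivity)
    have e1 : (8:ℝ) = 2 ^ (3:ℝ) := by norm_num
    rw [e1, ← Real.rpow_mul (by norm_num)]
    calc (2:ℝ) ^ ((3:ℝ) * (1 / 20)) ≤ 2 ^ (1:ℝ) :=
          Real.rpow_le_rpow_of_exponent_le (by norm_num) (by norm_num)
      _ = 2 := Real.rpow_one 2
  have hP1 : 1 ≤ P := ZU.J_c3a.pr_pos (Finset.Subset.refl _)
  have hNP' : ((N * P : ℕ) : ℝ) ≤ T ^ (1 / 10 : ℝ) := by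
    refine le_trans ?_ hNP
    push_cast
    calc (N : ℝ) * P ≤ (2 * T ^ (1 / 20 : ℝ)) * P := mul_le_mul_of_nonneg_right hNT (by positivity)
      _ = _ := by ring
  have hN' : (N : ℝ) ≤ T ^ (1 / 10 : ℝ) := by
    refine le_trans ?_ hNP'
    exact_mod_cast Nat.le_mul_of_pos_right N hP1
  set GU : ℂ → ℂ := fun z => riemannZeta z - DN N z with hGU
  set GV : ℂ → ℂ := fun z => DN N z * EM M (fun _ => 1) z - 1 with hGV
  have cV : Continuous GV := ((ZU.J_c3.rough_mv_DN_cont N).mul (EM_c M)).sub continuous_const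
  have cU : ContinuousOn GU {z : ℂ | a' ≤ z.re ∧ z.re ≤ b'} := by
    intro z hz
    have hz1 : z ≠ 1 := by
      intro h
      rw [h] at hz
      have := hz.2
      rw [Complex.one_re] at this
      linarith
    exact ((differentiableAt_riemannZeta hz1).continuousAt.sub
      (ZU.J_c3.rough_mv_DN_cont N).continuousAt).continuousWithinAt
  obtain ⟨uc, ui⟩ := ZU.J_e1b.fubini_bound a' b' (B + 1) hab' hB' GU cU (fun _ => 1)
    continuous_const (8 * T) h8T ((8 * T) ^ (1 - ρ₀)) (fun s hs => by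
      have := hz s hs
      simp only [one_mul]
      exact this)
  have vc := (ZU.J_e1b.fubini_bound a' b' (B + 1) hab' hB' GV cV.continuousOn (fun _ => 0)
    continuous_const 0 le_rfl 0 (fun s hs => by simp)).1
  set U : ℝ → ℝ := fun t => ∫ w in rect a' b' (B + 1), ‖GU (w + t * Complex.I)‖ ^ 2 with hU
  set V : ℝ → ℝ := fun t => ∫ w in rect a' b' (B + 1), ‖GV (w + t * Complex.I)‖ ^ 2 with hV
  have U0 : ∀ t, 0 ≤ U t := fun t => integral_nonneg fun z => by positivity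
  have V0 : ∀ t, 0 ≤ V t := fun t => integral_nonneg fun z => by positivity
  simp only [one_mul] at ui
  -- the area mean square
  have hAA : ∀ t : ℝ, AA2 M a' b' (B + 1) t ≤ 2 * V t + 2 * D ^ 2 * U t := by
    intro t
    have hR : IsCompact (rect a' b' (B + 1)) := ZU.J_e1b.fubini_bound_compact _ _ _
    have hin : ∀ z ∈ rect a' b' (B + 1), z + t * Complex.I ∈ {z : ℂ | a' ≤ z.re ∧ z.re ≤ b'} := by
      intro z hz
      have hre : (z + t * Complex.I).re = z.re := by simp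
      exact ⟨by rw [hre]; exact hz.1, by rw [hre]; exact hz.2.1⟩
    have i1 : IntegrableOn (fun z : ℂ => ‖GG M (z + t * Complex.I)‖ ^ 2) (rect a' b' (B + 1)) := by
      refine ContinuousOn.integrableOn_compact hR (ContinuousOn.pow (ContinuousOn.norm ?_) 2)
      exact (GG_cont M (a := a') h4').comp (by fun_prop) hin
    have i2 : IntegrableOn (fun z : ℂ => ‖GU (z + t * Complex.I)‖ ^ 2) (rect a' b' (B + 1)) := by
      refine ContinuousOn.integrableOn_compact hR (ContinuousOn.pow (ContinuousOn.norm ?_) 2)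
      exact cU.comp (by fun_prop) hin
    have i3 : IntegrableOn (fun z : ℂ => ‖GV (z + t * Complex.I)‖ ^ 2) (rect a' b' (B + 1)) := by
      refine ContinuousOn.integrableOn_compact hR (ContinuousOn.pow (ContinuousOn.norm ?_) 2)
      exact (cV.comp (by fun_prop)).continuousOn
    have h5 : AA2 M a' b' (B + 1) t ≤ ∫ z in rect a' b' (B + 1),
        (2 * ‖GV (z + t * Complex.I)‖ ^ 2 + 2 * D ^ 2 * ‖GU (z + t * Complex.I)‖ ^ 2) := by
      unfold Pool.Agent.Q286.UZ.AA2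
      refine setIntegral_mono_on i1 ((i3.const_mul 2).add (i2.const_mul (2 * D ^ 2)))
        hR.measurableSet fun z hz => ?_
      have hzre : 0 < (z + t * Complex.I).re := by
        have := (hin z hz).1
        linarith
      have hE := ZU.J_c3.rough_mv_EM_le M (z + t * Complex.I) hzre
      have e1 : GG M (z + t * Complex.I) = GV (z + t * Complex.I) + EM M (fun _ => 1) (z + t * Complex.I) *
          GU (z + t * Complex.I) := by
        simp only [hGV, hGU]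
        unfold Pool.Agent.Q286.UZ.GG
        ring
      rw [e1]
      set x := GV (z + t * Complex.I)
      set y := GU (z + t * Complex.I)
      set E := EM M (fun _ => 1) (z + t * Complex.I)
      have e5 : ‖x + E * y‖ ≤ ‖x‖ + D * ‖y‖ := by
        refine (norm_add_le _ _).trans ?_
        rw [norm_mul]
        have := mul_le_mul_of_nonneg_right hE (norm_nonneg y)
        linarith
      calc ‖x + E * y‖ ^ 2 ≤ (‖x‖ + D * ‖y‖) ^ 2 := pow_le_pow_left₀ (norm_nonneg _) e5 2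
        _ ≤ 2 * ‖x‖ ^ 2 + 2 * D ^ 2 * ‖y‖ ^ 2 := by nlinarith [sq_nonneg (‖x‖ - D * ‖y‖)]
    rw [integral_add (i3.const_mul 2) (i2.const_mul (2 * D ^ 2)), integral_const_mul,
      integral_const_mul] at h5
    exact h5
  have mE1 : MeasurableSet {t | cv ≤ V t} := (isClosed_le continuous_const vc).measurableSet
  have mE2 : MeasurableSet {t | cu ≤ U t} := (isClosed_le continuous_const uc).measurableSet
  refine ⟨{t | cv ≤ V t} ∪ {t | cu ≤ U t}, mE1.union mE2, ?_, ?_⟩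
  · intro t hb
    have h5 := hCs M θ t hθ hb
    have h6 := hAA t
    by_contra hcon
    rw [mem_union, not_or] at hcon
    have h7 : V t < cv := not_le.mp hcon.1
    have h8 : U t < cu := not_le.mp hcon.2
    have h9 : 2 * V t + 2 * D ^ 2 * U t < θ ^ 2 / Ca := by
      have e1 : 2 * cv + 2 * D ^ 2 * cu = θ ^ 2 / Ca := by
        rw [hcv, hcu]
        field_simp
        ring
      have e2 : 2 * D ^ 2 * U t ≤ 2 * D ^ 2 * cu :=
        mul_le_mul_of_nonneg_left h8.le (by positivity)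
      linarith
    have h10 : Ca / θ ^ 2 * AA2 M a' b' (B + 1) t < 1 := by
      calc Ca / θ ^ 2 * AA2 M a' b' (B + 1) t < Ca / θ ^ 2 * (θ ^ 2 / Ca) :=
            mul_lt_mul_of_pos_left (h6.trans_lt h9) (by positivity)
        _ = 1 := by field_simp
    linarith
  intro κ hκ c y J I hCfg hlen k hk
  have hI : ∀ i, ∀ p ∈ I i, p.Prime := fun i p hp => (hCfg.rg.pr i p hp).1
  have hκ0 : (0:ℝ) < κ := lt_of_lt_of_le (by positivity) hκ.1
  have hδ' : 0 < (κ:ℝ) / T := by positivity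
  have hlen1 : n * ((Rs:ℝ) + 1) * Real.log y ≤ η * Real.log T :=
    hlen.trans (mul_le_mul_of_nonneg_right (min_le_left _ _) (by linarith))
  have hlen2 : n * ((Rs:ℝ) + 1) * Real.log y ≤ ρ / (640 * ((n:ℝ) + 1)) * Real.log T :=
    hlen.trans (mul_le_mul_of_nonneg_right (min_le_right _ _) (by linarith))
  have hV0 : 0 ≤ VV I J := VV_nonneg I J
  set EV : ℝ := Real.exp (k ^ 2 * VV I J) with hEV
  have hEV1 : 1 ≤ EV := Real.one_le_exp (by positivity)
  have hAZ : ∀ t : ℝ, ‖AZ n Rs J k (zz I t)‖ ^ 2 ≤ T ^ (ρ / 4) := by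
    intro t
    have e1 : ‖AZ n Rs J k (zz I t)‖ ≤ T ^ (ρ / 8) := by
      refine (AZ_le hCfg hk t).trans ?_
      rw [Real.rpow_def_of_pos hT0]
      refine Real.exp_le_exp.mpr ?_
      calc 80 * ((n:ℝ) + 1) * (n * ((Rs:ℝ) + 1) * Real.log y) ≤
            80 * ((n:ℝ) + 1) * (ρ / (640 * ((n:ℝ) + 1)) * Real.log T) :=
            mul_le_mul_of_nonneg_left hlen2 (by positivity)
        _ = Real.log T * (ρ / 8) := by field_simp; ring
    calc ‖AZ n Rs J k (zz I t)‖ ^ 2 ≤ (T ^ (ρ / 8)) ^ 2 := pow_le_pow_left₀ (norm_nonneg _) e1 2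
      _ = T ^ (ρ / 4) := by
          rw [← Real.rpow_natCast (T ^ (ρ / 8)) 2, ← Real.rpow_mul hT0.le]
          congr 1
          push_cast
          ring
  have hTρ : 0 < T ^ (ρ / 4) := by positivity
  have cA : Continuous fun t => ‖AZ n Rs J k (zz I t)‖ ^ 2 := ((AZ_cont hI n Rs J k).norm).pow 2
  have com : Continuous fun t => om κ ((κ:ℝ) / T) t := Pool.Agent.H262R4.TM.TTW.om_cont κ _
  set w : ℝ → ℝ := fun t => om κ ((κ:ℝ) / T) t * ‖AZ n Rs J k (zz I t)‖ ^ 2 with hw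
  have cw : Continuous w := com.mul cA
  have w0 : ∀ t, 0 ≤ t → 0 ≤ w t := fun t ht => mul_nonneg (om_nn κ hδ' ht) (by positivity)
  have wi : IntegrableOn w (Ioi 0) := om_poly_int hδ' cA (C := T ^ (ρ / 4)) 0 fun t ht => by
    rw [abs_of_nonneg (by positivity), pow_zero, mul_one]
    exact hAZ t
  -- the first part
  have hW : ∀ s ∈ rect a' b' (B + 1), ∀ T', 0 ≤ T' →
      ∫ t in (0:ℝ)..T', w t * ‖GV (s + t * Complex.I)‖ ^ 2 ≤ (2 * C + 1) * m * EV := by
    intro s hs T' hT'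
    have hs0 : 0 ≤ s.re := by
      have := hs.1
      linarith
    obtain ⟨c1, c2, hc1, hc2, hc10, hc20, hsp⟩ := split M N hN1 s hs0
    rw [← hP, ← hD] at hsp
    have d1 := hdir κ hκ c y J I hCfg hlen1 k hk N hN' M hM c1 hc1 hc10 s hs.1
    have d2 := hdir κ hκ c y J I hCfg hlen1 k hk (N * P) hNP' N hN1 c2 hc2 hc20 s hs.1
    set f1 : ℝ → ℝ := fun t => om κ ((κ:ℝ) / T) t * (‖AZ n Rs J k (zz I t)‖ ^ 2 *
      ‖∑ n ∈ Finset.Icc 1 N, c1 n * (n : ℂ) ^ (-(s + t * Complex.I))‖ ^ 2) with hf1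
    set f2 : ℝ → ℝ := fun t => om κ ((κ:ℝ) / T) t * (‖AZ n Rs J k (zz I t)‖ ^ 2 *
      ‖∑ n ∈ Finset.Icc 1 (N * P), c2 n * (n : ℂ) ^ (-(s + t * Complex.I))‖ ^ 2) with hf2
    have i1 : IntegrableOn f1 (Ioi 0) := om_poly_int hδ' (cA.mul (dir_cont N c1 s))
      (C := T ^ (ρ / 4) * (N:ℝ) ^ 2) 0 fun t ht => by
        rw [abs_of_nonneg (by positivity), pow_zero, mul_one]
        exact mul_le_mul (hAZ t) (dir_bd N c1 hc1 s hs0 t) (by positivity) (by positivity)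
    have i2 : IntegrableOn f2 (Ioi 0) := om_poly_int hδ' (cA.mul (dir_cont (N * P) c2 s))
      (C := T ^ (ρ / 4) * ((N * P : ℕ):ℝ) ^ 2) 0 fun t ht => by
        rw [abs_of_nonneg (by positivity), pow_zero, mul_one]
        exact mul_le_mul (hAZ t) (dir_bd (N * P) c2 hc2 s hs0 t) (by positivity) (by positivity)
    have j1 := i1.const_mul 2
    have j2 := i2.const_mul (2 * D ^ 2)
    have hg : Continuous fun t : ℝ => ‖GV (s + t * Complex.I)‖ ^ 2 :=
      ((cV.comp (by fun_prop : Continuous fun t : ℝ => s + t * Complex.I)).norm).pow 2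
    have j12 : IntegrableOn (fun t => 2 * f1 t + 2 * D ^ 2 * f2 t) (Ioi 0) := j1.add j2
    have e1 : ∫ t in (0:ℝ)..T', w t * ‖GV (s + t * Complex.I)‖ ^ 2 ≤
        ∫ t in Ioi (0:ℝ), (2 * f1 t + 2 * D ^ 2 * f2 t) := by
      rw [intervalIntegral.integral_of_le hT']
      calc ∫ t in Ioc 0 T', w t * ‖GV (s + t * Complex.I)‖ ^ 2 ≤
            ∫ t in Ioc 0 T', (2 * f1 t + 2 * D ^ 2 * f2 t) := by
            refine setIntegral_mono_on
              (((cw.mul hg).continuousOn.integrableOn_compact isCompact_Icc).mono_set Ioc_subset_Icc_self)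
              (j12.mono_set Ioc_subset_Ioi_self) measurableSet_Ioc fun t ht => ?_
            have hwt := w0 t ht.1.le
            refine (mul_le_mul_of_nonneg_left (hsp t) hwt).trans (le_of_eq ?_)
            simp only [hw, hf1, hf2]
            ring
        _ ≤ _ := by
            refine setIntegral_mono_set (j1.add j2) ?_ Ioc_subset_Ioi_self.eventuallyLE
            refine (ae_restrict_iff' measurableSet_Ioi).mpr (Eventually.of_forall fun t ht => ?_)
            have ht0 : (0:ℝ) ≤ t := le_of_lt ht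
            have ho := om_nn κ hδ' ht0
            simp only [Pi.zero_apply, hf1, hf2]
            positivity
    rw [integral_add j1 j2, integral_const_mul, integral_const_mul] at e1
    refine e1.trans ?_
    set t8 : ℝ := T ^ (-(1 / 8) : ℝ) with ht8d
    set n' : ℝ := (N : ℝ) ^ (-δ) with hn'
    have hn'0 : 0 ≤ n' := by positivity
    have b1 : 2 * ∫ t in Ioi (0:ℝ), f1 t ≤ 2 * (C * (m * EV) + t8) :=
      mul_le_mul_of_nonneg_left d1 (by norm_num)
    have b2 : 2 * D ^ 2 * ∫ t in Ioi (0:ℝ), f2 t ≤ 2 * D ^ 2 * (C * (n' * EV) + t8) :=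
      mul_le_mul_of_nonneg_left d2 (by positivity)
    have b3 : (2 + 2 * D ^ 2) * t8 ≤ m / 2 := by
      rw [div_mul_eq_mul_div, div_le_iff₀ hm0] at ht8
      linarith
    have b4 : 2 * D ^ 2 * C * n' * EV ≤ m / 2 * EV := mul_le_mul_of_nonneg_right hsmall (by linarith)
    have b5 : m / 2 ≤ m / 2 * EV := by nlinarith
    nlinarith
  have hp1 := vpart hab' hB' cV cw w0 wi hcv0 hW
  -- the second part
  have hvol : volume ({t | cu ≤ U t} ∩ Icc 0 (8 * T)) ≤ ENNReal.ofReal (K / cu * (8 * T) ^ (1 - ρ₀)) := by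
    have h := mul_meas_ge_le_integral_of_nonneg (μ := volume.restrict (Icc (0 : ℝ) (8 * T)))
      (f := U) (Eventually.of_forall U0) (uc.integrableOn_Icc) cu
    have e1 : (volume.restrict (Icc (0 : ℝ) (8 * T))) {t : ℝ | cu ≤ U t} =
        volume ({t | cu ≤ U t} ∩ Icc 0 (8 * T)) := Measure.restrict_apply mE2
    have hfin : volume ({t | cu ≤ U t} ∩ Icc 0 (8 * T)) ≠ ⊤ :=
      ((measure_mono inter_subset_right).trans_lt (by
        rw [Real.volume_Icc]
        exact ENNReal.ofReal_lt_top)).ne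
    rw [Measure.real, e1, integral_Icc_eq_integral_Ioc,
      ← intervalIntegral.integral_of_le h8T] at h
    have h2 := h.trans ui
    rw [← hK] at h2
    refine (ENNReal.le_ofReal_iff_toReal_le hfin (by positivity)).2 ?_
    rw [div_mul_eq_mul_div, le_div_iff₀ hcu0]
    linarith
  have hp2 := upart wi mE2 (R := 8 * T) (q := (κ:ℝ) / T * T ^ (ρ / 4))
    (v := K / cu * (8 * T) ^ (1 - ρ₀)) (r := T ^ (ρ / 4) * (2 * T ^ (-10 : ℝ))) h8T (by positivity)
    (fun t ht => ⟨w0 t ht.1.le, mul_le_mul (om_le hδ' ht.1.le) (hAZ t) (by positivity) hδ'.le⟩)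
    hvol (by positivity) (fun t ht => w0 t (h8T.trans (le_of_lt ht))) (by
      have hs : Ioi (8 * T) ⊆ Ioi (0:ℝ) := Ioi_subset_Ioi h8T
      have io := om_int0 κ hδ'
      calc ∫ t in Ioi (8 * T), w t ≤ ∫ t in Ioi (8 * T), T ^ (ρ / 4) * om κ ((κ:ℝ) / T) t := by
            refine setIntegral_mono_on (wi.mono_set hs) ((io.mono_set hs).const_mul _)
              measurableSet_Ioi fun t ht => ?_
            have ht0 : (0:ℝ) ≤ t := h8T.trans (le_of_lt ht)
            simp only [hw]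
            rw [mul_comm]
            exact mul_le_mul_of_nonneg_right (hAZ t) (om_nn κ hδ' ht0)
        _ = T ^ (ρ / 4) * ∫ t in Ioi (8 * T), om κ ((κ:ℝ) / T) t := integral_const_mul _ _
        _ ≤ _ := mul_le_mul_of_nonneg_left (htail κ hκ) hTρ.le)
  have hq : (κ:ℝ) / T * T ^ (ρ / 4) * (K / cu * (8 * T) ^ (1 - ρ₀)) ≤ m / 2 := by
    have e1 : (8 * T) ^ (1 - ρ₀) ≤ 8 * T ^ (1 - ρ) := by
      calc (8 * T) ^ (1 - ρ₀) ≤ (8 * T) ^ (1 - ρ) :=
            Real.rpow_le_rpow_of_exponent_le (by linarith) (by linarith)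
        _ = 8 ^ (1 - ρ) * T ^ (1 - ρ) := Real.mul_rpow (by norm_num) hT0.le
        _ ≤ 8 ^ (1:ℝ) * T ^ (1 - ρ) := by
            refine mul_le_mul_of_nonneg_right ?_ (by positivity)
            exact Real.rpow_le_rpow_of_exponent_le (by norm_num) (by linarith)
        _ = 8 * T ^ (1 - ρ) := by rw [Real.rpow_one]
    have e2 : (κ:ℝ) / T ≤ 4 * Real.log T ^ 2 * T ^ (-1 : ℝ) := by
      rw [Real.rpow_neg_one, div_eq_mul_inv]
      exact mul_le_mul_of_nonneg_right hκ.2 (by positivity)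
    have e3 : T ^ (-1 : ℝ) * T ^ (ρ / 4) * T ^ (1 - ρ) = T ^ (-(3 / 4 * ρ)) := by
      rw [← Real.rpow_add hT0, ← Real.rpow_add hT0]
      congr 1
      ring
    calc (κ:ℝ) / T * T ^ (ρ / 4) * (K / cu * (8 * T) ^ (1 - ρ₀)) ≤
          (4 * Real.log T ^ 2 * T ^ (-1 : ℝ)) * T ^ (ρ / 4) * (K / cu * (8 * T ^ (1 - ρ))) := by gcongr
      _ = 32 * (K / cu) * (T ^ (-1 : ℝ) * T ^ (ρ / 4) * T ^ (1 - ρ)) * Real.log T ^ 2 := by ring
      _ = 32 * (K / cu) * T ^ (-(3 / 4 * ρ)) * Real.log T ^ 2 := by rw [e3]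
      _ ≤ m / 2 := by
          have e4 : 2 * (32 * (K / cu)) / m * T ^ (-(3 / 4 * ρ)) * Real.log T ^ 2 =
            (2 * (32 * (K / cu) * T ^ (-(3 / 4 * ρ)) * Real.log T ^ 2)) / m := by ring
          rw [e4, div_le_iff₀ hm0] at hu1
          linarith
  have hr : T ^ (ρ / 4) * (2 * T ^ (-10 : ℝ)) ≤ m / 2 := by
    have e1 : T ^ (ρ / 4) ≤ T ^ (1:ℝ) := Real.rpow_le_rpow_of_exponent_le hT1.le (by linarith)
    have e2 : T ^ (1:ℝ) * T ^ (-10 : ℝ) = T ^ (-9 : ℝ) := by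
      rw [← Real.rpow_add hT0]
      norm_num
    calc T ^ (ρ / 4) * (2 * T ^ (-10 : ℝ)) ≤ T ^ (1:ℝ) * (2 * T ^ (-10 : ℝ)) := by gcongr
      _ = 2 * T ^ (-9 : ℝ) := by rw [← e2]; ring
      _ ≤ m / 2 := by
          rw [div_mul_eq_mul_div, div_le_iff₀ hm0] at hu2
          linarith
  have hu := union_le wi w0 mE1 mE2
  have hmE : m ≤ m * EV := le_mul_of_one_le_right hm0.le hEV1
  calc ∫ t in Ioi (0:ℝ) ∩ ({t | cv ≤ V t} ∪ {t | cu ≤ U t}), w t ≤
        (b' - a') * (2 * (B + 1)) * ((2 * C + 1) * m * EV) / cv + m * EV := by linarith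
    _ = (K * (2 * C + 1) / cv + 1) * m * EV := by rw [hK]; ring

end

end Pool.Agent.Q14.MC.BadW
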