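import Pool.Agent.H200M.Stm3
import Pool.Agent.Q195.GR.Exp

/-! # Project MC: job SCALE, part A: one group, adding points -/

set_option autoImplicit false

namespace Pool.Agent.Q14.MC

open Finset Pool.Agent Pool.Agent.TH176.Nag Pool.Agent.TH603.Sur Pool.Agent.TH2.NU
open Pool.Agent.TH641.UM Pool.Agent.Y205.FW Pool.Agent.Y205.MD Pool.Agent.H200W Pool.Agent.H200P
open Pool.Agent.H200C Pool.Agent.H200G Pool.Agent.H932R3 Pool.Agent.W609.CR Pool.Agent.H200M
open Pool.Agent.Q53.WR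

theorem size_bds {ν : ℕ} (h : 1 ≤ ν) : ν < 2 ^ Nat.size ν ∧ 2 ^ Nat.size ν ≤ 2 * ν := by
  refine ⟨Nat.lt_size_self ν, ?_⟩
  obtain ⟨k, hk⟩ : ∃ k, Nat.size ν = k + 1 := Nat.exists_eq_succ_of_ne_zero (by
    intro h0
    rw [Nat.size_eq_zero] at h0
    omega)
  rw [hk, pow_succ]
  have h1 : k < Nat.size ν := by omega
  have h2 := Nat.lt_size.1 h1
  omega

/-- one single group -/
theorem gr_const {n κ : ℕ} {w : Fin n → ℕ} {S : Finset (Fin n)} (h1 : ∀ i ∈ S, w i < 2 ^ κ)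
    (h2 : 2 ^ 27 * 4 ^ κ * ((S.filter fun i => w i ≠ 0).image w).card ≤ ∑ i ∈ S, w i ^ 2) :
    Gr w S κ := by
  refine ⟨fun _ => κ, fun i hi => ⟨h1 i hi, le_rfl⟩, fun k => ?_⟩
  by_cases hk : κ = k
  · subst hk
    have e1 : (S.filter fun i => κ = κ ∧ w i ≠ 0) = S.filter fun i => w i ≠ 0 := by
      ext i
      simp only [Finset.mem_filter, true_and]
    have e2 : (S.filter fun _ => κ = κ) = S := by
      ext i
      simp only [Finset.mem_filter, and_true]
    change 2 ^ 27 * 4 ^ κ * ((S.filter fun i => κ = κ ∧ w i ≠ 0).image w).card ≤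
      ∑ i ∈ S.filter (fun _ => κ = κ), w i ^ 2
    rw [e1, e2]
    exact h2
  · have e1 : (S.filter fun i => κ = k ∧ w i ≠ 0) = ∅ := by
      ext i
      simp only [Finset.mem_filter, hk, false_and, and_false, Finset.notMem_empty]
    change 2 ^ 27 * 4 ^ k * ((S.filter fun i => κ = k ∧ w i ≠ 0).image w).card ≤
      ∑ i ∈ S.filter (fun _ => κ = k), w i ^ 2
    rw [e1, Finset.image_empty, Finset.card_empty, mul_zero]
    exact Nat.zero_le _

theorem two_choose (a : ℕ) : 2 * (a + 1).choose 2 = a * (a + 1) := by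
  rw [Nat.choose_two_right, Nat.add_sub_cancel, mul_comm (a + 1) a,
    Nat.mul_div_cancel' (Nat.even_mul_succ_self a).two_dvd]

/-- adding points of multiplicity `ν` -/
theorem add_points (hH : Hered) {n d ν s : ℕ} {w : Fin n → ℕ} {C : Finset (Fin n)}
    (hE : ∀ {r : ℕ} (v : Fin r → ℕ) (e : Fin n ↪ Fin r), (∀ i, v (e i) = w i) →
      Gr v (univ \ C.map e) (Nat.size ν) → GenExp d v)
    (hν : 1 ≤ ν) (hw : ∀ i ∉ C, w i ≤ ν) (hs : ((univ \ C).image w).card ≤ s)
    (hvol : ∑ i ∈ C, w i * (w i + 1) + 2 ^ 31 * (s + 1) * ν ^ 2 ≤ (d + 1) * (d + 2)) :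
    GenExp d w := by
  classical
  intro Kf _ _ Pf hPf
  obtain ⟨hκ1, hκ2⟩ := size_bds hν
  have h4 : 4 ^ Nat.size ν ≤ 4 * ν ^ 2 := by
    have h3 : (2 ^ Nat.size ν) ^ 2 ≤ (2 * ν) ^ 2 := Nat.pow_le_pow_left hκ2 2
    calc 4 ^ Nat.size ν = (2 ^ Nat.size ν) ^ 2 := by
          rw [← pow_mul, mul_comm, pow_mul]
          norm_num
      _ ≤ (2 * ν) ^ 2 := h3
      _ = 4 * ν ^ 2 := by ring
  by_cases hbig : 2 ^ 29 * s * ν ^ 2 ≤ ∑ i ∈ univ \ C, w i ^ 2
  · refine hE w (Function.Embedding.refl _) (fun _ => rfl) ?_ hPf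
    rw [Finset.map_refl]
    refine gr_const (fun i hi => lt_of_le_of_lt (hw i (Finset.mem_sdiff.1 hi).2) hκ1) ?_
    have h5 : (((univ \ C).filter fun i => w i ≠ 0).image w).card ≤ s :=
      (Finset.card_le_card (Finset.image_subset_image (Finset.filter_subset _ _))).trans hs
    calc 2 ^ 27 * 4 ^ Nat.size ν * (((univ \ C).filter fun i => w i ≠ 0).image w).card
        ≤ 2 ^ 27 * (4 * ν ^ 2) * s := Nat.mul_le_mul (Nat.mul_le_mul_left _ h4) h5
      _ = 2 ^ 29 * s * ν ^ 2 := by ring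
      _ ≤ _ := hbig
  · push Not at hbig
    obtain ⟨N, hN⟩ : ∃ N, N = 2 ^ 29 * (s + 1) := ⟨_, rfl⟩
    obtain ⟨v, hv⟩ : ∃ v : Fin (n + N) → ℕ, v = Fin.append w (fun _ => ν) := ⟨_, rfl⟩
    have hv1 : ∀ i : Fin n, v (Fin.castAdd N i) = w i := fun i => by
      rw [hv, Fin.append_left]
    have hv2 : ∀ i : Fin N, v (Fin.natAdd n i) = ν := fun i => by
      rw [hv, Fin.append_right]
    have hmem : ∀ i, i ∈ univ \ C.map (Fin.castAddEmb N) →
        (∃ j ∉ C, i = Fin.castAdd N j) ∨ ∃ j, i = Fin.natAdd n j := by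
      intro i
      refine Fin.addCases (fun j hj => ?_) (fun j _ => Or.inr ⟨j, rfl⟩) i
      left
      refine ⟨j, fun hjC => ?_, rfl⟩
      rw [Finset.mem_sdiff] at hj
      exact hj.2 (Finset.mem_map_of_mem (Fin.castAddEmb N) hjC)
    have hsub : univ.map (Fin.natAddEmb n) ⊆ univ \ C.map (Fin.castAddEmb N) := by
      intro i hi
      rw [Finset.mem_map] at hi
      obtain ⟨j, -, rfl⟩ := hi
      rw [Finset.mem_sdiff]
      refine ⟨Finset.mem_univ _, fun hj => ?_⟩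
      rw [Finset.mem_map] at hj
      obtain ⟨k, -, hk⟩ := hj
      have h6 : (Fin.castAdd N k : Fin (n + N)).val = (Fin.natAdd n j).val := congrArg Fin.val hk
      rw [Fin.val_castAdd, Fin.val_natAdd] at h6
      have := k.isLt
      omega
    have hgen : GenExp d v := by
      intro Kf' _ _ Pf' hPf'
      refine hE v (Fin.castAddEmb N) hv1 (gr_const ?_ ?_) hPf'
      · intro i hi
        rcases hmem i hi with ⟨j, hj, rfl⟩ | ⟨j, rfl⟩
        · rw [hv1]
          exact lt_of_le_of_lt (hw j hj) hκ1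
        · rw [hv2]
          exact hκ1
      · have h5 : (((univ \ C.map (Fin.castAddEmb N)).filter fun i => v i ≠ 0).image v).card ≤
            s + 1 := by
          have h6 : ((univ \ C.map (Fin.castAddEmb N)).filter fun i => v i ≠ 0).image v ⊆
              insert ν ((univ \ C).image w) := by
            intro x hx
            rw [Finset.mem_image] at hx
            obtain ⟨i, hi, rfl⟩ := hx
            rw [Finset.mem_filter] at hi
            rcases hmem i hi.1 with ⟨j, hj, rfl⟩ | ⟨j, rfl⟩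
            · rw [hv1]
              refine Finset.mem_insert_of_mem (Finset.mem_image_of_mem w ?_)
              rw [Finset.mem_sdiff]
              exact ⟨Finset.mem_univ _, hj⟩
            · rw [hv2]
              exact Finset.mem_insert_self _ _
          exact (Finset.card_le_card h6).trans
            ((Finset.card_insert_le _ _).trans (Nat.add_le_add_right hs 1))
        have h7 : N * ν ^ 2 ≤ ∑ i ∈ univ \ C.map (Fin.castAddEmb N), v i ^ 2 := by
          refine le_trans (le_of_eq ?_) (Finset.sum_le_sum_of_subset hsub)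
          rw [Finset.sum_map]
          have h8 : ∀ j ∈ (univ : Finset (Fin N)), v ((Fin.natAddEmb n) j) ^ 2 = ν ^ 2 := by
            intro j _
            have h9 : v ((Fin.natAddEmb n) j) = ν := hv2 j
            rw [h9]
          rw [Finset.sum_congr rfl h8, Finset.sum_const, Finset.card_univ, Fintype.card_fin,
            smul_eq_mul]
        calc 2 ^ 27 * 4 ^ Nat.size ν *
              (((univ \ C.map (Fin.castAddEmb N)).filter fun i => v i ≠ 0).image v).card
            ≤ 2 ^ 27 * (4 * ν ^ 2) * (s + 1) := Nat.mul_le_mul (Nat.mul_le_mul_left _ h4) h5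
          _ = 2 ^ 29 * (s + 1) * ν ^ 2 := by ring
          _ = N * ν ^ 2 := by rw [hN]
          _ ≤ _ := h7
    refine hH (Fin.castAddEmb N) le_rfl (fun i => (hv1 i).symm.le) ?_ hgen hPf
    have h5 : 2 * ∑ i, (v i + 1).choose 2 ≤ 2 * (d + 2).choose 2 := by
      have e1 : 2 * (d + 2).choose 2 = (d + 1) * (d + 2) := two_choose (d + 1)
      rw [e1, Finset.mul_sum, Finset.sum_congr rfl fun i _ => two_choose (v i), Fin.sum_univ_add,
        Finset.sum_congr rfl fun i _ => by rw [hv1],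
        Finset.sum_congr (s₁ := (univ : Finset (Fin N))) rfl fun i _ => by rw [hv2],
        Finset.sum_const, Finset.card_univ, Fintype.card_fin, smul_eq_mul]
      have e2 : ∑ i, w i * (w i + 1) = ∑ i ∈ univ \ C, w i * (w i + 1) +
          ∑ i ∈ C, w i * (w i + 1) := (Finset.sum_sdiff (Finset.subset_univ C)).symm
      have e3 : ∑ i ∈ univ \ C, w i * (w i + 1) ≤ 2 * ∑ i ∈ univ \ C, w i ^ 2 := by
        rw [Finset.mul_sum]
        refine Finset.sum_le_sum fun i _ => ?_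
        have : w i ≤ w i ^ 2 := Nat.le_self_pow (by norm_num) _
        nlinarith
      have e4 : N * (ν * (ν + 1)) ≤ 2 ^ 30 * (s + 1) * ν ^ 2 := by
        have h6 : ν * (ν + 1) ≤ 2 * ν ^ 2 := by nlinarith
        rw [hN]
        calc 2 ^ 29 * (s + 1) * (ν * (ν + 1)) ≤ 2 ^ 29 * (s + 1) * (2 * ν ^ 2) :=
              Nat.mul_le_mul_left _ h6
          _ = 2 ^ 30 * (s + 1) * ν ^ 2 := by ring
      have e5 : 2 ^ 31 * (s + 1) * ν ^ 2 = 2 ^ 30 * (s + 1) * ν ^ 2 +
          (2 * (2 ^ 29 * s * ν ^ 2) + 2 ^ 30 * ν ^ 2) := by ring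
      rw [e2]
      omega
    omega

/-- all multiplicities outside of `A` are zero -/
theorem scale0 (hR : RankG) {n d T : ℕ} {w : Fin n → ℕ} {A : Finset (Fin n)} (hT : 1 ≤ T)
    (hW : ∀ t : ℕ, 1 ≤ t → t ≤ T → WinAb (256 * t) (A.val.map w) d) (h0 : ∀ i ∉ A, w i = 0) :
    GenExp d w := by
  obtain ⟨Λ, hΛ, hΛ2, hSK, -⟩ := hW 1 le_rfl hT d le_rfl
  apply hR (M := A.val.map w)
  · have h1 : (A.filter fun i => w i ≠ 0) = (univ : Finset (Fin n)).filter fun i => w i ≠ 0 := by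
      ext i
      rw [Finset.mem_filter, Finset.mem_filter]
      constructor
      · rintro ⟨-, h⟩
        exact ⟨Finset.mem_univ i, h⟩
      · rintro ⟨-, h⟩
        refine ⟨?_, h⟩
        by_contra hcon
        exact h (h0 i hcon)
    rw [Q195.GR.filter_ne, Q195.GR.filter_ne, h1]
  · have h6 := crk_of_Sur (w := vec (A.val.map w)) hSK.1
    rw [cond_vec] at h6
    unfold crkM
    omega

/-- the case `c T ≤ μ` -/
theorem scale1 (hAb : ExpAb) (hU : UnGr) (hRep : RepUn) (hH : Hered) {c : ℝ}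
    (hc1 : c * 2 ^ 31 ≤ 1) {n d T : ℕ} {μ : ℝ} {w : Fin n → ℕ} {A : Finset (Fin n)}
    (hW : ∀ t : ℕ, 1 ≤ t → t ≤ T → WinAb (256 * t) (A.val.map w) d)
    (hX : 0 ≤ XA w A d) (hw : ∀ i ∉ A, (w i : ℝ) ≤ c * T) (hcT : 1 ≤ c * T) (hμ : c * T ≤ μ)
    (hF : Few w (univ \ A) μ (c * XA w A d)) : GenExp d w := by
  have hT0 : (0 : ℝ) ≤ T := Nat.cast_nonneg T
  obtain ⟨ν, hν⟩ : ∃ ν, ν = ⌊c * T⌋₊ := ⟨_, rfl⟩
  have hν1 : 1 ≤ ν := by
    rw [hν]
    exact Nat.le_floor (by exact_mod_cast hcT)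
  have hνT : (ν : ℝ) ≤ c * T := by
    rw [hν]
    exact Nat.floor_le (by linarith)
  have hwν : ∀ i ∉ A, w i ≤ ν := by
    intro i hi
    rw [hν]
    exact Nat.le_floor (hw i hi)
  obtain ⟨hκ1, hκ2⟩ := size_bds hν1
  have ht : 64 * 2 ^ Nat.size ν ≤ T := by
    have h1 : ((64 * 2 ^ Nat.size ν : ℕ) : ℝ) ≤ T := by
      have h2 : ((2 ^ Nat.size ν : ℕ) : ℝ) ≤ ((2 * ν : ℕ) : ℝ) := Nat.cast_le.2 hκ2
      push_cast at h2 ⊢
      have h3 : c * 2 ^ 31 * T ≤ 1 * T := mul_le_mul_of_nonneg_right hc1 hT0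
      linarith
    exact_mod_cast h1
  have hWin : WinAb (2 ^ 14 * 2 ^ Nat.size ν) (A.val.map w) d := by
    have h1 := hW (64 * 2 ^ Nat.size ν) (by
      have : 1 ≤ 2 ^ Nat.size ν := Nat.one_le_two_pow
      omega) ht
    have h2 : (256 : ℝ) * ((64 * 2 ^ Nat.size ν : ℕ) : ℝ) = 2 ^ 14 * 2 ^ Nat.size ν := by
      push_cast
      ring
    rw [h2] at h1
    exact h1
  -- the engine
  have hE : ∀ {r : ℕ} (v : Fin r → ℕ) (e : Fin n ↪ Fin r), (∀ i, v (e i) = w i) →
      Gr v (univ \ A.map e) (Nat.size ν) → GenExp d v := by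
    intro r v e hv hG Kf _ _ Pf hPf
    refine hAb (A := A.map e) ?_ hG hPf
    have h1 : (A.map e).val.map v = A.val.map w := by
      rw [Finset.map_val, Multiset.map_map]
      exact Multiset.map_congr rfl fun i _ => hv i
    rw [h1]
    exact hWin
  intro Kf _ _ Pf hPf
  rcases hF with hF | ⟨-, hF⟩
  · refine hE w (Function.Embedding.refl _) (fun _ => rfl) ?_ hPf
    rw [Finset.map_refl]
    refine hU (hRep fun i hi h0 => hF i hi h0 ?_) fun i hi => ?_
    · exact (hw i (Finset.mem_sdiff.1 hi).2).trans hμ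
    · exact lt_of_le_of_lt (hwν i (Finset.mem_sdiff.1 hi).2) hκ1
  · have hfil : (univ \ A).filter (fun i => (w i : ℝ) ≤ μ) = univ \ A := by
      rw [Finset.filter_eq_self]
      intro i hi
      exact (hw i (Finset.mem_sdiff.1 hi).2).trans hμ
    rw [hfil] at hF
    refine add_points hH hE hν1 hwν le_rfl ?_ hPf
    have h1 : (((∑ i ∈ A, w i * (w i + 1) + 2 ^ 31 * (((univ \ A).image w).card + 1) * ν ^ 2 : ℕ)) :
        ℝ) ≤ (((d + 1) * (d + 2) : ℕ) : ℝ) := by
      push_cast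
      have h2 : (ν : ℝ) ^ 2 ≤ μ ^ 2 := pow_le_pow_left₀ (Nat.cast_nonneg _) (hνT.trans hμ) 2
      have h3 : (0 : ℝ) ≤ ((((univ \ A).image w).card : ℕ) : ℝ) + 1 := by positivity
      have h4 := mul_le_mul_of_nonneg_left h2 h3
      have h5 : c * XA w A d * 2 ^ 31 ≤ 1 * XA w A d := by
        have := mul_le_mul_of_nonneg_right hc1 hX
        linarith
      have h6 : XA w A d = ((d : ℝ) + 1) * (d + 2) - ∑ i ∈ A, (w i : ℝ) * (w i + 1) := rfl
      linarith
    exact_mod_cast h1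

end Pool.Agent.Q14.MC
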