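import Pool.Agent.Q286.MC.Defs
import Pool.Agent.TH263.LK_AV1
import Pool.Agent.TH986.LK_LB
import Pool.Agent.TH959.LK_ZM
import Pool.Agent.TH328.LK_ALG
import Pool.Agent.TH364.LK_LAW

/-! JOB TM of the project MC (helper286, MP_f9aece_nt), by helper14: the twist by a monomial in small primes
decouples from the blocks. -/

set_option autoImplicit false

namespace Pool.Agent.Q14.MC.TM

open Finset Filter Topology MeasureTheory MonoidAlgebra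
open Pool.Agent.W184.NZ
open Pool.Agent.TH806 Pool.Agent.TH806.LK
open Pool.Agent.TH263.LK_AV1
open Pool.Agent.TH986.LK_B Pool.Agent.TH986.LK_LB
open Pool.Agent.H306R2.SM (om cl Yf)
open Pool.Agent.H262R4.TM (Rng Ck)
open Pool.Agent.Q286.MC

noncomputable section

theorem wF_nonneg (x : ℕ × ℕ) : 0 ≤ wF x := by
  unfold wF
  split_ifs <;> positivity

theorem wF_le_one {x : ℕ × ℕ} (h : x.2 ≠ 0) : wF x ≤ 1 := by
  unfold wF
  have h1 : (1:ℝ) ≤ x.2 := by exact_mod_cast Nat.pos_of_ne_zero h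
  split_ifs
  · rw [div_le_one (by linarith)]; exact h1
  · norm_num

/-- one element of the algebra, twisted -/
theorem one_diff {T : ℝ} {κ : ℕ} (hδ : 0 < (κ : ℝ) / T) (hT : 0 < T)
    (hZ : ∀ h l : ℕ, 1 ≤ h → 1 ≤ l →
      (h : ℝ) ≤ T ^ (1 / 4 : ℝ) → (l : ℝ) ≤ T ^ (1 / 4 : ℝ) →
      ‖(∫ t in Set.Ioi (0 : ℝ), ((om κ (κ / T) t : ℝ) : ℂ) * (riemannZeta (cl t) * mh t (h, l))) -
      ((wF (h, l) : ℝ) : ℂ)‖ ≤ T ^ (-1 : ℝ))
    {P Q : Finset ℕ} (hPQ : Disjoint Q P) {N N' : ℝ} (hN : N ≤ T ^ (1 / 4 : ℝ))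
    (hN' : N' * N ≤ T ^ (1 / 4 : ℝ)) {x : ℕ × ℕ} (hx : x ∈ MI Q) (hxN : (x.1:ℝ) ≤ N' ∧ (x.2:ℝ) ≤ N')
    {M : DA} (hM : Bd N M) (hMS : M ∈ SA (MI P)) :
    ‖(∫ t in Set.Ioi (0 : ℝ), ((om κ (κ / T) t : ℝ) : ℂ) * (riemannZeta (cl t) * (mh t x * ev t M))) -
      ((wF x : ℝ) : ℂ) *
        ∫ t in Set.Ioi (0 : ℝ), ((om κ (κ / T) t : ℝ) : ℂ) * (riemannZeta (cl t) * ev t M)‖ ≤
      2 * T ^ (-1 : ℝ) * l1 M := by
  have hB : Bd (N' * N) (single x 1 * M) := (Bd.single ⟨⟨hx.1, hx.2.1⟩, hxN⟩ 1).mul hM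
  have h1 := one_elt hδ hZ hN' hB
  have h2 := one_elt hδ hZ hN hM
  have hl : lam wF (single x 1 * M) = wF x * lam wF M := by
    rw [Pool.Agent.TH328.LK_ALG.t_WF Q P hPQ _ _ (single_mem_SA hx 1) hMS, lam_single, one_mul]
  have he : ∀ t, ev t (single x 1 * M) = mh t x * ev t M := by
    intro t
    rw [map_mul, ev_single]
    push_cast; ring
  have hl1 : l1 (single x 1 * M) ≤ l1 M := by
    refine (l1_mul _ _).trans ?_
    rw [l1_single, abs_one, one_mul]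
  have hT1 : 0 ≤ T ^ (-1 : ℝ) := by positivity
  simp_rw [he] at h1
  rw [hl] at h1
  push_cast at h1
  set A := ∫ t in Set.Ioi (0 : ℝ), ((om κ (κ / T) t : ℝ) : ℂ) * (riemannZeta (cl t) * (mh t x * ev t M)) with hA
  set B := ∫ t in Set.Ioi (0 : ℝ), ((om κ (κ / T) t : ℝ) : ℂ) * (riemannZeta (cl t) * ev t M) with hBB
  have e : A - ((wF x : ℝ) : ℂ) * B = (A - ((wF x : ℝ) : ℂ) * ((lam wF M : ℝ) : ℂ)) -
      ((wF x : ℝ) : ℂ) * (B - ((lam wF M : ℝ) : ℂ)) := by ring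
  rw [e]
  refine (norm_sub_le _ _).trans ?_
  rw [norm_mul, Complex.norm_real, Real.norm_eq_abs, abs_of_nonneg (wF_nonneg x)]
  have h3 : wF x * ‖B - ((lam wF M : ℝ) : ℂ)‖ ≤ 1 * (T ^ (-1 : ℝ) * l1 M) :=
    mul_le_mul (wF_le_one hx.2.1) h2 (norm_nonneg _) zero_le_one
  have h4 := mul_le_mul_of_nonneg_left hl1 hT1
  linarith

/-- the expansion, twisted -/
theorem exp_diff {T : ℝ} {κ : ℕ} (hδ : 0 < (κ : ℝ) / T) (hT : 0 < T)
    (hZ : ∀ h l : ℕ, 1 ≤ h → 1 ≤ l →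
      (h : ℝ) ≤ T ^ (1 / 4 : ℝ) → (l : ℝ) ≤ T ^ (1 / 4 : ℝ) →
      ‖(∫ t in Set.Ioi (0 : ℝ), ((om κ (κ / T) t : ℝ) : ℂ) * (riemannZeta (cl t) * mh t (h, l))) -
      ((wF (h, l) : ℝ) : ℂ)‖ ≤ T ^ (-1 : ℝ))
    {P Q : Finset ℕ} (hPQ : Disjoint Q P) {N N' L : ℝ} (hN : N ≤ T ^ (1 / 4 : ℝ))
    (hN' : N' * N ≤ T ^ (1 / 4 : ℝ)) {x : ℕ × ℕ} (hx : x ∈ MI Q) (hxN : (x.1:ℝ) ≤ N' ∧ (x.2:ℝ) ≤ N')
    {F : ℝ → ℂ} {A : ℂ} (hF : Expn N L P F A) :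
    ‖(∫ t in Set.Ioi (0 : ℝ), ((om κ (κ / T) t : ℝ) : ℂ) * (riemannZeta (cl t) * (mh t x * F t))) -
      ((wF x : ℝ) : ℂ) *
        ∫ t in Set.Ioi (0 : ℝ), ((om κ (κ / T) t : ℝ) : ℂ) * (riemannZeta (cl t) * F t)‖ ≤
      2 * T ^ (-1 : ℝ) * L := by
  obtain ⟨ι, s, a, M, h1, h2, h3, h4⟩ := hF
  have e1 : ∀ t : ℝ, ((om κ (κ / T) t : ℝ) : ℂ) * (riemannZeta (cl t) * (mh t x * F t)) =
      ∑ y ∈ s, a y * (((om κ (κ / T) t : ℝ) : ℂ) * (riemannZeta (cl t) * (mh t x * ev t (M y)))) := by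
    intro t
    rw [h2 t, mul_sum, mul_sum, mul_sum]
    refine sum_congr rfl fun y _ => ?_
    ring
  have e2 : ∀ t : ℝ, ((om κ (κ / T) t : ℝ) : ℂ) * (riemannZeta (cl t) * F t) =
      ∑ y ∈ s, a y * (((om κ (κ / T) t : ℝ) : ℂ) * (riemannZeta (cl t) * ev t (M y))) := by
    intro t
    rw [h2 t, mul_sum, mul_sum]
    refine sum_congr rfl fun y _ => ?_
    ring
  have hi1 : ∀ y ∈ s, Integrable (fun t : ℝ => a y *
        (((om κ (κ / T) t : ℝ) : ℂ) * (riemannZeta (cl t) * (mh t x * ev t (M y)))))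
        (volume.restrict (Set.Ioi 0)) := by
    intro y hy
    refine Integrable.const_mul ?_ _
    refine int_om κ hδ ((mh_cont hx.1 hx.2.1).mul (ev_cont (h1 y hy).2)) (B := 1 * l1 (M y)) fun t => ?_
    rw [norm_mul]
    exact mul_le_mul (mh_norm_le hx.1 hx.2.1) (ev_le (h1 y hy).2 t) (norm_nonneg _) zero_le_one
  have hi2 : ∀ y ∈ s, Integrable (fun t : ℝ => a y *
        (((om κ (κ / T) t : ℝ) : ℂ) * (riemannZeta (cl t) * ev t (M y))))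
        (volume.restrict (Set.Ioi 0)) := by
    intro y hy
    refine Integrable.const_mul ?_ _
    exact int_om κ hδ (ev_cont (h1 y hy).2) (B := l1 (M y)) fun t => ev_le (h1 y hy).2 t
  rw [integral_congr_ae (Eventually.of_forall e1), integral_finsetSum _ hi1,
    integral_congr_ae (Eventually.of_forall e2), integral_finsetSum _ hi2, mul_sum, ← sum_sub_distrib]
  have hT1 : 0 ≤ T ^ (-1 : ℝ) := by positivity
  calc _ ≤ ∑ y ∈ s, ‖a y‖ * (2 * T ^ (-1 : ℝ) * l1 (M y)) := by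
        refine (norm_sum_le _ _).trans (sum_le_sum fun y hy => ?_)
        rw [integral_const_mul, integral_const_mul, mul_left_comm, ← mul_sub, norm_mul]
        exact mul_le_mul_of_nonneg_left (one_diff hδ hT hZ hPQ hN hN' hx hxN (h1 y hy).2 (h1 y hy).1)
          (norm_nonneg _)
    _ = 2 * T ^ (-1 : ℝ) * ∑ y ∈ s, ‖a y‖ * l1 (M y) := by
        rw [mul_sum]
        refine sum_congr rfl fun y _ => ?_
        ring
    _ ≤ _ := mul_le_mul_of_nonneg_left h4 (by positivity)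

theorem tm : P_TM := by
  intro n hn
  have hn0 : (1:ℝ) ≤ n := by exact_mod_cast hn
  obtain ⟨P₀, C, hP144, hC1, hLaw⟩ := Pool.Agent.TH364.LK_LAW.t_LAW Pool.Agent.TH328.LK_ALG.t_WF
    (8 * n + 8) (by linarith)
  refine ⟨P₀, 1 / 24000, by norm_num, fun M a b ha hb hab Rs hRs => ?_⟩
  have hev1 : ∀ᶠ T : ℝ in atTop, (max a b : ℕ) ≤ T ^ (1 / 100 : ℝ) :=
    (tendsto_rpow_atTop (by norm_num)).eventually_ge_atTop _
  have hev2 : ∀ᶠ T : ℝ in atTop, (8:ℝ) ≤ T ^ (1 / 2 : ℝ) :=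
    (tendsto_rpow_atTop (by norm_num)).eventually_ge_atTop _
  filter_upwards [Pool.Agent.TH959.LK_ZM.t_ZM, hev1, hev2,
    Real.tendsto_log_atTop.eventually_gt_atTop 1, eventually_gt_atTop (3:ℝ)]
    with T hZT hTab hT8 hLT hT3 κ hκ c e y J I hCfg hMI hlen k u hk
  have hI : ∀ i, ∀ p ∈ I i, p.Prime := fun i p hp => (hCfg.rg.pr i p hp).1
  have hIP : ∀ i, ∀ p ∈ I i, p.Prime ∧ P₀ ≤ p := fun i p hp => ⟨hI i p hp, hCfg.P i p hp⟩
  choose ν hν using fun i => (hLaw (I i) (hIP i)).2.2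
  have hT0 : 0 < T := by linarith
  have hT1 : 1 < T := by linarith
  have hL0 : 0 < Real.log T := by linarith
  have hk0 : (0:ℝ) < κ := by
    have := hκ.1
    nlinarith
  have hδ : 0 < (κ:ℝ) / T := by positivity
  have hlen2 : ∑ i ∈ range J, ((3 * KK n Rs i : ℕ) : ℝ) * Real.log (bb y i) ≤ 1 / 100 * Real.log T := by
    refine (len_le (by linarith [hCfg.y1]) n Rs J).trans ?_
    linarith
  have hkn : |k| ≤ n := by linarith
  have hkn1 : |k - 1| ≤ n := by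
    have := abs_sub k 1
    rw [abs_one] at this
    linarith
  -- the monomial
  set Q : Finset ℕ := (range (M + 1)).filter Nat.Prime with hQ
  have hxQ : (a, b) ∈ MI Q := by
    refine ⟨by omega, by omega, fun p hp hd => ?_⟩
    rw [hQ, mem_filter, mem_range]
    refine ⟨Nat.lt_succ_of_le (hab p hp ?_), hp⟩
    rcases hd with hd | hd
    · exact hd.mul_right _
    · exact hd.mul_left _
  have hdj : Disjoint Q ((range J).biUnion I) := by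
    rw [Finset.disjoint_left]
    intro p hp hp2
    rw [hQ, mem_filter, mem_range] at hp
    rw [mem_biUnion] at hp2
    obtain ⟨i, _, hi⟩ := hp2
    have := hMI i p hi
    omega
  have hxN : ((a, b).1 : ℝ) ≤ T ^ (1 / 100 : ℝ) ∧ ((a, b).2 : ℝ) ≤ T ^ (1 / 100 : ℝ) := by
    refine ⟨le_trans ?_ hTab, le_trans ?_ hTab⟩
    · exact_mod_cast le_max_left a b
    · exact_mod_cast le_max_right a b
  set N := ∏ i ∈ range J, bb y i ^ (2 * (3 * KK n Rs i)) with hNd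
  have hNb : N ≤ T ^ (2 / 100 : ℝ) := by
    have := prod_bound hCfg.rg.b10 (fun i => 3 * KK n Rs i) 2 hT1 hlen2
    push_cast at this
    exact this
  have hN : N ≤ T ^ (1 / 4 : ℝ) := hNb.trans (Real.rpow_le_rpow_of_exponent_le hT1.le (by norm_num))
  have hN' : T ^ (1 / 100 : ℝ) * N ≤ T ^ (1 / 4 : ℝ) := by
    calc T ^ (1 / 100 : ℝ) * N ≤ T ^ (1 / 100 : ℝ) * T ^ (2 / 100 : ℝ) := by gcongr
      _ = T ^ (3 / 100 : ℝ) := by rw [← Real.rpow_add hT0]; norm_num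
      _ ≤ _ := Real.rpow_le_rpow_of_exponent_le hT1.le (by norm_num)
  have hLb : ∏ i ∈ range J, bb y i ^ (3 * (3 * KK n Rs i)) ≤ T ^ (3 / 100 : ℝ) := by
    have := prod_bound hCfg.rg.b10 (fun i => 3 * KK n Rs i) 3 hT1 hlen2
    push_cast at this
    exact this
  -- the inner integral
  have hin : ∀ θ₁ θ₂ : ℝ, |θ₁| ≤ 1 → |θ₂| ≤ 1 →
      ‖(∫ t in Set.Ioi (0:ℝ), ((om κ (κ / T) t : ℝ) : ℂ) * (riemannZeta (cl t) * (mh t (a, b) *
          ∏ i ∈ range J, BF (KK n Rs i) (k - 1) k θ₁ θ₂ (zz I t i)))) -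
        ((wF (a, b) : ℝ) : ℂ) * (∫ t in Set.Ioi (0:ℝ), ((om κ (κ / T) t : ℝ) : ℂ) *
          (riemannZeta (cl t) * ∏ i ∈ range J, BF (KK n Rs i) (k - 1) k θ₁ θ₂ (zz I t i)))‖ ≤
      2 * T ^ (-1 : ℝ) * T ^ (3 / 100 : ℝ) := by
    intro θ₁ θ₂ h1 h2
    have hex := expn_prod Pool.Agent.TH328.LK_ALG.t_WF (K := fun i => 3 * KK n Rs i)
      (f := fun i => BF (KK n Rs i) (k - 1) k θ₁ θ₂) hCfg.rg (fun i _ => hν i)
      (fun i _ => by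
        have hKn : n + 1 ≤ KK n Rs i := by
          unfold KK RR
          nlinarith [Nat.zero_le i, Nat.zero_le (n * i), Nat.mul_le_mul hn hRs]
        obtain ⟨q1, _, _, _, _, _⟩ := Pool.Agent.TH328.LK_ALG.t_ALG.2.2.2 n (KK n Rs i) 1 (k - 1) k θ₁ θ₂
          hn hKn le_rfl hkn1 hkn h1 h2
        refine ⟨by omega, Pool.Agent.TH328.LK_ALG.t_ALG.1 _ _ _ (by positivity) ?_ q1⟩
        have : ((n + 1 : ℕ) : ℝ) ≤ KK n Rs i := by exact_mod_cast hKn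
        push_cast at this ⊢
        linarith) J le_rfl
    refine (exp_diff hδ hT0 (hZT κ hκ) hdj hN hN' hxQ hxN hex).trans ?_
    exact mul_le_mul_of_nonneg_left hLb (by positivity)
  -- Fubini
  have hWc := omz_int (κ := κ) hδ
  obtain ⟨B, hB⟩ := FF_bd n Rs J hI (k - 1) k u
  have hsw := swap2 hWc (FF_cont n Rs J hI (k - 1) k u) hB
  have hmc : Continuous fun t : ℝ => mh t (a, b) := mh_cont hxQ.1 hxQ.2.1
  have hc3 : Continuous fun x : ℝ × ℝ × ℝ => mh x.1 (a, b) * FF n Rs J I (k - 1) k u x.1 x.2.1 x.2.2 :=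
    (hmc.comp continuous_fst).mul (FF_cont n Rs J hI (k - 1) k u)
  have hsw2 := swap2 (F := fun t θ₁ θ₂ => mh t (a, b) * FF n Rs J I (k - 1) k u t θ₁ θ₂) (B := 1 * B) hWc hc3
    (fun t θ₁ h1 θ₂ h2 => by
      rw [norm_mul]
      exact mul_le_mul (mh_norm_le hxQ.1 hxQ.2.1) (hB t θ₁ h1 θ₂ h2) (norm_nonneg _) zero_le_one)
  have hAD : ∀ t, BK n Rs J I k u t =
      ∫ θ₁ in (-1:ℝ)..1, ∫ θ₂ in (-1:ℝ)..1, FF n Rs J I (k - 1) k u t θ₁ θ₂ := by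
    intro t
    unfold FF BK
    rw [← DK_sq, mul_comm (starRingEnd ℂ (AZ n Rs J k (zz I t)))]
  have hm2 : (∫ t in Set.Ioi (0:ℝ), ((om κ (κ / T) t : ℝ) : ℂ) * (riemannZeta (cl t) * BK n Rs J I k u t)) =
      ∫ θ₁ in (-1:ℝ)..1, ∫ θ₂ in (-1:ℝ)..1, ∫ t in Set.Ioi (0:ℝ),
        (((om κ (κ / T) t : ℝ) : ℂ) * riemannZeta (cl t)) * FF n Rs J I (k - 1) k u t θ₁ θ₂ := by
    rw [← hsw.1]
    refine integral_congr_ae (Eventually.of_forall fun t => ?_)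
    simp only
    rw [hAD]
    ring
  have hm1 : (∫ t in Set.Ioi (0:ℝ), ((om κ (κ / T) t : ℝ) : ℂ) *
      (riemannZeta (cl t) * (mh t (a, b) * BK n Rs J I k u t))) =
      ∫ θ₁ in (-1:ℝ)..1, ∫ θ₂ in (-1:ℝ)..1, ∫ t in Set.Ioi (0:ℝ),
        (((om κ (κ / T) t : ℝ) : ℂ) * riemannZeta (cl t)) *
          (mh t (a, b) * FF n Rs J I (k - 1) k u t θ₁ θ₂) := by
    rw [← hsw2.1]
    refine integral_congr_ae (Eventually.of_forall fun t => ?_)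
    simp only
    rw [hAD]
    simp_rw [intervalIntegral.integral_const_mul]
    ring
  rw [hm1, hm2]
  set I1 : ℝ → ℝ → ℂ := fun θ₁ θ₂ => ∫ t in Set.Ioi (0:ℝ),
        (((om κ (κ / T) t : ℝ) : ℂ) * riemannZeta (cl t)) *
          (mh t (a, b) * FF n Rs J I (k - 1) k u t θ₁ θ₂) with hI1
  set I2 : ℝ → ℝ → ℂ := fun θ₁ θ₂ => ∫ t in Set.Ioi (0:ℝ),
        (((om κ (κ / T) t : ℝ) : ℂ) * riemannZeta (cl t)) * FF n Rs J I (k - 1) k u t θ₁ θ₂ with hI2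
  set w : ℂ := ((wF (a, b) : ℝ) : ℂ) with hw
  have hsub : (∫ θ₁ in (-1:ℝ)..1, ∫ θ₂ in (-1:ℝ)..1, I1 θ₁ θ₂) - w * (∫ θ₁ in (-1:ℝ)..1, ∫ θ₂ in (-1:ℝ)..1, I2 θ₁ θ₂) =
      ∫ θ₁ in (-1:ℝ)..1, ∫ θ₂ in (-1:ℝ)..1, (I1 θ₁ θ₂ - w * I2 θ₁ θ₂) := by
    rw [← intervalIntegral.integral_const_mul, ← intervalIntegral.integral_sub hsw2.2.2 (hsw.2.2.const_mul w)]
    refine intervalIntegral.integral_congr fun θ₁ h1 => ?_
    rw [Set.uIcc_of_le (by norm_num)] at h1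
    rw [← intervalIntegral.integral_const_mul,
      ← intervalIntegral.integral_sub (hsw2.2.1 θ₁ h1) ((hsw.2.1 θ₁ h1).const_mul w)]
  rw [hsub]
  have hd : ∀ θ₁ ∈ Set.Icc (-1:ℝ) 1, ∀ θ₂ ∈ Set.Icc (-1:ℝ) 1,
      ‖I1 θ₁ θ₂ - w * I2 θ₁ θ₂‖ ≤ 0 * (1:ℝ) + 2 * T ^ (-1 : ℝ) * T ^ (3 / 100 : ℝ) := by
    intro θ₁ h1 θ₂ h2
    set q : ℂ := ((hh θ₁ * hh θ₂ : ℝ) : ℂ) * Complex.exp (-(((θ₁ + θ₂) * u : ℝ) : ℂ) * Complex.I) with hq
    have e1 : ∀ t : ℝ, (((om κ (κ / T) t : ℝ) : ℂ) * riemannZeta (cl t)) *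
        (mh t (a, b) * FF n Rs J I (k - 1) k u t θ₁ θ₂) = q *
        (((om κ (κ / T) t : ℝ) : ℂ) * (riemannZeta (cl t) * (mh t (a, b) *
          ∏ i ∈ range J, BF (KK n Rs i) (k - 1) k θ₁ θ₂ (zz I t i)))) := by
      intro t; rw [hq]; unfold FF; push_cast; ring
    have e2 : ∀ t : ℝ, (((om κ (κ / T) t : ℝ) : ℂ) * riemannZeta (cl t)) *
        FF n Rs J I (k - 1) k u t θ₁ θ₂ = q *
        (((om κ (κ / T) t : ℝ) : ℂ) * (riemannZeta (cl t) *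
          ∏ i ∈ range J, BF (KK n Rs i) (k - 1) k θ₁ θ₂ (zz I t i))) := by
      intro t; rw [hq]; unfold FF; push_cast; ring
    have e3 : I1 θ₁ θ₂ - w * I2 θ₁ θ₂ = q *
        ((∫ t in Set.Ioi (0:ℝ), ((om κ (κ / T) t : ℝ) : ℂ) * (riemannZeta (cl t) * (mh t (a, b) *
          ∏ i ∈ range J, BF (KK n Rs i) (k - 1) k θ₁ θ₂ (zz I t i)))) -
        w * (∫ t in Set.Ioi (0:ℝ), ((om κ (κ / T) t : ℝ) : ℂ) *
          (riemannZeta (cl t) * ∏ i ∈ range J, BF (KK n Rs i) (k - 1) k θ₁ θ₂ (zz I t i)))) := by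
      rw [hI1, hI2]
      simp only
      simp_rw [e1, e2]
      rw [integral_const_mul, integral_const_mul]
      ring
    rw [e3, norm_mul]
    have h3 := hin θ₁ θ₂ (abs_le.mpr h1) (abs_le.mpr h2)
    have h4 : hh θ₁ * hh θ₂ ≤ 1 := mul_le_one₀ (hh_bd h1).2 (hh_bd h2).1 (hh_bd h2).2
    have h5 : 0 ≤ hh θ₁ * hh θ₂ := mul_nonneg (hh_bd h1).1 (hh_bd h2).1
    have hq1 : ‖q‖ ≤ 1 := by
      rw [hq, norm_mul, norm_e, mul_one, Complex.norm_real, Real.norm_eq_abs, abs_of_nonneg h5]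
      exact h4
    rw [zero_mul, zero_add]
    calc _ ≤ 1 * (2 * T ^ (-1 : ℝ) * T ^ (3 / 100 : ℝ)) :=
          mul_le_mul hq1 h3 (norm_nonneg _) zero_le_one
      _ = _ := one_mul _
  have hd2 := dbl_le (F := fun θ₁ θ₂ => I1 θ₁ θ₂ - w * I2 θ₁ θ₂)
    (G := fun _ _ => 0 * (1:ℝ) + 2 * T ^ (-1 : ℝ) * T ^ (3 / 100 : ℝ)) continuous_const hd
  rw [dbl_lin (g := fun _ _ => (1:ℝ)) continuous_const] at hd2
  refine hd2.trans ?_
  rw [zero_mul, zero_add]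
  have e9 : 4 * (2 * T ^ (-1 : ℝ) * T ^ (3 / 100 : ℝ)) = 8 * T ^ (-(97 / 100) : ℝ) := by
    have : T ^ (-(97 / 100) : ℝ) = T ^ (-1 : ℝ) * T ^ (3 / 100 : ℝ) := by
      rw [← Real.rpow_add hT0]; norm_num
    rw [this]; ring
  rw [e9]
  calc 8 * T ^ (-(97 / 100) : ℝ) ≤ T ^ (1 / 2 : ℝ) * T ^ (-(97 / 100) : ℝ) := by gcongr
    _ = T ^ (-(47 / 100) : ℝ) := by rw [← Real.rpow_add hT0]; norm_num
    _ ≤ _ := Real.rpow_le_rpow_of_exponent_le hT1.le (by norm_num)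

end

end Pool.Agent.Q14.MC.TM
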